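import Pool.Agent.H.MP_0cad2f_co.helper11.Gauss

/-!
Translation of the whole array of constraints.
-/

set_option autoImplicit false

namespace Pool.Agent.H.MP_0cad2f_co.helper11.TD

open MeasureTheory ProbabilityTheory Finset Matrix
open scoped NNReal ENNReal
open Pool.Agent.H.MP_0cad2f_co.helper47 (gau noise n2 Idx mat nu vtx Good n2_sq n2_nonneg dot_le
  dot_self_nonneg sum_coord dot_vtx)

variable {n d : ℕ}

/-- Product functions integrate to products. -/
theorem lint_prod' {E : Type*} [MeasurableSpace E] {m : ℕ} (μ : Fin m → Measure E)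
    [∀ i, SigmaFinite (μ i)] (f : Fin m → E → ℝ≥0∞) (hf : ∀ i, Measurable (f i)) :
    ∫⁻ x : Fin m → E, ∏ i, f i (x i) ∂(Measure.pi μ) = ∏ i, ∫⁻ x, f i x ∂(μ i) := by
  induction m with
  | zero => simp
  | succ m ih =>
    have hmp := (measurePreserving_piFinSuccAbove μ 0).symm
    rw [← hmp.lintegral_comp_emb (MeasurableEquiv.measurableEmbedding _)]
    have h1 : ∀ z : E × (Fin m → E),
        ∏ i, f i ((MeasurableEquiv.piFinSuccAbove (fun _ : Fin (m + 1) => E) 0).symm z i) =
          f 0 z.1 * ∏ i : Fin m, f i.succ (z.2 i) := by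
      intro z
      rw [Fin.prod_univ_succ]
      simp [MeasurableEquiv.piFinSuccAbove_symm_apply, Fin.insertNthEquiv]
    simp_rw [h1]
    have h2 : Measurable fun y : Fin m → E => ∏ i : Fin m, f i.succ (y i) :=
      Finset.measurable_fun_prod _ fun i _ => (hf i.succ).comp (measurable_pi_apply i)
    rw [lintegral_prod_mul (f := f 0) (g := fun y : Fin m → E => ∏ i : Fin m, f i.succ (y i))
      (hf 0).aemeasurable h2.aemeasurable, Fin.prod_univ_succ]
    congr 1
    exact ih (fun i => μ i.succ) (fun i => f i.succ) fun i => hf i.succ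

/-- Products of measures with densities. -/
theorem pi_density {E : Type*} [MeasurableSpace E] {m : ℕ} (μ : Fin m → Measure E)
    [∀ i, SigmaFinite (μ i)] (f : Fin m → E → ℝ≥0∞) (hf : ∀ i, Measurable (f i))
    (ν : Fin m → Measure E) [∀ i, SigmaFinite (ν i)] (hν : ∀ i, ν i = (μ i).withDensity (f i)) :
    Measure.pi ν = (Measure.pi μ).withDensity fun x => ∏ i, f i (x i) := by
  refine Measure.pi_eq fun s hs => ?_
  rw [withDensity_apply _ (MeasurableSet.univ_pi hs),
    ← lintegral_indicator (MeasurableSet.univ_pi hs)]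
  have h1 : ∀ x : Fin m → E, (Set.pi Set.univ s).indicator
      (fun x => ∏ i, f i (x i)) x = ∏ i, (s i).indicator (f i) (x i) := by
    intro x
    by_cases hx : x ∈ Set.pi Set.univ s
    · rw [Set.indicator_of_mem hx]
      refine prod_congr rfl fun j _ => ?_
      rw [Set.indicator_of_mem (hx j (Set.mem_univ j))]
    · rw [Set.indicator_of_notMem hx]
      rw [Set.mem_univ_pi, not_forall] at hx
      obtain ⟨j, hj⟩ := hx
      symm
      exact prod_eq_zero (mem_univ j) (Set.indicator_of_notMem hj _)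
  simp_rw [h1]
  rw [lint_prod' _ _ fun j => (hf j).indicator (hs j)]
  refine prod_congr rfl fun j _ => ?_
  rw [lintegral_indicator (hs j), hν, withDensity_apply _ (hs j)]

theorem noise_density (c : Fin n → Fin d → ℝ) {v : ℝ≥0} (hv0 : v ≠ 0) :
    (Measure.pi fun i : Fin n => Measure.pi fun j : Fin d => gaussianReal (c i j) v) =
      (volume : Measure (Fin n → Fin d → ℝ)).withDensity
        fun a => ∏ i, ∏ j, gaussianPDF (c i j) v (a i j) := by
  have hpm : ∀ i : Fin n, Measurable fun x : Fin d → ℝ => ∏ j, gaussianPDF (c i j) v (x j) :=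
    fun i => Finset.measurable_fun_prod _ fun j _ => (measurable_gaussianPDF _ _).comp
      (measurable_pi_apply j)
  exact pi_density (fun _ : Fin n => (volume : Measure (Fin d → ℝ)))
    (fun i x => ∏ j, gaussianPDF (c i j) v (x j)) hpm
    (fun i => Measure.pi fun j : Fin d => gaussianReal (c i j) v) fun i => gau_density (c i) hv0

theorem lint_translate (z : Fin n → Fin d → ℝ) (G : (Fin n → Fin d → ℝ) → ℝ≥0∞) :
    ∫⁻ a : Fin n → Fin d → ℝ, G (a + z) = ∫⁻ a : Fin n → Fin d → ℝ, G a :=
  lintegral_add_right_eq_self (μ := (volume : Measure (Fin n → Fin d → ℝ))) G z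

/-- Translation of the whole array. -/
theorem noise_shift (c z : Fin n → Fin d → ℝ) {σ Rg : ℝ} (hσ : 0 < σ)
    {F : (Fin n → Fin d → ℝ) → ℝ≥0∞} (hF : Measurable F) :
    ∫⁻ a in {a | ∀ i, n2 (a i - c i) ≤ Rg}, F (a + z) ∂(noise c σ) ≤
      ENNReal.ofReal (Real.exp (∑ i, (2 * Rg * n2 (z i) + n2 (z i) ^ 2) / (2 * σ ^ 2))) *
        ∫⁻ a, F a ∂(noise c σ) := by
  set v : ℝ≥0 := Real.toNNReal (σ ^ 2) with hv
  have hv' : (v : ℝ) = σ ^ 2 := by rw [hv, Real.coe_toNNReal _ (by positivity)]
  have hv0 : v ≠ 0 := by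
    intro h
    have h2 : (v : ℝ) = 0 := by rw [h]; rfl
    rw [hv'] at h2
    have : 0 < σ ^ 2 := by positivity
    linarith
  have hpm : ∀ i : Fin n, Measurable fun x : Fin d → ℝ => ∏ j, gaussianPDF (c i j) v (x j) :=
    fun i => Finset.measurable_fun_prod _ fun j _ => (measurable_gaussianPDF _ _).comp
      (measurable_pi_apply j)
  have hPm : Measurable fun a : Fin n → Fin d → ℝ =>
      ∏ i, ∏ j, gaussianPDF (c i j) v (a i j) :=
    Finset.measurable_fun_prod _ fun i _ => (hpm i).comp (measurable_pi_apply i)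
  have hn2m : ∀ i, Measurable fun a : Fin n → Fin d → ℝ => n2 (a i - c i) := by
    intro i
    have : Continuous fun a : Fin n → Fin d → ℝ => n2 (a i - c i) := by
      unfold n2
      simp only [dotProduct]
      fun_prop
    exact this.measurable
  have hsm : MeasurableSet {a : Fin n → Fin d → ℝ | ∀ i, n2 (a i - c i) ≤ Rg} := by
    rw [Set.ofPred_forall]
    exact MeasurableSet.iInter fun i => measurableSet_le (hn2m i) measurable_const
  have hnoise : noise c σ = (volume : Measure (Fin n → Fin d → ℝ)).withDensity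
      fun a => ∏ i, ∏ j, gaussianPDF (c i j) v (a i j) := noise_density c hv0
  have hFz : Measurable fun a : Fin n → Fin d → ℝ => F (a + z) :=
    hF.comp (measurable_id.add_const z)
  rw [hnoise, restrict_withDensity hsm, lintegral_withDensity_eq_lintegral_mul _ hPm hFz,
    lintegral_withDensity_eq_lintegral_mul _ hPm hF]
  set C := ENNReal.ofReal
    (Real.exp (∑ i, (2 * Rg * n2 (z i) + n2 (z i) ^ 2) / (2 * σ ^ 2))) with hC
  have h1 : ∫⁻ a in {a : Fin n → Fin d → ℝ | ∀ i, n2 (a i - c i) ≤ Rg},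
      ((fun a : Fin n → Fin d → ℝ => ∏ i, ∏ j, gaussianPDF (c i j) v (a i j)) *
        fun a => F (a + z)) a ≤
      ∫⁻ a : Fin n → Fin d → ℝ,
        C * ((∏ i, ∏ j, gaussianPDF (c i j) v ((a + z) i j)) * F (a + z)) := by
    refine (setLIntegral_mono' hsm fun a ha => ?_).trans (setLIntegral_le_lintegral _ _)
    rw [Pi.mul_apply, ← mul_assoc]
    refine mul_le_mul_left ?_ _
    rw [hC, Real.exp_sum, ENNReal.ofReal_prod_of_nonneg fun i _ => (Real.exp_pos _).le,
      ← Finset.prod_mul_distrib]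
    refine Finset.prod_le_prod' fun i _ => ?_
    rw [pdf_shift (c i) (z i) (a i) hv0, hv']
    refine mul_le_mul_left (ENNReal.ofReal_le_ofReal (Real.exp_le_exp.mpr ?_)) _
    refine div_le_div_of_nonneg_right ?_ (by positivity)
    have h2 := dot_le (a i - c i) (z i)
    have h3 : n2 (a i - c i) * n2 (z i) ≤ Rg * n2 (z i) :=
      mul_le_mul_of_nonneg_right (ha i) (n2_nonneg (z i))
    rw [n2_sq]
    linarith
  refine h1.trans ?_
  rw [lintegral_const_mul' _ _ ENNReal.ofReal_ne_top]
  refine mul_le_mul_right ?_ _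
  exact (lint_translate z fun a => (∏ i, ∏ j, gaussianPDF (c i j) v (a i j)) * F a).le

end Pool.Agent.H.MP_0cad2f_co.helper11.TD
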