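import Mathlib

/-!
The law of a linear functional of a Gaussian vector; lower tail; hyperplanes are null.
-/

set_option autoImplicit false

namespace Pool.Agent.H.MP_0cad2f_co.helper11

open MeasureTheory ProbabilityTheory Finset
open scoped NNReal ENNReal

/-- Squared Euclidean norm as a nonnegative real. -/
noncomputable def nsq {d : ℕ} (y : Fin d → ℝ) : ℝ≥0 := Real.toNNReal (∑ j, y j ^ 2)

theorem nsq_coe {d : ℕ} (y : Fin d → ℝ) : (nsq y : ℝ) = ∑ j, y j ^ 2 :=
  Real.coe_toNNReal _ (sum_nonneg fun _ _ => sq_nonneg _)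

theorem law {d : ℕ} (m y : Fin d → ℝ) (v : ℝ≥0) :
    (Measure.pi fun j => gaussianReal (m j) v).map (fun b : Fin d → ℝ => ∑ j, b j * y j) =
      gaussianReal (∑ j, m j * y j) (v * nsq y) := by
  have hmeas : Measurable (fun b : Fin d → ℝ => ∑ j, b j * y j) := by fun_prop
  have := Measure.isProbabilityMeasure_map (μ := Measure.pi fun j => gaussianReal (m j) v)
    hmeas.aemeasurable
  apply Measure.ext_of_charFun
  ext t
  rw [charFun_apply_real, integral_map hmeas.aemeasurable
    (Measurable.aestronglyMeasurable (by fun_prop)), charFun_gaussianReal]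
  have h1 : ∀ b : Fin d → ℝ, Complex.exp (t * ((∑ j, b j * y j : ℝ) : ℂ) * Complex.I) =
      ∏ j, Complex.exp (((t * y j : ℝ) : ℂ) * (b j : ℂ) * Complex.I) := by
    intro b
    rw [← Complex.exp_sum]
    congr 1
    push_cast
    rw [Finset.mul_sum, Finset.sum_mul]
    exact sum_congr rfl fun j _ => by ring
  simp_rw [h1]
  rw [integral_fintype_prod_eq_prod
    (f := fun j (x : ℝ) => Complex.exp (((t * y j : ℝ) : ℂ) * (x : ℂ) * Complex.I))]
  simp_rw [← charFun_apply_real, charFun_gaussianReal]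
  rw [← Complex.exp_sum]
  congr 1
  rw [sum_sub_distrib]
  congr 1
  · push_cast
    rw [Finset.mul_sum, Finset.sum_mul]
    exact sum_congr rfl fun j _ => by ring
  · have h2 : ((v * nsq y : ℝ≥0) : ℂ) = (v : ℂ) * ∑ j, (y j : ℂ) ^ 2 := by
      have : ((v * nsq y : ℝ≥0) : ℝ) = (v : ℝ) * ∑ j, y j ^ 2 := by
        rw [NNReal.coe_mul, nsq_coe]
      have h3 := congrArg (fun r : ℝ => (r : ℂ)) this
      simpa using h3
    rw [h2, Finset.mul_sum, Finset.sum_mul, Finset.sum_div]
    refine sum_congr rfl fun j _ => ?_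
    push_cast
    ring

theorem null_hyperplane {d : ℕ} (m w : Fin d → ℝ) {v : ℝ≥0} (hv : v ≠ 0) (hw : w ≠ 0) (D : ℝ) :
    (Measure.pi fun j => gaussianReal (m j) v) {b : Fin d → ℝ | ∑ j, b j * w j = D} = 0 := by
  have hmeas : Measurable (fun b : Fin d → ℝ => ∑ j, b j * w j) := by fun_prop
  have h1 : (Measure.pi fun j => gaussianReal (m j) v) {b : Fin d → ℝ | ∑ j, b j * w j = D} =
      (Measure.pi fun j => gaussianReal (m j) v).map (fun b : Fin d → ℝ => ∑ j, b j * w j) {D} := by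
    rw [Measure.map_apply hmeas (measurableSet_singleton D)]
    rfl
  have hnw : nsq w ≠ 0 := by
    intro h0
    have h2 : (nsq w : ℝ) = 0 := by rw [h0]; simp
    rw [nsq_coe, sum_eq_zero_iff_of_nonneg fun j _ => sq_nonneg _] at h2
    exact hw (funext fun j => by simpa using h2 j (mem_univ j))
  rw [h1, law]
  have := nullSingletonClass_gaussianReal (μ := ∑ j, m j * w j) (mul_ne_zero hv hnw)
  exact measure_singleton D

/-- Lower bound for the Gaussian tail. -/
theorem tail_lower (m : ℝ) {σ : ℝ} (hσ : 0 < σ) {t : ℝ} (ht : 1 ≤ t) :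
    ENNReal.ofReal (Real.exp (-(t ^ 2 / 2)) / (12 * t)) ≤
      gaussianReal m (Real.toNNReal (σ ^ 2)) {x | m + σ * t ≤ x} := by
  have hv : (Real.toNNReal (σ ^ 2) : ℝ) = σ ^ 2 := Real.coe_toNNReal _ (sq_nonneg σ)
  have hv0 : Real.toNNReal (σ ^ 2) ≠ 0 := by
    intro h0
    rw [h0] at hv
    have := pow_pos hσ 2
    simp at hv
    rw [← hv] at this
    simp at this
  have hsub : Set.Icc (m + σ * t) (m + σ * (t + 1 / t)) ⊆ {x | m + σ * t ≤ x} := fun x hx => hx.1
  refine le_trans ?_ (measure_mono hsub)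
  rw [gaussianReal_apply _ hv0]
  have hlen : volume (Set.Icc (m + σ * t) (m + σ * (t + 1 / t))) = ENNReal.ofReal (σ / t) := by
    rw [Real.volume_Icc]
    congr 1
    field_simp
    ring
  have hlow : ∀ x ∈ Set.Icc (m + σ * t) (m + σ * (t + 1 / t)),
      ENNReal.ofReal (Real.exp (-(t ^ 2 / 2)) / (12 * σ)) ≤
        gaussianPDF m (Real.toNNReal (σ ^ 2)) x := by
    intro x hx
    rw [gaussianPDF]
    apply ENNReal.ofReal_le_ofReal
    rw [gaussianPDFReal, hv]
    have h1 : (x - m) ^ 2 ≤ σ ^ 2 * (t ^ 2 + 3) := by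
      have h2 : 0 ≤ x - m := by
        have := hx.1
        have h3 : 0 < σ * t := by positivity
        linarith
      have h3 : x - m ≤ σ * (t + 1 / t) := by linarith [hx.2]
      have h4 : (x - m) ^ 2 ≤ (σ * (t + 1 / t)) ^ 2 := pow_le_pow_left₀ h2 h3 2
      refine h4.trans ?_
      rw [mul_pow]
      apply mul_le_mul_of_nonneg_left _ (sq_nonneg σ)
      have h5 : (t + 1 / t) ^ 2 = t ^ 2 + 2 + (1 / t) ^ 2 := by
        field_simp
        ring
      have h6 : 1 / t ≤ 1 := by rw [div_le_one (by linarith)]; exact ht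
      have h7 : 0 < 1 / t := by positivity
      rw [h5]
      nlinarith
    have h2 : Real.exp (-(t ^ 2 / 2) - 3 / 2) ≤ Real.exp (-(x - m) ^ 2 / (2 * σ ^ 2)) := by
      apply Real.exp_le_exp.mpr
      rw [le_div_iff₀ (by positivity)]
      nlinarith
    have h3 : Real.sqrt (2 * Real.pi * σ ^ 2) = Real.sqrt (2 * Real.pi) * σ := by
      rw [Real.sqrt_mul (by positivity), Real.sqrt_sq hσ.le]
    rw [h3]
    have h4 : Real.exp (-(t ^ 2 / 2) - 3 / 2) * Real.exp (3 / 2) = Real.exp (-(t ^ 2 / 2)) := by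
      rw [← Real.exp_add]; ring_nf
    have h5 : Real.sqrt (2 * Real.pi) * Real.exp (3 / 2) ≤ 12 := by
      have h6 : Real.sqrt (2 * Real.pi) ≤ 2.51 := by
        rw [show (2.51 : ℝ) = Real.sqrt (2.51 ^ 2) by rw [Real.sqrt_sq (by norm_num)]]
        apply Real.sqrt_le_sqrt
        have := Real.pi_lt_d4
        norm_num
        linarith
      have h7 : Real.exp (3 / 2) ≤ 4.5 := by
        have h8 : Real.exp (3 / 2) ^ 2 ≤ 4.5 ^ 2 := by
          rw [← Real.exp_nat_mul]
          have h9 := Real.exp_one_lt_d9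
          have h10 : Real.exp (((2 : ℕ) : ℝ) * (3 / 2)) = Real.exp 1 ^ 3 := by
            rw [← Real.exp_nat_mul]; norm_num
          rw [h10]
          have h11 : Real.exp 1 ^ 3 ≤ 2.7182818286 ^ 3 :=
            pow_le_pow_left₀ (Real.exp_pos 1).le h9.le 3
          refine h11.trans (by norm_num)
        exact le_of_sq_le_sq h8 (by norm_num)
      have h8 := Real.exp_pos (3 / 2)
      have h9 := Real.sqrt_nonneg (2 * Real.pi)
      calc Real.sqrt (2 * Real.pi) * Real.exp (3 / 2) ≤ 2.51 * 4.5 :=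
            mul_le_mul h6 h7 h8.le (by norm_num)
        _ ≤ 12 := by norm_num
    have hspos : 0 < Real.sqrt (2 * Real.pi) := Real.sqrt_pos.mpr (by positivity)
    calc Real.exp (-(t ^ 2 / 2)) / (12 * σ)
        ≤ (Real.sqrt (2 * Real.pi) * σ)⁻¹ * Real.exp (-(t ^ 2 / 2) - 3 / 2) := by
          rw [← h4, inv_mul_eq_div, div_le_div_iff₀ (by positivity) (by positivity)]
          have h10 := Real.exp_pos (-(t ^ 2 / 2) - 3 / 2)
          have h11 : Real.exp (-(t ^ 2 / 2) - 3 / 2) * σ *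
              (Real.sqrt (2 * Real.pi) * Real.exp (3 / 2)) ≤
              Real.exp (-(t ^ 2 / 2) - 3 / 2) * σ * 12 :=
            mul_le_mul_of_nonneg_left h5 (by positivity)
          linarith
      _ ≤ (Real.sqrt (2 * Real.pi) * σ)⁻¹ * Real.exp (-(x - m) ^ 2 / (2 * σ ^ 2)) :=
          mul_le_mul_of_nonneg_left h2 (by positivity)
  calc ENNReal.ofReal (Real.exp (-(t ^ 2 / 2)) / (12 * t))
      = ENNReal.ofReal (Real.exp (-(t ^ 2 / 2)) / (12 * σ)) *
          volume (Set.Icc (m + σ * t) (m + σ * (t + 1 / t))) := by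
        rw [hlen, ← ENNReal.ofReal_mul (by positivity)]
        congr 1
        field_simp
    _ = ∫⁻ _x in Set.Icc (m + σ * t) (m + σ * (t + 1 / t)),
          ENNReal.ofReal (Real.exp (-(t ^ 2 / 2)) / (12 * σ)) := by rw [setLIntegral_const]
    _ ≤ ∫⁻ x in Set.Icc (m + σ * t) (m + σ * (t + 1 / t)),
          gaussianPDF m (Real.toNNReal (σ ^ 2)) x :=
        setLIntegral_mono' measurableSet_Icc hlow

end Pool.Agent.H.MP_0cad2f_co.helper11
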