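import Pool.Agent.H.MP_0cad2f_co.helper47.Defs

/-!
The objectives of the walk: bounds on the polyhedron and at the vertices met.
-/

set_option autoImplicit false

namespace Pool.Agent.H.MP_0cad2f_co.helper11.TD

open MeasureTheory ProbabilityTheory Finset Matrix
open scoped NNReal ENNReal
open Pool.Agent.H.MP_0cad2f_co.helper47 (n2 Idx mat nu vtx Good InCone n2_sq n2_nonneg dot_le
  abs_dot_le dot_self_nonneg sum_coord dot_vtx dot_nu sum_smul_nu n2_sum_le n2_smul n2_add_le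
  sum_nu_smul)

variable {n d : ℕ}

/-- The sum of the constraints in `G`. -/
def sumG (a : Fin n → Fin d → ℝ) (G : Finset (Fin n)) : Fin d → ℝ := ∑ i ∈ G, a i

/-- The sum of the constraints of a basis. -/
def sumI (a : Fin n → Fin d → ℝ) (I : Idx n d) : Fin d → ℝ := ∑ k, a (I k)

theorem spans_of_nu {a : Fin n → Fin d → ℝ} {I : Idx n d} (hI : (mat a I).det ≠ 0)
    {G : Finset (Fin n)} (hG : ∀ k, I k ∈ G) {T : ℝ} (hT0 : 0 ≤ T)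
    (hT : ∀ k, n2 (nu a I k) ≤ T) (x : Fin d → ℝ) : n2 x ≤ T * ∑ i ∈ G, |a i ⬝ᵥ x| := by
  have h1 : n2 x ≤ ∑ k, |a (I k) ⬝ᵥ x| * T := by
    conv_lhs => rw [← sum_smul_nu hI x]
    refine (n2_sum_le _ _).trans (Finset.sum_le_sum fun k _ => ?_)
    rw [n2_smul]
    exact mul_le_mul_of_nonneg_left (hT k) (abs_nonneg _)
  have h2 : ∑ k, |a (I k) ⬝ᵥ x| ≤ ∑ i ∈ G, |a i ⬝ᵥ x| := by
    have h3 : ∑ k, |a (I k) ⬝ᵥ x| = ∑ i ∈ Finset.univ.map I.toEmbedding, |a i ⬝ᵥ x| := by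
      rw [Finset.sum_map]
      rfl
    rw [h3]
    refine Finset.sum_le_sum_of_subset_of_nonneg ?_ fun i _ _ => abs_nonneg _
    intro i hi
    rw [Finset.mem_map] at hi
    obtain ⟨k, _, rfl⟩ := hi
    exact hG k
  calc n2 x ≤ ∑ k, |a (I k) ⬝ᵥ x| * T := h1
    _ = T * ∑ k, |a (I k) ⬝ᵥ x| := by rw [← Finset.sum_mul, mul_comm]
    _ ≤ T * ∑ i ∈ G, |a i ⬝ᵥ x| := mul_le_mul_of_nonneg_left h2 hT0

theorem dot_S_le {a : Fin n → Fin d → ℝ} {G : Finset (Fin n)} {T : ℝ} (hT : 0 < T)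
    (hG : ∀ x : Fin d → ℝ, n2 x ≤ T * ∑ i ∈ G, |a i ⬝ᵥ x|) {x : Fin d → ℝ}
    (hx : ∀ i, a i ⬝ᵥ x ≤ 1) : sumG a G ⬝ᵥ x ≤ 2 * G.card - n2 x / T := by
  have h1 : ∀ i ∈ G, a i ⬝ᵥ x ≤ 2 - |a i ⬝ᵥ x| := by
    intro i _
    rcases abs_cases (a i ⬝ᵥ x) with h | h <;> linarith [hx i]
  have h2 : sumG a G ⬝ᵥ x = ∑ i ∈ G, a i ⬝ᵥ x := by
    rw [sumG, sum_dotProduct]
  have h3 : n2 x / T ≤ ∑ i ∈ G, |a i ⬝ᵥ x| := by
    rw [div_le_iff₀ hT, mul_comm]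
    exact hG x
  calc sumG a G ⬝ᵥ x = ∑ i ∈ G, a i ⬝ᵥ x := h2
    _ ≤ ∑ i ∈ G, (2 - |a i ⬝ᵥ x|) := Finset.sum_le_sum h1
    _ = 2 * G.card - ∑ i ∈ G, |a i ⬝ᵥ x| := by
        rw [Finset.sum_sub_distrib, Finset.sum_const, nsmul_eq_mul, mul_comm]
    _ ≤ 2 * G.card - n2 x / T := by linarith

theorem dot_sumI (a : Fin n → Fin d → ℝ) (I : Idx n d) (x : Fin d → ℝ) :
    sumI a I ⬝ᵥ x = ∑ k, a (I k) ⬝ᵥ x := by
  rw [sumI, sum_dotProduct]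

theorem dot_sumI_le {a : Fin n → Fin d → ℝ} (I : Idx n d) {x : Fin d → ℝ}
    (hx : ∀ i, a i ⬝ᵥ x ≤ 1) : sumI a I ⬝ᵥ x ≤ d := by
  rw [dot_sumI]
  calc ∑ k, a (I k) ⬝ᵥ x ≤ ∑ _k : Fin d, (1 : ℝ) := Finset.sum_le_sum fun k _ => hx _
    _ = d := by simp

theorem dot_sumI_vtx {a : Fin n → Fin d → ℝ} {I : Idx n d} (hI : (mat a I).det ≠ 0) :
    sumI a I ⬝ᵥ vtx a I = d := by
  rw [dot_sumI]
  calc ∑ k, a (I k) ⬝ᵥ vtx a I = ∑ _k : Fin d, (1 : ℝ) :=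
        Finset.sum_congr rfl fun k _ => dot_vtx hI k
    _ = d := by simp

theorem obj_eq (a : Fin n → Fin d → ℝ) (G : Finset (Fin n)) (I : Idx n d) (X x : Fin d → ℝ)
    (L μ : ℝ) : (X + L • sumG a G + μ • sumI a I) ⬝ᵥ x =
      X ⬝ᵥ x + L * (sumG a G ⬝ᵥ x) + μ * (sumI a I ⬝ᵥ x) := by
  rw [add_dotProduct, add_dotProduct, smul_dotProduct, smul_dotProduct, smul_eq_mul, smul_eq_mul]

theorem obj_le {a : Fin n → Fin d → ℝ} {G : Finset (Fin n)} {T L μ : ℝ} (hT : 0 < T)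
    (hG : ∀ x : Fin d → ℝ, n2 x ≤ T * ∑ i ∈ G, |a i ⬝ᵥ x|) (I : Idx n d) {X : Fin d → ℝ}
    (hL : T * (n2 X + 1) ≤ L) (hμ : 0 ≤ μ) {x : Fin d → ℝ} (hx : ∀ i, a i ⬝ᵥ x ≤ 1) :
    (X + L • sumG a G + μ • sumI a I) ⬝ᵥ x ≤ 2 * L * G.card + μ * d - n2 x := by
  rw [obj_eq]
  have h1 := dot_le X x
  have h2 := dot_S_le hT hG hx
  have h3 := dot_sumI_le I hx
  have hL0 : 0 ≤ L := le_trans (by have := n2_nonneg X; positivity) hL
  have h4 : L * (sumG a G ⬝ᵥ x) ≤ L * (2 * G.card - n2 x / T) :=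
    mul_le_mul_of_nonneg_left h2 hL0
  have h5 : μ * (sumI a I ⬝ᵥ x) ≤ μ * d := mul_le_mul_of_nonneg_left h3 hμ
  have h6 : (n2 X + 1) * n2 x ≤ L * (n2 x / T) := by
    rw [← mul_div_assoc, le_div_iff₀ hT]
    calc (n2 X + 1) * n2 x * T = (T * (n2 X + 1)) * n2 x := by ring
      _ ≤ L * n2 x := mul_le_mul_of_nonneg_right hL (n2_nonneg x)
  nlinarith

/-- A vertex whose cone contains `w` maximizes `w`. -/
theorem vtx_max {a : Fin n → Fin d → ℝ} {B : Idx n d} (hB : (mat a B).det ≠ 0)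
    {w : Fin d → ℝ} (hw : InCone a B w) {x : Fin d → ℝ} (hx : ∀ i, a i ⬝ᵥ x ≤ 1) :
    w ⬝ᵥ x ≤ w ⬝ᵥ vtx a B := by
  have h1 : ∀ y : Fin d → ℝ, w ⬝ᵥ y = ∑ k, (nu a B k ⬝ᵥ w) * (a (B k) ⬝ᵥ y) := by
    intro y
    conv_lhs => rw [← sum_nu_smul hB w]
    rw [sum_dotProduct]
    exact Finset.sum_congr rfl fun k _ => by rw [smul_dotProduct, smul_eq_mul]
  rw [h1 x, h1 (vtx a B)]
  refine Finset.sum_le_sum fun k _ => mul_le_mul_of_nonneg_left ?_ (hw k)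
  rw [dot_vtx hB k]
  exact hx _

theorem n2_sumG_le {a : Fin n → Fin d → ℝ} {A : ℝ} (hA : ∀ i, n2 (a i) ≤ A)
    (G : Finset (Fin n)) : n2 (sumG a G) ≤ G.card * A := by
  refine (n2_sum_le _ _).trans ?_
  calc ∑ i ∈ G, n2 (a i) ≤ ∑ _i ∈ G, A := Finset.sum_le_sum fun i _ => hA i
    _ = G.card * A := by rw [Finset.sum_const, nsmul_eq_mul]

theorem n2_sumI_le {a : Fin n → Fin d → ℝ} {A : ℝ} (hA : ∀ i, n2 (a i) ≤ A)
    (I : Idx n d) : n2 (sumI a I) ≤ d * A := by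
  refine (n2_sum_le _ _).trans ?_
  calc ∑ k, n2 (a (I k)) ≤ ∑ _k : Fin d, A := Finset.sum_le_sum fun k _ => hA _
    _ = d * A := by simp

theorem vtx_path {a : Fin n → Fin d → ℝ} {G : Finset (Fin n)} {T L μ A : ℝ} (hT : 0 < T)
    (hG : ∀ x : Fin d → ℝ, n2 x ≤ T * ∑ i ∈ G, |a i ⬝ᵥ x|) (hA : ∀ i, n2 (a i) ≤ A)
    {I B : Idx n d} (hI : Good a I) (hB : Good a B) {X : Fin d → ℝ}
    (hL : T * (n2 X + 1) ≤ L) (hμ : 0 ≤ μ)
    (hw : InCone a B (X + L • sumG a G + μ • sumI a I)) :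
    n2 (vtx a B) ≤ 2 * L * G.card + (n2 X + L * G.card * A) * n2 (vtx a I) := by
  have h1 := vtx_max hB.1 hw (x := vtx a I) hI.2
  rw [obj_eq, obj_eq, dot_sumI_vtx hI.1] at h1
  have h2 := dot_S_le hT hG hB.2
  have h3 := dot_sumI_le I hB.2
  have hL0 : 0 ≤ L := le_trans (by have := n2_nonneg X; positivity) hL
  have h4 : L * (sumG a G ⬝ᵥ vtx a B) ≤ L * (2 * G.card - n2 (vtx a B) / T) :=
    mul_le_mul_of_nonneg_left h2 hL0
  have h5 : μ * (sumI a I ⬝ᵥ vtx a B) ≤ μ * d := mul_le_mul_of_nonneg_left h3 hμ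
  have h6 : (n2 X + 1) * n2 (vtx a B) ≤ L * (n2 (vtx a B) / T) := by
    rw [← mul_div_assoc, le_div_iff₀ hT]
    calc (n2 X + 1) * n2 (vtx a B) * T = (T * (n2 X + 1)) * n2 (vtx a B) := by ring
      _ ≤ L * n2 (vtx a B) := mul_le_mul_of_nonneg_right hL (n2_nonneg _)
  have h7 := abs_le.mp (abs_dot_le X (vtx a I))
  have h8 := abs_le.mp (abs_dot_le (sumG a G) (vtx a I))
  have h9 := dot_le X (vtx a B)
  have h10 : n2 (sumG a G) * n2 (vtx a I) ≤ G.card * A * n2 (vtx a I) :=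
    mul_le_mul_of_nonneg_right (n2_sumG_le hA G) (n2_nonneg _)
  have h11 : -(L * (G.card * A * n2 (vtx a I))) ≤ L * (sumG a G ⬝ᵥ vtx a I) := by
    rw [← mul_neg]
    exact mul_le_mul_of_nonneg_left (by linarith [h8.1]) hL0
  nlinarith

theorem coord_le {a : Fin n → Fin d → ℝ} {B : Idx n d} {w : Fin d → ℝ}
    (hw : InCone a B w) (k : Fin d) : nu a B k ⬝ᵥ w ≤ n2 w * n2 (vtx a B) := by
  refine le_trans ?_ (dot_le w (vtx a B))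
  rw [← sum_coord a B w]
  exact Finset.single_le_sum (f := fun k => nu a B k ⬝ᵥ w) (fun k _ => hw k) (Finset.mem_univ k)

theorem end_cone {a : Fin n → Fin d → ℝ} {G : Finset (Fin n)} {T L M A : ℝ} (hT : 0 ≤ T)
    (hL : 0 ≤ L) (hA : ∀ i, n2 (a i) ≤ A) {I : Idx n d} (hI : (mat a I).det ≠ 0)
    (hν : ∀ k, n2 (nu a I k) ≤ T) {X : Fin d → ℝ}
    (hM : T * (n2 X + L * (G.card * A)) ≤ M) :
    InCone a I (X + L • sumG a G + M • sumI a I) := by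
  intro k
  have h1 : nu a I k ⬝ᵥ sumI a I = 1 := by
    rw [sumI, dotProduct_sum]
    have : ∀ l, nu a I k ⬝ᵥ a (I l) = if l = k then 1 else 0 := by
      intro l
      rw [dotProduct_comm, dot_nu hI]
    rw [Finset.sum_congr rfl fun l _ => this l]
    simp
  rw [dotProduct_add, dotProduct_smul, h1, smul_eq_mul, mul_one]
  have h2 := abs_le.mp (abs_dot_le (nu a I k) (X + L • sumG a G))
  have h3 : n2 (X + L • sumG a G) ≤ n2 X + L * (G.card * A) := by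
    refine (n2_add_le _ _).trans ?_
    rw [n2_smul, abs_of_nonneg hL]
    have := mul_le_mul_of_nonneg_left (n2_sumG_le hA G) hL
    linarith
  have h4 : n2 (nu a I k) * n2 (X + L • sumG a G) ≤ T * (n2 X + L * (G.card * A)) :=
    mul_le_mul (hν k) h3 (n2_nonneg _) hT
  linarith [h2.1]

end Pool.Agent.H.MP_0cad2f_co.helper11.TD
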