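import Pool.Agent.H.MP_0cad2f_co.helper47.Defs

/-!
Dimension one; measurability of the Euclidean norm.
-/

set_option autoImplicit false

namespace Pool.Agent.H.MP_0cad2f_co.helper11.TD

open MeasureTheory ProbabilityTheory Finset Matrix
open scoped NNReal ENNReal
open Pool.Agent.H.MP_0cad2f_co.helper47 (n2 Vert graph)

variable {n d : ℕ}

theorem measurable_n2 : Measurable (n2 : (Fin d → ℝ) → ℝ) := by
  have : Continuous (n2 : (Fin d → ℝ) → ℝ) := by
    unfold n2
    simp only [dotProduct]
    fun_prop
  exact this.measurable

/-- In dimension one all vertices are adjacent. -/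
theorem edist_one (a : Fin n → Fin 1 → ℝ) (u v : Vert a) : (graph a).edist u v ≤ 1 := by
  by_cases huv : u = v
  · rw [huv, SimpleGraph.edist_self]
    exact zero_le_one
  have hadj : (graph a).Adj u v := by
    rw [SimpleGraph.fromRel_adj]
    refine ⟨huv, Or.inl ?_⟩
    have hempty : {i | ∑ j, a i j * u.1 j = 1 ∧ ∑ j, a i j * v.1 j = 1} = (∅ : Set (Fin n)) := by
      ext i
      simp only [Set.mem_ofPred_eq, Set.mem_empty_iff_false, iff_false, not_and]
      intro h1 h2
      simp only [Fin.sum_univ_one] at h1 h2
      have h3 : a i 0 ≠ 0 := by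
        intro h0
        rw [h0, zero_mul] at h1
        exact zero_ne_one h1
      apply huv
      apply Subtype.ext
      funext j
      have hj : j = 0 := Subsingleton.elim _ _
      rw [hj]
      exact mul_left_cancel₀ h3 (h1.trans h2.symm)
    rw [hempty, Set.image_empty, Submodule.span_empty, finrank_bot]
  have h := SimpleGraph.Walk.edist_le hadj.toWalk
  simpa using h

end Pool.Agent.H.MP_0cad2f_co.helper11.TD
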