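import Pool.Agent.H.MP_0cad2f_co.helper11.Core

/-!
The potential: along an edge it changes by at most `2 * ang q`.
-/

set_option autoImplicit false

namespace Pool.Agent.H.MP_0cad2f_co.helper11

open Finset

variable {n d q : ℕ} {a : Fin n → Fin d → ℝ} {β : ℝ}

theorem rank_le_card (a : Fin n → Fin d → ℝ) (S : Finset (Fin n)) :
    Module.finrank ℝ (Submodule.span ℝ (a '' (S : Set (Fin n)))) ≤ S.card := by
  classical
  have h1 : a '' (S : Set (Fin n)) = ((S.image a : Finset (Fin d → ℝ)) : Set (Fin d → ℝ)) := by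
    simp
  rw [h1]
  exact (finrank_span_finset_le_card _).trans card_image_le

theorem vtx_card (u : Vtx a) : d ≤ (tight a u.1).card := by
  have h1 := rank_le_card a (tight a u.1)
  have h2 : ((tight a u.1 : Finset (Fin n)) : Set (Fin n)) =
      {i | ∑ j, a i j * u.1 j = 1} := by
    ext i; simp [mem_tight]
  rw [h2, u.2.2, finrank_top, Module.finrank_fin_fun] at h1
  exact h1

theorem common_card {u v : Vtx a} (h : (edgeGraph a).Adj u v) :
    d - 1 ≤ (tight a u.1 ∩ tight a v.1).card := by
  classical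
  rw [edgeGraph, SimpleGraph.fromRel_adj] at h
  have h1 := rank_le_card a (tight a u.1 ∩ tight a v.1)
  have h2 : ((tight a u.1 ∩ tight a v.1 : Finset (Fin n)) : Set (Fin n)) =
      {i | ∑ j, a i j * u.1 j = 1 ∧ ∑ j, a i j * v.1 j = 1} := by
    ext i; simp [mem_tight]
  have h3 : ((tight a u.1 ∩ tight a v.1 : Finset (Fin n)) : Set (Fin n)) =
      {i | ∑ j, a i j * v.1 j = 1 ∧ ∑ j, a i j * u.1 j = 1} := by
    ext i; simp [mem_tight, and_comm]
  rcases h.2 with h4 | h4
  · rw [h2, h4] at h1; exact h1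
  · rw [h3, h4] at h1; exact h1

/-- The weight of a constraint. -/
noncomputable def wt (d q : ℕ) {n : ℕ} (i : Fin n) : ℝ :=
  if (i : ℕ) < 4 * q * (d / 2) then Real.cos (((i : ℕ) % (4 * q) : ℕ) * ang q) else 0

/-- The potential of a point. -/
noncomputable def pot (q : ℕ) (a : Fin n → Fin d → ℝ) (x : Fin d → ℝ) : ℝ :=
  ∑ i ∈ tight a x, wt d q i

theorem four_q_ang (hq : 1 ≤ q) : ((4 * q : ℕ) : ℝ) * ang q = 2 * Real.pi := by
  have := two_q_ang hq
  push_cast
  linarith

theorem Near.pair_aux (h : Near n d q a β) {x : Fin d → ℝ} (hx : Feas a x) {i i' : Fin n}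
    (hi : i ∈ tight a x) (hi' : i' ∈ tight a x) (hb : blk q i = blk q i')
    (hlt : (i : ℕ) < 4 * q * (d / 2)) (hlt' : (i' : ℕ) < 4 * q * (d / 2))
    (hll : (i : ℕ) % (4 * q) < (i' : ℕ) % (4 * q)) :
    |wt d q i - wt d q i'| ≤ ang q := by
  have hq := h.hq
  have ha := ang_pos hq
  rw [mem_tight] at hi hi'
  unfold wt
  rw [if_pos hlt, if_pos hlt']
  rcases h.adjacent hx hi hi' hlt hb hll with h1 | h1
  · refine (Real.abs_cos_sub_cos_le _ _).trans ?_
    rw [h1]
    push_cast
    rw [show (((i : ℕ) % (4 * q) : ℕ) : ℝ) * ang q -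
      ((((i : ℕ) % (4 * q) : ℕ) : ℝ) + 1) * ang q = - ang q by ring, abs_neg, abs_of_pos ha]
  · have h2 : ((((i' : ℕ) % (4 * q) : ℕ)) : ℝ) * ang q =
        ((((i : ℕ) % (4 * q) : ℕ)) : ℝ) * ang q - ang q + 2 * Real.pi := by
      have h3 : ((((i' : ℕ) % (4 * q) + 1 : ℕ)) : ℝ) * ang q =
          ((((i : ℕ) % (4 * q) + 4 * q : ℕ)) : ℝ) * ang q := by rw [h1]
      rw [Nat.cast_add, Nat.cast_add, add_mul, add_mul, four_q_ang hq, Nat.cast_one, one_mul] at h3
      linarith
    rw [h2, Real.cos_add_two_pi]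
    refine (Real.abs_cos_sub_cos_le _ _).trans ?_
    rw [show (((i : ℕ) % (4 * q) : ℕ) : ℝ) * ang q -
      ((((i : ℕ) % (4 * q) : ℕ) : ℝ) * ang q - ang q) = ang q by ring, abs_of_pos ha]

theorem Near.pair (h : Near n d q a β) {x : Fin d → ℝ} (hx : Feas a x) {i i' : Fin n}
    (hi : i ∈ tight a x) (hi' : i' ∈ tight a x) (hb : blk q i = blk q i')
    (hlt : (i : ℕ) < 4 * q * (d / 2)) (hlt' : (i' : ℕ) < 4 * q * (d / 2)) :
    |wt d q i - wt d q i'| ≤ ang q := by
  have ha := ang_pos h.hq
  rcases lt_trichotomy ((i : ℕ) % (4 * q)) ((i' : ℕ) % (4 * q)) with h1 | h1 | h1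
  · exact h.pair_aux hx hi hi' hb hlt hlt' h1
  · unfold wt
    rw [if_pos hlt, if_pos hlt', h1, sub_self, abs_zero]
    exact ha.le
  · rw [abs_sub_comm]
    exact h.pair_aux hx hi' hi hb.symm hlt' hlt h1

/-- The potential changes by at most `2 * ang q` along an edge. -/
theorem Near.step (h : Near n d q a β) {u v : Vtx a} (huv : (edgeGraph a).Adj u v) :
    |pot q a u.1 - pot q a v.1| ≤ 2 * ang q := by
  classical
  have hq := h.hq
  have hd := h.hd
  have ha := ang_pos hq
  have hu : Feas a u.1 := u.2.1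
  have hv : Feas a v.1 := v.2.1
  obtain ⟨cu, su⟩ := h.saturated hu (vtx_card u)
  obtain ⟨cv, sv⟩ := h.saturated hv (vtx_card v)
  have hc := common_card huv
  set T := tight a u.1 with hT
  set T' := tight a v.1 with hT'
  have e1 : (T \ T').card + (T ∩ T').card = T.card := card_sdiff_add_card_inter T T'
  have e2 : (T' \ T).card + (T' ∩ T).card = T'.card := card_sdiff_add_card_inter T' T
  have e3 : (T' ∩ T).card = (T ∩ T').card := by rw [inter_comm]
  have hsum : pot q a u.1 - pot q a v.1 =
      ∑ i ∈ T \ T', wt d q i - ∑ i ∈ T' \ T, wt d q i := by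
    unfold pot
    rw [← hT, ← hT', ← sum_inter_add_sum_sdiff T T' (wt d q),
      ← sum_inter_add_sum_sdiff T' T (wt d q), inter_comm T' T]
    ring
  rw [hsum]
  by_cases h0 : (T \ T').card = 0
  · have h0' : (T' \ T).card = 0 := by omega
    rw [card_eq_zero] at h0 h0'
    rw [h0, h0']
    simp
    exact ha.le
  · have h1 : (T \ T').card = 1 := by omega
    have h1' : (T' \ T).card = 1 := by omega
    obtain ⟨p, hp⟩ := card_eq_one.mp h1
    obtain ⟨p', hp'⟩ := card_eq_one.mp h1'
    rw [hp, hp', sum_singleton, sum_singleton]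
    have hpT : p ∈ T \ T' := by rw [hp]; simp
    have hpT' : p' ∈ T' \ T := by rw [hp']; simp
    rw [mem_sdiff] at hpT hpT'
    have hall : ∀ i ∈ T, i ≠ p → i ∈ T' := by
      intro i hi hne
      by_contra hcon
      have : i ∈ T \ T' := mem_sdiff.mpr ⟨hi, hcon⟩
      rw [hp, mem_singleton] at this
      exact hne this
    have hall' : ∀ i ∈ T', i ≠ p' → i ∈ T := by
      intro i hi hne
      by_contra hcon
      have : i ∈ T' \ T := mem_sdiff.mpr ⟨hi, hcon⟩
      rw [hp', mem_singleton] at this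
      exact hne this
    have hblk : blk q p = blk q p' := by
      by_contra hne
      have hj := h.blk_mem hu hpT.1
      have c1 := su _ hj
      have c2 := sv _ hj
      have hsub : (T'.filter fun i => blk q i = blk q p) ⊆
          (T.filter fun i => blk q i = blk q p).erase p := by
        intro i hi
        rw [mem_filter] at hi
        rw [mem_erase, mem_filter]
        refine ⟨?_, hall' i hi.1 ?_, hi.2⟩
        · rintro rfl; exact hpT.2 hi.1
        · rintro rfl; exact hne hi.2.symm
      have c3 := card_le_card hsub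
      have hpm : p ∈ T.filter fun i => blk q i = blk q p := by
        rw [mem_filter]; exact ⟨hpT.1, rfl⟩
      rw [card_erase_of_mem hpm, c1, c2] at c3
      have c4 : 0 < (T.filter fun i => blk q i = blk q p).card := card_pos.mpr ⟨p, hpm⟩
      rw [c1] at c4
      omega
    by_cases hj : blk q p < d / 2
    · have hjm : blk q p ∈ range (d / 2 + 1) := by rw [mem_range]; omega
      have c1 := su _ hjm
      rw [cap, if_pos hj] at c1
      have c2 : 1 < (T.filter fun i => blk q i = blk q p).card := by rw [c1]; norm_num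
      obtain ⟨i, hi, hip⟩ := exists_mem_ne c2 p
      rw [mem_filter] at hi
      have hlt : ∀ i : Fin n, blk q i = blk q p → (i : ℕ) < 4 * q * (d / 2) := by
        intro i hi
        rw [← hi, blk, Nat.div_lt_iff_lt_mul (by omega)] at hj
        rwa [mul_comm]
      have t1 := h.pair hu hpT.1 hi.1 hi.2.symm (hlt p rfl) (hlt i hi.2)
      have t2 := h.pair hv (hall i hi.1 hip) hpT'.1 (hi.2.trans hblk) (hlt i hi.2)
        (hlt p' hblk.symm)
      calc |wt d q p - wt d q p'| ≤ |wt d q p - wt d q i| + |wt d q i - wt d q p'| :=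
            abs_sub_le _ _ _
        _ ≤ 2 * ang q := by linarith
    · have z : ∀ i : Fin n, blk q i = blk q p → wt d q i = 0 := by
        intro i hi
        unfold wt
        rw [if_neg]
        intro hlt
        apply hj
        rw [← hi]
        exact Nat.div_lt_of_lt_mul hlt
      rw [z p rfl, z p' hblk.symm, sub_zero, abs_zero]
      linarith

theorem walk_bound {V : Type*} (G : SimpleGraph V) (B : V → ℝ) (K : ℝ)
    (hB : ∀ u v, G.Adj u v → |B u - B v| ≤ K) {u v : V} (p : G.Walk u v) :
    |B u - B v| ≤ p.length * K := by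
  induction p with
  | nil => simp
  | @cons u v w hadj p ih =>
    rw [SimpleGraph.Walk.length_cons]
    push_cast
    refine (abs_sub_le (B u) (B v) (B w)).trans ?_
    linarith [hB _ _ hadj]

end Pool.Agent.H.MP_0cad2f_co.helper11
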