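import Pool.Agent.H.MP_0cad2f_co.helper11.Law
import Pool.Agent.H.MP_0cad2f_co.helper11.Walk

/-!
Almost surely every vertex of the perturbed polytope is simple.
-/

set_option autoImplicit false

namespace Pool.Agent.H.MP_0cad2f_co.helper11

open MeasureTheory ProbabilityTheory Finset
open scoped NNReal ENNReal

variable {n d : ℕ}

/-- The matrix with rows `a (f r)`. -/
def rows (a : Fin n → Fin d → ℝ) (f : Fin d → Fin n) : Matrix (Fin d) (Fin d) ℝ :=
  Matrix.of fun r t => a (f r) t

/-- The vector `adj(A) 1`. -/
noncomputable def adjOne (a : Fin n → Fin d → ℝ) (f : Fin d → Fin n) : Fin d → ℝ :=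
  (rows a f).adjugate.mulVec 1

/-- The degenerate configurations for `f` and `p`. -/
def Zset (f : Fin d → Fin n) (p : Fin n) : Set (Fin n → Fin d → ℝ) :=
  {a | (rows a f).det ≠ 0 ∧ ∑ t, a p t * adjOne a f t = (rows a f).det}

theorem rows_continuous (f : Fin d → Fin n) : Continuous fun a => rows a f := by
  unfold rows
  refine continuous_matrix fun r t => ?_
  exact (continuous_apply t).comp (continuous_apply (f r))

theorem Zset_meas (f : Fin d → Fin n) (p : Fin n) : MeasurableSet (Zset f p) := by
  have h1 : Continuous fun a : Fin n → Fin d → ℝ => (rows a f).det :=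
    (rows_continuous f).matrix_det
  have h2 : Continuous fun a : Fin n → Fin d → ℝ => ∑ t, a p t * adjOne a f t := by
    unfold adjOne
    refine continuous_finsetSum _ fun t _ => ?_
    refine Continuous.mul ((continuous_apply t).comp (continuous_apply p)) ?_
    exact (continuous_apply t).comp
      (((rows_continuous f).matrix_adjugate).matrix_mulVec continuous_const)
  unfold Zset
  refine MeasurableSet.inter ?_ ?_
  · exact (isClosed_singleton.preimage h1).measurableSet.compl
  · exact measurableSet_eq_fun h2.measurable h1.measurable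

theorem rows_update {f : Fin d → Fin n} {p : Fin n} (hp : p ∉ Set.range f)
    (a : Fin n → Fin d → ℝ) (b : Fin d → ℝ) : rows (Function.update a p b) f = rows a f := by
  unfold rows
  ext r t
  simp only [Matrix.of_apply]
  rw [Function.update_of_ne]
  rintro h
  exact hp ⟨r, h⟩

theorem adjOne_ne (hd : 1 ≤ d) {a : Fin n → Fin d → ℝ} {f : Fin d → Fin n}
    (h : (rows a f).det ≠ 0) : adjOne a f ≠ 0 := by
  intro h0
  have h1 : (rows a f).mulVec (adjOne a f) = (rows a f).det • (1 : Fin d → ℝ) := by
    unfold adjOne
    rw [Matrix.mulVec_mulVec, Matrix.mul_adjugate, Matrix.smul_mulVec, Matrix.one_mulVec]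
  rw [h0, Matrix.mulVec_zero] at h1
  have h2 := congrFun h1 ⟨0, by omega⟩
  simp at h2
  exact h h2.symm

theorem Zset_null (hd : 1 ≤ d) (c : Fin n → Fin d → ℝ) {v : ℝ≥0} (hv : v ≠ 0)
    {f : Fin d → Fin n} {p : Fin n} (hp : p ∉ Set.range f) :
    (Measure.pi fun i : Fin n => Measure.pi fun j : Fin d => gaussianReal (c i j) v)
      (Zset f p) = 0 := by
  have hZ := Zset_meas f p
  have hind : Measurable ((Zset f p).indicator (1 : (Fin n → Fin d → ℝ) → ℝ≥0∞)) :=
    measurable_one.indicator hZ
  rw [← lintegral_indicator_one hZ, lintegral_eq_lmarginal_univ (fun _ _ => (0 : ℝ)),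
    lmarginal_erase' _ hind (mem_univ p)]
  have hzero : (fun x : Fin n → Fin d → ℝ => ∫⁻ b, (Zset f p).indicator
      (1 : (Fin n → Fin d → ℝ) → ℝ≥0∞) (Function.update x p b)
        ∂(Measure.pi fun j : Fin d => gaussianReal (c p j) v)) = fun _ => 0 := by
    funext x
    have hpre : MeasurableSet {b : Fin d → ℝ | Function.update x p b ∈ Zset f p} :=
      hZ.preimage (measurable_update x)
    have h1 : (fun b : Fin d → ℝ => (Zset f p).indicator
        (1 : (Fin n → Fin d → ℝ) → ℝ≥0∞) (Function.update x p b)) =
        {b : Fin d → ℝ | Function.update x p b ∈ Zset f p}.indicator 1 := by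
      funext b
      by_cases hb : Function.update x p b ∈ Zset f p
      · rw [Set.indicator_of_mem hb, Set.indicator_of_mem
          (show b ∈ {b : Fin d → ℝ | Function.update x p b ∈ Zset f p} from hb)]
        rfl
      · rw [Set.indicator_of_notMem hb, Set.indicator_of_notMem
          (show b ∉ {b : Fin d → ℝ | Function.update x p b ∈ Zset f p} from hb)]
    rw [h1, lintegral_indicator_one hpre]
    by_cases hdet : (rows x f).det = 0
    · have : {b : Fin d → ℝ | Function.update x p b ∈ Zset f p} = ∅ := by
        ext b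
        simp only [Zset, Set.mem_ofPred_eq, rows_update hp, hdet]
        simp
      rw [this, measure_empty]
    · refine measure_mono_null ?_ (null_hyperplane (c p) (adjOne x f) hv (adjOne_ne hd hdet)
        (rows x f).det)
      intro b hb
      simp only [Zset, Set.mem_ofPred_eq] at hb ⊢
      have h2 : adjOne (Function.update x p b) f = adjOne x f := by
        unfold adjOne; rw [rows_update hp]
      rw [rows_update hp, h2] at hb
      have h3 := hb.2
      simp only [Function.update_self] at h3
      exact h3
  rw [hzero]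
  simp [lmarginal]

/-- A non-simple vertex gives a degenerate configuration. -/
theorem exists_Z {a : Fin n → Fin d → ℝ} (u : Vtx a) (hu : d < (tight a u.1).card) :
    ∃ (f : Fin d → Fin n) (p : Fin n), p ∉ Set.range f ∧ a ∈ Zset f p := by
  classical
  obtain ⟨κ, g, hginj, hgspan, hgli⟩ :=
    exists_linearIndependent' ℝ (fun i : tight a u.1 => a i.1)
  have htop : Submodule.span ℝ (Set.range fun i : tight a u.1 => a i.1) = ⊤ := by
    refine Eq.trans ?_ u.2.2
    congr 1
    ext y
    constructor
    · rintro ⟨i, rfl⟩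
      exact ⟨i.1, mem_tight.mp i.2, rfl⟩
    · rintro ⟨i, hi, rfl⟩
      exact ⟨⟨i, mem_tight.mpr hi⟩, rfl⟩
  rw [htop] at hgspan
  have hfin : Finite κ := Finite.of_injective g hginj
  have := Fintype.ofFinite κ
  let B : Module.Basis κ ℝ (Fin d → ℝ) := Module.Basis.mk hgli (by rw [hgspan])
  have hcard : Fintype.card κ = d := by
    have := Module.finrank_eq_card_basis B
    rw [Module.finrank_fin_fun] at this
    exact this.symm
  let e : Fin d ≃ κ := (Fintype.equivFinOfCardEq hcard).symm
  set f : Fin d → Fin n := fun r => (g (e r)).1 with hf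
  have hfinj : Function.Injective f := fun r s hrs =>
    e.injective (hginj (Subtype.ext hrs))
  have hfT : ∀ r, f r ∈ tight a u.1 := fun r => (g (e r)).2
  have himg : (univ.image f) ⊆ tight a u.1 := by
    intro i hi
    rw [mem_image] at hi
    obtain ⟨r, _, rfl⟩ := hi
    exact hfT r
  have hlt : (univ.image f).card < (tight a u.1).card := by
    rw [card_image_of_injective _ hfinj, card_univ, Fintype.card_fin]
    exact hu
  obtain ⟨p, hpT, hp⟩ := exists_mem_notMem_of_card_lt_card hlt
  have hpr : p ∉ Set.range f := by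
    rintro ⟨r, hr⟩
    exact hp (mem_image.mpr ⟨r, mem_univ r, hr⟩)
  refine ⟨f, p, hpr, ?_⟩
  have hli : LinearIndependent ℝ (fun r => rows a f r) := by
    have := hgli.comp e e.injective
    exact this
  have hdet : (rows a f).det ≠ 0 := by
    have h1 : IsUnit (rows a f) := Matrix.linearIndependent_rows_iff_isUnit.mp hli
    exact ((Matrix.isUnit_iff_isUnit_det _).mp h1).ne_zero
  have hAu : (rows a f).mulVec u.1 = 1 := by
    ext r
    simp only [Matrix.mulVec, dotProduct, rows, Matrix.of_apply, Pi.one_apply]
    exact mem_tight.mp (hfT r)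
  have hw : adjOne a f = (rows a f).det • u.1 := by
    unfold adjOne
    rw [← hAu, Matrix.mulVec_mulVec, Matrix.adjugate_mul, Matrix.smul_mulVec, Matrix.one_mulVec]
  refine ⟨hdet, ?_⟩
  rw [hw]
  have h2 := mem_tight.mp hpT
  simp only [Pi.smul_apply, smul_eq_mul]
  calc ∑ t, a p t * ((rows a f).det * u.1 t) = (rows a f).det * ∑ t, a p t * u.1 t := by
        rw [mul_sum]; exact sum_congr rfl fun t _ => by ring
    _ = (rows a f).det := by rw [h2, mul_one]

theorem ae_simple (hd : 1 ≤ d) (c : Fin n → Fin d → ℝ) {v : ℝ≥0} (hv : v ≠ 0) :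
    ∀ᵐ a ∂(Measure.pi fun i : Fin n => Measure.pi fun j : Fin d => gaussianReal (c i j) v),
      ∀ u : Vtx a, (tight a u.1).card ≤ d := by
  have h1 : ∀ᵐ a ∂(Measure.pi fun i : Fin n => Measure.pi fun j : Fin d =>
      gaussianReal (c i j) v), ∀ (f : Fin d → Fin n) (p : Fin n), p ∉ Set.range f →
        a ∉ Zset f p := by
    rw [ae_all_iff]
    intro f
    rw [ae_all_iff]
    intro p
    by_cases hp : p ∈ Set.range f
    · exact Filter.Eventually.of_forall fun a h => absurd hp h
    · have := Zset_null hd c hv hp
      filter_upwards [measure_eq_zero_iff_ae_notMem.mp this] with a ha _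
      exact ha
  filter_upwards [h1] with a ha u
  by_contra hcon
  rw [not_le] at hcon
  obtain ⟨f, p, hp, hz⟩ := exists_Z u hcon
  exact ha f p hp hz

end Pool.Agent.H.MP_0cad2f_co.helper11
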