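import Mathlib

/-!
Gaussian norm bound: with probability at least one half all `n` independent Gaussian vectors
of variance `v` stay within squared distance `4 v (d + log n)` of their centres.
-/

set_option autoImplicit false

namespace Pool.Agent.H.MP_0cad2f_co.helper11

open MeasureTheory ProbabilityTheory
open scoped NNReal ENNReal

theorem exp_mul_pdf (m x : ℝ) {v : ℝ≥0} (hv : v ≠ 0) :
    gaussianPDFReal m v x * Real.exp ((x - m) ^ 2 / (4 * v)) =
      Real.sqrt 2 * gaussianPDFReal m (2 * v) x := by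
  have hv' : (0 : ℝ) < v := by positivity
  rw [gaussianPDFReal, gaussianPDFReal]
  have h1 : Real.sqrt (2 * Real.pi * ((2 * v : ℝ≥0) : ℝ)) =
      Real.sqrt 2 * Real.sqrt (2 * Real.pi * v) := by
    rw [← Real.sqrt_mul (by norm_num)]
    congr 1
    push_cast
    ring
  rw [h1, mul_assoc, ← Real.exp_add]
  have h2 : -(x - m) ^ 2 / (2 * (v : ℝ)) + (x - m) ^ 2 / (4 * (v : ℝ)) =
      -(x - m) ^ 2 / (2 * ((2 * v : ℝ≥0) : ℝ)) := by
    push_cast
    field_simp
    ring
  rw [h2, mul_inv, ← mul_assoc, ← mul_assoc, mul_inv_cancel₀ (by positivity), one_mul]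

theorem integrable_exp (m : ℝ) {v : ℝ≥0} (hv : v ≠ 0) :
    Integrable (fun x => Real.exp ((x - m) ^ 2 / (4 * v))) (gaussianReal m v) := by
  rw [gaussianReal_of_var_ne_zero _ hv]
  rw [integrable_withDensity_iff_integrable_smul' (measurable_gaussianPDF m v)
    (ae_of_all _ fun _ => gaussianPDF_lt_top)]
  have : (fun x => (gaussianPDF m v x).toReal • Real.exp ((x - m) ^ 2 / (4 * v))) =
      fun x => Real.sqrt 2 * gaussianPDFReal m (2 * v) x := by
    ext x
    rw [toReal_gaussianPDF, smul_eq_mul, exp_mul_pdf m x hv]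
  rw [this]
  exact (integrable_gaussianPDFReal m (2 * v)).const_mul _

theorem integral_exp (m : ℝ) {v : ℝ≥0} (hv : v ≠ 0) :
    ∫ x, Real.exp ((x - m) ^ 2 / (4 * v)) ∂(gaussianReal m v) = Real.sqrt 2 := by
  rw [integral_gaussianReal_eq_integral_smul hv]
  have : (fun x => gaussianPDFReal m v x • Real.exp ((x - m) ^ 2 / (4 * v))) =
      fun x => Real.sqrt 2 * gaussianPDFReal m (2 * v) x := by
    ext x
    rw [smul_eq_mul, exp_mul_pdf m x hv]
  rw [this, integral_const_mul, integral_gaussianPDFReal_eq_one m (by simpa using hv), mul_one]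

theorem norm_tail {d : ℕ} (m : Fin d → ℝ) {v : ℝ≥0} (hv : v ≠ 0) (t : ℝ) :
    (Measure.pi fun j => gaussianReal (m j) v).real
      {x | t ≤ ∑ j, (x j - m j) ^ 2 / (4 * v)} ≤ Real.sqrt 2 ^ d / Real.exp t := by
  set ν := Measure.pi fun j => gaussianReal (m j) v with hν
  have hint : Integrable (fun x : Fin d → ℝ => ∏ j, Real.exp ((x j - m j) ^ 2 / (4 * v))) ν :=
    Integrable.fintype_prod (f := fun j x => Real.exp ((x - m j) ^ 2 / (4 * v)))
      fun j => integrable_exp (m j) hv
  have hval : ∫ x : Fin d → ℝ, ∏ j, Real.exp ((x j - m j) ^ 2 / (4 * v)) ∂ν =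
      Real.sqrt 2 ^ d := by
    rw [hν, integral_fintype_prod_eq_prod
      (f := fun j x => Real.exp ((x - m j) ^ 2 / (4 * v)))]
    simp only [integral_exp _ hv, Finset.prod_const, Finset.card_univ, Fintype.card_fin]
  have hmark := mul_meas_ge_le_integral_of_nonneg
    (μ := ν) (f := fun x : Fin d → ℝ => ∏ j, Real.exp ((x j - m j) ^ 2 / (4 * v)))
    (ae_of_all _ fun x => Finset.prod_nonneg fun j _ => (Real.exp_pos _).le) hint (Real.exp t)
  rw [hval] at hmark
  rw [le_div_iff₀ (Real.exp_pos t), mul_comm]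
  have hset : {x : Fin d → ℝ | t ≤ ∑ j, (x j - m j) ^ 2 / (4 * v)} =
      {x | Real.exp t ≤ ∏ j, Real.exp ((x j - m j) ^ 2 / (4 * v))} := by
    ext x
    simp only [Set.mem_ofPred_eq]
    rw [← Real.exp_sum, Real.exp_le_exp]
  rw [hset]
  exact hmark

theorem event_prob {n d : ℕ} (hn : 1 ≤ n) (hd : 2 ≤ d) (c : Fin n → Fin d → ℝ)
    {v : ℝ≥0} (hv : v ≠ 0) :
    (1 / 2 : ℝ≥0∞) ≤
      (Measure.pi fun i : Fin n => Measure.pi fun j : Fin d => gaussianReal (c i j) v)
        {a | ∀ i, ∑ j, (a i j - c i j) ^ 2 ≤ 4 * v * (d + Real.log n)} := by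
  set μ := Measure.pi fun i : Fin n => Measure.pi fun j : Fin d => gaussianReal (c i j) v
    with hμ
  set E : Set (Fin n → Fin d → ℝ) :=
    {a | ∀ i, ∑ j, (a i j - c i j) ^ 2 ≤ 4 * v * (d + Real.log n)} with hE
  have hv' : (0 : ℝ) < v := by positivity
  have hn' : (0 : ℝ) < n := by exact_mod_cast hn
  have hEm : MeasurableSet E := by
    rw [hE, Set.ofPred_forall]
    refine MeasurableSet.iInter fun i => measurableSet_le ?_ measurable_const
    fun_prop
  have hbad : ∀ i : Fin n, μ {a | 4 * v * (d + Real.log n) < ∑ j, (a i j - c i j) ^ 2} ≤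
      ENNReal.ofReal (1 / (2 * n)) := by
    intro i
    have hmp := measurePreserving_eval
      (fun i : Fin n => Measure.pi fun j : Fin d => gaussianReal (c i j) v) i
    have hms : MeasurableSet {x : Fin d → ℝ | 4 * v * (d + Real.log n) <
        ∑ j, (x j - c i j) ^ 2} := by
      refine measurableSet_lt measurable_const ?_
      fun_prop
    have h1 : μ {a | 4 * v * (d + Real.log n) < ∑ j, (a i j - c i j) ^ 2} =
        (Measure.pi fun j : Fin d => gaussianReal (c i j) v)
          {x | 4 * v * (d + Real.log n) < ∑ j, (x j - c i j) ^ 2} := by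
      rw [← hmp.measure_preimage hms.nullMeasurableSet]
      rfl
    rw [h1]
    have h2 : {x : Fin d → ℝ | 4 * v * (d + Real.log n) < ∑ j, (x j - c i j) ^ 2} ⊆
        {x | (d + Real.log n : ℝ) ≤ ∑ j, (x j - c i j) ^ 2 / (4 * v)} := by
      intro x hx
      simp only [Set.mem_ofPred_eq] at hx ⊢
      rw [← Finset.sum_div, le_div_iff₀ (by positivity)]
      linarith
    refine (measure_mono h2).trans ?_
    have h3 := norm_tail (c i) hv (d + Real.log n)
    rw [measureReal_def] at h3
    rw [← ENNReal.ofReal_toReal (measure_ne_top _ _)]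
    refine ENNReal.ofReal_le_ofReal (h3.trans ?_)
    rw [Real.exp_add, Real.exp_log hn', div_le_div_iff₀ (by positivity) (by positivity)]
    have h4 : Real.sqrt 2 ^ d * 2 ≤ Real.exp d := by
      have h5 : Real.exp (d : ℝ) = Real.exp 1 ^ d := by
        rw [← Real.exp_nat_mul, mul_one]
      rw [h5]
      have h6 : Real.sqrt 2 * (3 / 2) ≤ Real.exp 1 := by
        have h7 : Real.sqrt 2 ≤ 3 / 2 := by
          rw [show (3 / 2 : ℝ) = Real.sqrt ((3 / 2) ^ 2) by
            rw [Real.sqrt_sq (by norm_num)]]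
          exact Real.sqrt_le_sqrt (by norm_num)
        have h8 := Real.exp_one_gt_d9
        nlinarith
      have h9 : (Real.sqrt 2 * (3 / 2)) ^ d ≤ Real.exp 1 ^ d :=
        pow_le_pow_left₀ (by positivity) h6 d
      rw [mul_pow] at h9
      refine le_trans ?_ h9
      refine mul_le_mul_of_nonneg_left ?_ (by positivity)
      calc (2 : ℝ) ≤ (3 / 2) ^ 2 := by norm_num
        _ ≤ (3 / 2) ^ d := pow_le_pow_right₀ (by norm_num) hd
    nlinarith [h4, hn']
  have hcompl : μ Eᶜ ≤ 1 / 2 := by
    have h1 : Eᶜ ⊆ ⋃ i : Fin n, {a | 4 * v * (d + Real.log n) <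
        ∑ j, (a i j - c i j) ^ 2} := by
      intro a ha
      simp only [hE, Set.mem_compl_iff, Set.mem_ofPred_eq, not_forall, not_le] at ha
      simpa using ha
    refine (measure_mono h1).trans ((measure_iUnion_fintype_le μ _).trans ?_)
    refine (Finset.sum_le_sum fun i _ => hbad i).trans ?_
    rw [Finset.sum_const, Finset.card_univ, Fintype.card_fin, nsmul_eq_mul,
      ← ENNReal.ofReal_natCast, ← ENNReal.ofReal_mul (by positivity)]
    have : (n : ℝ) * (1 / (2 * n)) = 1 / 2 := by field_simp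
    rw [this, ENNReal.ofReal_div_of_pos (by norm_num)]
    simp
  have hprob : IsProbabilityMeasure μ := by rw [hμ]; infer_instance
  have h2 : μ E + μ Eᶜ = 1 := prob_add_prob_compl hEm
  by_contra hlt
  rw [not_le] at hlt
  have h3 : μ E + μ Eᶜ < 1 / 2 + 1 / 2 :=
    ENNReal.add_lt_add_of_lt_of_le (measure_ne_top _ _) hlt hcompl
  rw [h2, ENNReal.add_halves] at h3
  exact lt_irrefl _ h3

end Pool.Agent.H.MP_0cad2f_co.helper11
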