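import Pool.Agent.H.MP_0cad2f_co.helper47.Defs
import Pool.Agent.H.MP_0cad2f_co.helper11.Simple
import Pool.Agent.H.MP_0cad2f_co.helper11.Tail

/-!
Gaussian tools for the typical distance theorem: density, translation, tail, resampling of one
constraint, almost sure simplicity.
-/

set_option autoImplicit false

namespace Pool.Agent.H.MP_0cad2f_co.helper11.TD

open MeasureTheory ProbabilityTheory Finset Matrix
open scoped NNReal ENNReal
open Pool.Agent.H.MP_0cad2f_co.helper47 (gau noise n2 Idx mat nu vtx Good n2_sq n2_nonneg dot_le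
  dot_self_nonneg sum_coord dot_vtx)

variable {n d : ℕ}

/-- Product functions integrate to products. -/
theorem lint_prod {m : ℕ} (μ : Fin m → Measure ℝ) [∀ i, SigmaFinite (μ i)]
    (f : Fin m → ℝ → ℝ≥0∞) (hf : ∀ i, Measurable (f i)) :
    ∫⁻ x : Fin m → ℝ, ∏ i, f i (x i) ∂(Measure.pi μ) = ∏ i, ∫⁻ x, f i x ∂(μ i) := by
  induction m with
  | zero => simp
  | succ m ih =>
    have hmp := (measurePreserving_piFinSuccAbove μ 0).symm
    rw [← hmp.lintegral_comp_emb (MeasurableEquiv.measurableEmbedding _)]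
    have h1 : ∀ z : ℝ × (Fin m → ℝ),
        ∏ i, f i ((MeasurableEquiv.piFinSuccAbove (fun _ : Fin (m + 1) => ℝ) 0).symm z i) =
          f 0 z.1 * ∏ i : Fin m, f i.succ (z.2 i) := by
      intro z
      rw [Fin.prod_univ_succ]
      simp [MeasurableEquiv.piFinSuccAbove_symm_apply, Fin.insertNthEquiv]
    simp_rw [h1]
    have h2 : Measurable fun y : Fin m → ℝ => ∏ i : Fin m, f i.succ (y i) :=
      Finset.measurable_fun_prod _ fun i _ => (hf i.succ).comp (measurable_pi_apply i)
    rw [lintegral_prod_mul (f := f 0) (g := fun y : Fin m → ℝ => ∏ i : Fin m, f i.succ (y i))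
      (hf 0).aemeasurable h2.aemeasurable, Fin.prod_univ_succ]
    congr 1
    exact ih (fun i => μ i.succ) (fun i => f i.succ) fun i => hf i.succ

/-- The Gaussian law has a product density. -/
theorem gau_density (c : Fin d → ℝ) {v : ℝ≥0} (hv : v ≠ 0) :
    (Measure.pi fun j : Fin d => gaussianReal (c j) v) =
      (volume : Measure (Fin d → ℝ)).withDensity fun x => ∏ j, gaussianPDF (c j) v (x j) := by
  symm
  have hmeas : ∀ j : Fin d, Measurable (gaussianPDF (c j) v) := fun j =>
    measurable_gaussianPDF _ _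
  refine (Measure.pi_eq fun s hs => ?_).symm
  rw [withDensity_apply _ (MeasurableSet.univ_pi hs),
    ← lintegral_indicator (MeasurableSet.univ_pi hs)]
  have h1 : ∀ x : Fin d → ℝ, (Set.pi Set.univ s).indicator
      (fun x => ∏ j, gaussianPDF (c j) v (x j)) x =
      ∏ j, (s j).indicator (gaussianPDF (c j) v) (x j) := by
    intro x
    by_cases hx : x ∈ Set.pi Set.univ s
    · rw [Set.indicator_of_mem hx]
      refine prod_congr rfl fun j _ => ?_
      rw [Set.indicator_of_mem (hx j (Set.mem_univ j))]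
    · rw [Set.indicator_of_notMem hx]
      rw [Set.mem_univ_pi, not_forall] at hx
      obtain ⟨j, hj⟩ := hx
      symm
      exact prod_eq_zero (mem_univ j) (Set.indicator_of_notMem hj _)
  simp_rw [h1]
  rw [volume_pi, lint_prod _ _ fun j => (hmeas j).indicator (hs j)]
  refine prod_congr rfl fun j _ => ?_
  rw [lintegral_indicator (hs j), gaussianReal_of_var_ne_zero _ hv, withDensity_apply _ (hs j)]

/-- Comparison of the densities at two points. -/
theorem pdf_shift (c z x : Fin d → ℝ) {v : ℝ≥0} (hv : v ≠ 0) :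
    ∏ j, gaussianPDF (c j) v (x j) =
      ENNReal.ofReal (Real.exp ((2 * ((x - c) ⬝ᵥ z) + z ⬝ᵥ z) / (2 * v))) *
        ∏ j, gaussianPDF (c j) v ((x + z) j) := by
  have hv' : (0 : ℝ) < v := by positivity
  simp only [gaussianPDF]
  rw [← ENNReal.ofReal_prod_of_nonneg fun j _ => gaussianPDFReal_nonneg _ _ _,
    ← ENNReal.ofReal_prod_of_nonneg fun j _ => gaussianPDFReal_nonneg _ _ _,
    ← ENNReal.ofReal_mul (Real.exp_pos _).le]
  congr 1
  have h1 : Real.exp ((2 * ((x - c) ⬝ᵥ z) + z ⬝ᵥ z) / (2 * v)) =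
      ∏ j, Real.exp ((2 * ((x j - c j) * z j) + z j * z j) / (2 * v)) := by
    rw [← Real.exp_sum]
    congr 1
    rw [← Finset.sum_div]
    congr 1
    rw [dotProduct, dotProduct, Finset.mul_sum, ← Finset.sum_add_distrib]
    exact Finset.sum_congr rfl fun j _ => by simp [Pi.sub_apply]
  rw [h1, ← Finset.prod_mul_distrib]
  refine Finset.prod_congr rfl fun j _ => ?_
  rw [gaussianPDFReal, gaussianPDFReal, Pi.add_apply, mul_left_comm, ← Real.exp_add]
  congr 2
  field_simp
  ring

theorem gau_shift (c z : Fin d → ℝ) {σ Rg : ℝ} (hσ : 0 < σ) (hR : 0 ≤ Rg)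
    {H : (Fin d → ℝ) → ℝ≥0∞} (hH : Measurable H) :
    ∫⁻ x in {x | n2 (x - c) ≤ Rg}, H (x + z) ∂(gau c σ) ≤
      ENNReal.ofReal (Real.exp ((2 * Rg * n2 z + n2 z ^ 2) / (2 * σ ^ 2))) *
        ∫⁻ x, H x ∂(gau c σ) := by
  set v : ℝ≥0 := Real.toNNReal (σ ^ 2) with hv
  have hv' : (v : ℝ) = σ ^ 2 := by rw [hv, Real.coe_toNNReal _ (by positivity)]
  have hv0 : v ≠ 0 := by
    intro h
    have h2 : (v : ℝ) = 0 := by rw [h]; rfl
    rw [hv'] at h2
    have : 0 < σ ^ 2 := by positivity
    linarith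
  have hpm : Measurable fun x : Fin d → ℝ => ∏ j, gaussianPDF (c j) v (x j) :=
    Finset.measurable_fun_prod _ fun j _ => (measurable_gaussianPDF _ _).comp
      (measurable_pi_apply j)
  have hn2m : Measurable fun x : Fin d → ℝ => n2 (x - c) := by
    have : Continuous fun x : Fin d → ℝ => n2 (x - c) := by
      unfold n2
      simp only [dotProduct]
      fun_prop
    exact this.measurable
  have hsm : MeasurableSet {x : Fin d → ℝ | n2 (x - c) ≤ Rg} :=
    measurableSet_le hn2m measurable_const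
  have hgau : gau c σ = (volume : Measure (Fin d → ℝ)).withDensity
      fun x => ∏ j, gaussianPDF (c j) v (x j) := gau_density c hv0
  have hHz : Measurable fun x : Fin d → ℝ => H (x + z) :=
    hH.comp (measurable_id.add_const z)
  rw [hgau, restrict_withDensity hsm, lintegral_withDensity_eq_lintegral_mul _ hpm hHz,
    lintegral_withDensity_eq_lintegral_mul _ hpm hH]
  set C := ENNReal.ofReal (Real.exp ((2 * Rg * n2 z + n2 z ^ 2) / (2 * σ ^ 2))) with hC
  have h1 : ∫⁻ x in {x : Fin d → ℝ | n2 (x - c) ≤ Rg},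
      ((fun x : Fin d → ℝ => ∏ j, gaussianPDF (c j) v (x j)) * fun x => H (x + z)) x ≤
      ∫⁻ x : Fin d → ℝ, C * ((∏ j, gaussianPDF (c j) v ((x + z) j)) * H (x + z)) := by
    refine (setLIntegral_mono' hsm fun x hx => ?_).trans (setLIntegral_le_lintegral _ _)
    rw [Pi.mul_apply, ← mul_assoc]
    refine mul_le_mul_left ?_ _
    rw [pdf_shift c z x hv0, hv']
    refine mul_le_mul_left (ENNReal.ofReal_le_ofReal (Real.exp_le_exp.mpr ?_)) _
    refine div_le_div_of_nonneg_right ?_ (by positivity)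
    have h2 := dot_le (x - c) z
    have h3 : n2 (x - c) * n2 z ≤ Rg * n2 z := mul_le_mul_of_nonneg_right hx (n2_nonneg z)
    rw [n2_sq]
    linarith
  refine h1.trans ?_
  rw [lintegral_const_mul' _ _ ENNReal.ofReal_ne_top]
  refine mul_le_mul_right ?_ _
  rw [lintegral_add_right_eq_self (μ := (volume : Measure (Fin d → ℝ)))
    (fun x => (∏ j, gaussianPDF (c j) v (x j)) * H x) z]
  exact le_rfl

theorem gau_tail (c : Fin d → ℝ) {σ Rg : ℝ} (hσ : 0 < σ) (hR : 0 ≤ Rg) :
    gau c σ {x | Rg < n2 (x - c)} ≤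
      ENNReal.ofReal (Real.sqrt 2 ^ d * Real.exp (-(Rg ^ 2 / (4 * σ ^ 2)))) := by
  set v : ℝ≥0 := Real.toNNReal (σ ^ 2) with hv
  have hv' : (v : ℝ) = σ ^ 2 := by rw [hv, Real.coe_toNNReal _ (by positivity)]
  have hv0 : v ≠ 0 := by
    intro h
    have h2 : (v : ℝ) = 0 := by rw [h]; rfl
    rw [hv'] at h2
    have : 0 < σ ^ 2 := by positivity
    linarith
  have h1 := norm_tail c hv0 (Rg ^ 2 / (4 * σ ^ 2))
  have h2 : {x : Fin d → ℝ | Rg < n2 (x - c)} ⊆
      {x | Rg ^ 2 / (4 * σ ^ 2) ≤ ∑ j, (x j - c j) ^ 2 / (4 * v)} := by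
    intro x hx
    simp only [Set.mem_ofPred_eq] at hx ⊢
    rw [← Finset.sum_div, hv']
    refine div_le_div_of_nonneg_right ?_ (by positivity)
    have h3 : ∑ j, (x j - c j) ^ 2 = n2 (x - c) ^ 2 := by
      rw [n2_sq, dotProduct]
      exact Finset.sum_congr rfl fun j _ => by rw [Pi.sub_apply]; ring
    rw [h3]
    exact pow_le_pow_left₀ hR hx.le 2
  refine (measure_mono h2).trans ?_
  rw [measureReal_def] at h1
  rw [show gau c σ = Measure.pi fun j => gaussianReal (c j) v from rfl,
    ← ENNReal.ofReal_toReal (measure_ne_top _ _)]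
  refine ENNReal.ofReal_le_ofReal (h1.trans (le_of_eq ?_))
  rw [Real.exp_neg, div_eq_mul_inv]

theorem noise_update (c : Fin n → Fin d → ℝ) (σ : ℝ) (f : Fin n)
    {F : (Fin n → Fin d → ℝ) → ℝ≥0∞} (hF : Measurable F) :
    ∫⁻ a, F a ∂(noise c σ) =
      ∫⁻ a, ∫⁻ x, F (Function.update a f x) ∂(gau (c f) σ) ∂(noise c σ) := by
  have hG : Measurable (∫⋯∫⁻_{f}, F ∂(fun i : Fin n => gau (c i) σ)) := hF.lmarginal _
  have h0 : (fun a : Fin n → Fin d → ℝ => ∫⁻ x, F (Function.update a f x) ∂(gau (c f) σ)) =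
      ∫⋯∫⁻_{f}, F ∂(fun i : Fin n => gau (c i) σ) := by
    rw [lmarginal_singleton]
  have h1 : ∫⁻ a, F a ∂(noise c σ) =
      (∫⋯∫⁻_Finset.univ, F ∂(fun i : Fin n => gau (c i) σ)) 0 := by
    rw [lmarginal_univ]
  have h2 : ∫⁻ a, ∫⁻ x, F (Function.update a f x) ∂(gau (c f) σ) ∂(noise c σ) =
      (∫⋯∫⁻_Finset.univ, (∫⋯∫⁻_{f}, F ∂(fun i : Fin n => gau (c i) σ))
        ∂(fun i : Fin n => gau (c i) σ)) 0 := by
    rw [lmarginal_univ, ← h0]
  rw [h1, h2, lmarginal_erase' _ hF (mem_univ f), lmarginal_erase' _ hG (mem_univ f)]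
  congr 2
  funext a
  rw [lmarginal_singleton]
  simp only [Function.update_idem]
  rw [lintegral_const, measure_univ, mul_one]

theorem vtx_eq_adj {a : Fin n → Fin d → ℝ} {B : Idx n d} (h : (mat a B).det ≠ 0) :
    adjOne a B = (mat a B).det • vtx a B := by
  have h1 : rows a B = mat a B := rfl
  have h2 : (mat a B).mulVec (vtx a B) = 1 := by
    funext k
    exact dot_vtx h k
  unfold adjOne
  rw [h1, ← h2, Matrix.mulVec_mulVec, Matrix.adjugate_mul, Matrix.smul_mulVec, Matrix.one_mulVec]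

theorem ae_simple (c : Fin n → Fin d → ℝ) {σ : ℝ} (hσ : 0 < σ) :
    ∀ᵐ a ∂(noise c σ), helper47.Simple a := by
  rcases Nat.eq_zero_or_pos d with hd | hd
  · subst hd
    refine Filter.Eventually.of_forall fun a B _ i _ h => ?_
    simp [dotProduct] at h
  set v : ℝ≥0 := Real.toNNReal (σ ^ 2) with hv
  have hv' : (v : ℝ) = σ ^ 2 := by rw [hv, Real.coe_toNNReal _ (by positivity)]
  have hv0 : v ≠ 0 := by
    intro h
    have h2 : (v : ℝ) = 0 := by rw [h]; rfl
    rw [hv'] at h2
    have : 0 < σ ^ 2 := by positivity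
    linarith
  have h1 : ∀ᵐ a ∂(noise c σ), ∀ (B : Idx n d) (i : Fin n), i ∉ Set.range B →
      a ∉ Zset (B : Fin d → Fin n) i := by
    rw [ae_all_iff]
    intro B
    rw [ae_all_iff]
    intro i
    by_cases hi : i ∈ Set.range B
    · exact Filter.Eventually.of_forall fun a h => absurd hi h
    · have h2 : noise c σ (Zset (B : Fin d → Fin n) i) = 0 := Zset_null hd c hv0 hi
      filter_upwards [measure_eq_zero_iff_ae_notMem.mp h2] with a ha _
      exact ha
  filter_upwards [h1] with a ha B hB i hi hcon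
  refine ha B i hi ⟨hB.1, ?_⟩
  rw [vtx_eq_adj hB.1]
  have h3 : ∑ t, a i t * ((mat a B).det • vtx a B) t = (mat a B).det * (a i ⬝ᵥ vtx a B) := by
    rw [dotProduct, Finset.mul_sum]
    exact Finset.sum_congr rfl fun t _ => by rw [Pi.smul_apply, smul_eq_mul]; ring
  rw [h3, hcon, mul_one]
  rfl

theorem measurable_det (B : Idx n d) :
    Measurable fun a : Fin n → Fin d → ℝ => (mat a B).det := by
  have h1 : Continuous fun a : Fin n → Fin d → ℝ => (rows a B).det :=
    (rows_continuous B).matrix_det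
  exact h1.measurable

theorem nu_eq (a : Fin n → Fin d → ℝ) (B : Idx n d) (k j : Fin d) :
    nu a B k j = ((mat a B).det)⁻¹ * (mat a B).adjugate j k := by
  rw [nu, Matrix.inv_def, Matrix.smul_apply, smul_eq_mul, Ring.inverse_eq_inv']

theorem measurable_nu (B : Idx n d) (k : Fin d) :
    Measurable fun a : Fin n → Fin d → ℝ => nu a B k := by
  refine measurable_pi_lambda _ fun j => ?_
  simp_rw [nu_eq]
  refine (measurable_det B).inv.mul ?_
  have h1 : Continuous fun a : Fin n → Fin d → ℝ => (rows a B).adjugate j k :=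
    (continuous_apply k).comp ((continuous_apply j).comp (rows_continuous B).matrix_adjugate)
  exact h1.measurable

theorem measurable_vtx (B : Idx n d) :
    Measurable fun a : Fin n → Fin d → ℝ => vtx a B := by
  unfold vtx
  exact Finset.measurable_fun_sum _ fun k _ => measurable_nu B k

theorem measurableSet_good (B : Idx n d) :
    MeasurableSet {a : Fin n → Fin d → ℝ | Good a B} := by
  have h1 : MeasurableSet {a : Fin n → Fin d → ℝ | (mat a B).det ≠ 0} :=
    (measurable_det B (measurableSet_singleton 0)).compl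
  have h2 : MeasurableSet {a : Fin n → Fin d → ℝ | ∀ i, a i ⬝ᵥ vtx a B ≤ 1} := by
    rw [Set.ofPred_forall]
    refine MeasurableSet.iInter fun i => measurableSet_le ?_ measurable_const
    simp only [dotProduct]
    refine Finset.measurable_fun_sum _ fun j _ => ?_
    refine Measurable.mul ?_ ?_
    · exact (measurable_pi_apply j).comp (measurable_pi_apply i)
    · exact (measurable_pi_apply j).comp (measurable_vtx B)
  exact h1.inter h2

end Pool.Agent.H.MP_0cad2f_co.helper11.TD
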