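import Pool.Agent.H.MP_0cad2f_co.helper47.Obj
import Pool.Agent.H.MP_0cad2f_co.helper40.Wedge
import Pool.Agent.H.MP_0cad2f_co.helper96.Meas2
import Pool.Agent.H.MP_0cad2f_co.helper52.Cone
import Pool.Agent.H.MP_0cad2f_co.helper11.Gauss2
import Pool.Agent.H.MP_0cad2f_co.helper11.Obj
import Pool.Agent.H.MP_0cad2f_co.helper11.One

/-!
Moving a fresh constraint: the dual vector of a constraint of `B` outside `I`, weighted with
the volume of the normal cone, is bounded on average.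
-/

set_option autoImplicit false

namespace Pool.Agent.H.MP_0cad2f_co.helper11.TD

open MeasureTheory ProbabilityTheory Finset Matrix
open scoped NNReal ENNReal
open Pool.Agent.H.MP_0cad2f_co.helper47 (gau noise n2 Idx mat nu vtx Good InCone n2_sq n2_nonneg
  dot_le abs_dot_le dot_self_nonneg sum_coord dot_vtx dot_nu sum_smul_nu n2_sum_le n2_smul
  n2_add_le n2_le norm_le_n2 sum_nu_smul Spans aG cI obj coneVol cubeVol Reg dot_nu_self)
open Pool.Agent.H.MP_0cad2f_co.helper40 (wedge)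
open Pool.Agent.H.MP_0cad2f_co.helper96 (measurable_coneVol measurableSet_reg)
open Pool.Agent.H.MP_0cad2f_co.helper52 (cone_volume)

variable {n d : ℕ}

theorem mat_update {a : Fin n → Fin d → ℝ} {I : Idx n d} {f : Fin n} (hf : f ∉ Set.range I)
    (x : Fin d → ℝ) : mat (Function.update a f x) I = mat a I := by
  funext k j
  simp only [mat]
  rw [Function.update_of_ne]
  rintro rfl
  exact hf ⟨k, rfl⟩

theorem nu_update {a : Fin n → Fin d → ℝ} {I : Idx n d} {f : Fin n} (hf : f ∉ Set.range I)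
    (x : Fin d → ℝ) (k : Fin d) : nu (Function.update a f x) I k = nu a I k := by
  funext j
  simp only [nu]
  rw [mat_update hf]

theorem vtx_update {a : Fin n → Fin d → ℝ} {I : Idx n d} {f : Fin n} (hf : f ∉ Set.range I)
    (x : Fin d → ℝ) : vtx (Function.update a f x) I = vtx a I := by
  simp only [vtx]
  exact Finset.sum_congr rfl fun k _ => nu_update hf x k

theorem cI_update {a : Fin n → Fin d → ℝ} {I : Idx n d} {f : Fin n} (hf : f ∉ Set.range I)
    (x : Fin d → ℝ) : cI (Function.update a f x) I = cI a I := by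
  simp only [cI]
  refine Finset.sum_congr rfl fun k _ => ?_
  rw [Function.update_of_ne]
  rintro rfl
  exact hf ⟨k, rfl⟩

open Classical in
theorem aG_update (a : Fin n → Fin d → ℝ) (G : Finset (Fin n)) (f : Fin n)
    (x z : Fin d → ℝ) : aG (Function.update a f (x + z)) G =
      aG (Function.update a f x) G + if f ∈ G then z else 0 := by
  simp only [aG]
  split_ifs with h
  · rw [← Finset.add_sum_erase _ _ h, ← Finset.add_sum_erase _ _ h, Function.update_self,
      Function.update_self]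
    have h1 : ∑ i ∈ G.erase f, Function.update a f (x + z) i =
        ∑ i ∈ G.erase f, Function.update a f x i := by
      refine Finset.sum_congr rfl fun i hi => ?_
      rw [Function.update_of_ne (Finset.ne_of_mem_erase hi),
        Function.update_of_ne (Finset.ne_of_mem_erase hi)]
    rw [h1]
    abel
  · rw [add_zero]
    refine Finset.sum_congr rfl fun i hi => ?_
    have hif : i ≠ f := by
      rintro rfl
      exact h hi
    rw [Function.update_of_ne hif, Function.update_of_ne hif]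

open Classical in
theorem obj_update {a : Fin n → Fin d → ℝ} (G : Finset (Fin n)) {I : Idx n d} {f : Fin n}
    (hf : f ∉ Set.range I) (x z : Fin d → ℝ) (L μ : ℝ) :
    obj (Function.update a f (x + z)) G I L μ =
      obj (Function.update a f x) G I L μ + L • (if f ∈ G then z else 0) := by
  simp only [obj]
  rw [aG_update, cI_update hf, cI_update hf, smul_add]
  abel

/-- Translating a cube in a cone. -/
theorem coneVol_shift (a : Fin n → Fin d → ℝ) (B : Idx n d) (p y : Fin d → ℝ) {R : ℝ}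
    (hy : ‖y‖ ≤ 1) : coneVol a B p R ≤ coneVol a B (p + y) (R + 1) := by
  unfold coneVol
  have h1 : {X : Fin d → ℝ | ‖X‖ ≤ R ∧ InCone a B (X + p)} ⊆
      (fun X => X + (-y)) ⁻¹' {X : Fin d → ℝ | ‖X‖ ≤ R + 1 ∧ InCone a B (X + (p + y))} := by
    rintro X ⟨h1, h2⟩
    refine ⟨?_, ?_⟩
    · have := norm_add_le X (-y)
      rw [norm_neg] at this
      linarith
    · have h3 : X + -y + (p + y) = X + p := by abel
      rw [h3]
      exact h2
  refine (measure_mono h1).trans (le_of_eq ?_)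
  exact measure_preimage_add_right volume (-y) _

theorem coneVol_mono (a : Fin n → Fin d → ℝ) (B : Idx n d) (p : Fin d → ℝ) {R R' : ℝ}
    (h : R ≤ R') : coneVol a B p R ≤ coneVol a B p R' :=
  measure_mono fun _ hX => ⟨hX.1.trans h, hX.2⟩

theorem n2_obj_le' {a : Fin n → Fin d → ℝ} {G : Finset (Fin n)} {I : Idx n d}
    {A L R M μ : ℝ} (hL : 0 ≤ L) (ha : ∀ i, n2 (a i) ≤ A) (hμ : 0 ≤ μ)
    (hμM : μ ≤ M) {X : Fin d → ℝ} (hX : ‖X‖ ≤ R) :
    n2 (X + obj a G I L μ) ≤ d * R + L * G.card * A + M * d * A := by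
  have h1 : n2 X ≤ d * R := (n2_le X).trans (mul_le_mul_of_nonneg_left hX (Nat.cast_nonneg d))
  have h2 : n2 (L • aG a G) ≤ L * G.card * A := by
    rw [n2_smul, abs_of_nonneg hL, mul_assoc]
    exact mul_le_mul_of_nonneg_left (n2_sumG_le ha G) hL
  have h3 : n2 (μ • cI a I) ≤ M * d * A := by
    rw [n2_smul, abs_of_nonneg hμ, mul_assoc]
    exact mul_le_mul hμM (n2_sumI_le ha I) (n2_nonneg _) (hμ.trans hμM)
  have h4 := n2_add_le X (obj a G I L μ)
  have h5 := n2_add_le (L • aG a G) (μ • cI a I)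
  have h6 : obj a G I L μ = L • aG a G + μ • cI a I := rfl
  rw [h6] at h4 ⊢
  linarith

/-- The pointwise estimate, for a small distance from the span. -/
theorem fresh_core {a : Fin n → Fin d → ℝ} {G : Finset (Fin n)} {I B : Idx n d} {k₀ : Fin d}
    (hf : B k₀ ∉ Set.range I) {A L R μ ρ s₀ K : ℝ} {u v x : Fin d → ℝ}
    (hAρ : 0 ≤ 1 + A * ρ) (hL : 0 ≤ L) (hs : 0 < s₀)
    (h2 : 2 * s₀ * (1 + A * ρ) * L ≤ 1)
    (h3 : 2 * s₀ * (1 + A * ρ) * (K * ρ) ≤ 1)
    (hu : n2 u = 1) (hv : n2 v ≤ 1 + A * ρ) (huv : u ⬝ᵥ v = 1)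
    (hB : Good (Function.update a (B k₀) x) B)
    (hvtx : n2 (vtx (Function.update a (B k₀) x) B) ≤ ρ)
    (hK : ∀ X : Fin d → ℝ, ‖X‖ ≤ R →
      n2 (X + obj (Function.update a (B k₀) x) G I L μ) ≤ K)
    (hux : u ⬝ᵥ x ≠ 0) (hnu : nu (Function.update a (B k₀) x) B k₀ = (u ⬝ᵥ x)⁻¹ • u)
    (hsx : |u ⬝ᵥ x| ≤ s₀)
    (hB' : Good (Function.update a (B k₀) (x + (2 * s₀) • v)) B) :
    ENNReal.ofReal (n2 (nu (Function.update a (B k₀) x) B k₀)) *
        coneVol (Function.update a (B k₀) x) B (obj (Function.update a (B k₀) x) G I L μ) R ≤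
      ENNReal.ofReal (1 / s₀) *
        coneVol (Function.update a (B k₀) (x + (2 * s₀) • v)) B
          (obj (Function.update a (B k₀) (x + (2 * s₀) • v)) G I L μ) (R + 2) := by
  classical
  set f := B k₀ with hfdef
  set a' := Function.update a f x with ha'
  set z : Fin d → ℝ := (2 * s₀) • v with hz
  set p := obj a' G I L μ with hp
  have hzn : n2 z ≤ 2 * s₀ * (1 + A * ρ) := by
    rw [hz, n2_smul, abs_of_pos (by positivity)]
    exact mul_le_mul_of_nonneg_left hv (by positivity)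
  have hzn0 : ‖z‖ ≤ 2 * s₀ * (1 + A * ρ) := (norm_le_n2 z).trans hzn
  have ha'f : a' f = x := by rw [ha', Function.update_self]
  have hupd : Function.update a' f (a' f + z) = Function.update a f (x + z) := by
    rw [ha'f, ha', Function.update_idem]
  have hcv := cone_volume (a := a') (B := B) k₀ z hB.1 (by
      show (mat (Function.update a' f (a' f + z)) B).det ≠ 0
      rw [hupd]
      exact hB'.1) (p := p) (R := R) (by
    intro X hX hc
    have h5 : nu a' B k₀ ⬝ᵥ (X + p) ≤ K * ρ := by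
      refine (coord_le hc k₀).trans ?_
      exact mul_le_mul (hK X hX) hvtx (n2_nonneg _) ((n2_nonneg _).trans (hK X hX))
    have h6 : 0 ≤ nu a' B k₀ ⬝ᵥ (X + p) := hc k₀
    calc (nu a' B k₀ ⬝ᵥ (X + p)) * ‖z‖ ≤ (K * ρ) * (2 * s₀ * (1 + A * ρ)) :=
          mul_le_mul h5 hzn0 (norm_nonneg _) (h6.trans h5)
      _ = 2 * s₀ * (1 + A * ρ) * (K * ρ) := by ring
      _ ≤ 1 := h3)
  have hcv' : ENNReal.ofReal |nu a' B k₀ ⬝ᵥ (x + z)| * coneVol a' B p R ≤
      coneVol (Function.update a f (x + z)) B p (R + 1) := by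
    have h7 : Function.update a' (B k₀) (a' (B k₀) + z) = Function.update a f (x + z) := hupd
    rw [h7] at hcv
    have h8 : a' (B k₀) = x := ha'f
    rw [h8] at hcv
    exact hcv
  -- the translation of the objective
  have hshift : coneVol (Function.update a f (x + z)) B p (R + 1) ≤
      coneVol (Function.update a f (x + z)) B (obj (Function.update a f (x + z)) G I L μ)
        (R + 2) := by
    rw [obj_update G hf x z L μ, ← ha', ← hp]
    have h9 : ‖L • (if f ∈ G then z else 0)‖ ≤ 1 := by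
      rw [norm_smul, Real.norm_eq_abs, abs_of_nonneg hL]
      have h10 : ‖(if f ∈ G then z else 0)‖ ≤ 2 * s₀ * (1 + A * ρ) := by
        split_ifs
        · exact hzn0
        · rw [norm_zero]
          positivity
      calc L * ‖(if f ∈ G then z else 0)‖ ≤ L * (2 * s₀ * (1 + A * ρ)) :=
            mul_le_mul_of_nonneg_left h10 hL
        _ = 2 * s₀ * (1 + A * ρ) * L := by ring
        _ ≤ 1 := h2
    refine (coneVol_shift _ B p _ h9).trans (le_of_eq ?_)
    congr 1
    ring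
  -- the factor
  have hdot : nu a' B k₀ ⬝ᵥ (x + z) = (u ⬝ᵥ x + 2 * s₀) / (u ⬝ᵥ x) := by
    rw [hnu, smul_dotProduct, smul_eq_mul, dotProduct_add, hz, dotProduct_smul, huv,
      smul_eq_mul, mul_one]
    field_simp
  have hn2nu : n2 (nu a' B k₀) = 1 / |u ⬝ᵥ x| := by
    rw [hnu, n2_smul, hu, mul_one, abs_inv, one_div]
  have hfac : n2 (nu a' B k₀) ≤ 1 / s₀ * |nu a' B k₀ ⬝ᵥ (x + z)| := by
    rw [hn2nu, hdot, abs_div]
    have h11 : s₀ ≤ |u ⬝ᵥ x + 2 * s₀| := by
      have := abs_le.mp hsx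
      refine le_trans ?_ (le_abs_self _)
      linarith
    have h12 : 0 < |u ⬝ᵥ x| := abs_pos.mpr hux
    rw [← mul_div_assoc]
    refine div_le_div_of_nonneg_right ?_ h12.le
    rw [one_div, inv_mul_eq_div, le_div_iff₀ hs, one_mul]
    exact h11
  calc ENNReal.ofReal (n2 (nu a' B k₀)) * coneVol a' B p R
      ≤ ENNReal.ofReal (1 / s₀ * |nu a' B k₀ ⬝ᵥ (x + z)|) * coneVol a' B p R :=
        mul_le_mul_left (ENNReal.ofReal_le_ofReal hfac) _
    _ = ENNReal.ofReal (1 / s₀) *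
          (ENNReal.ofReal |nu a' B k₀ ⬝ᵥ (x + z)| * coneVol a' B p R) := by
        rw [ENNReal.ofReal_mul (by positivity), mul_assoc]
    _ ≤ ENNReal.ofReal (1 / s₀) * coneVol (Function.update a f (x + z)) B
          (obj (Function.update a f (x + z)) G I L μ) (R + 2) :=
        mul_le_mul_right (hcv'.trans hshift) _

/-- Averaging over one constraint and one translation. -/
theorem move_average (c : Fin n → Fin d → ℝ) (f : Fin n) {σ Rg s₀ : ℝ} (hσ : 0 < σ)
    (hσ1 : σ ≤ 1) (hRg : 0 ≤ Rg) (hs : 0 < s₀) {F1 F2 : (Fin n → Fin d → ℝ) → ℝ≥0∞}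
    (hF1 : Measurable F1) (hF2 : Measurable F2)
    (key : ∀ a : Fin n → Fin d → ℝ, ∃ z : Fin d → ℝ, n2 z * (Rg + 1) ≤ σ ^ 2 ∧
      ∀ x, F1 (Function.update a f x) ≤ ENNReal.ofReal (1 / s₀) *
        (F2 (Function.update a f x) + ({x | n2 (x - c f) ≤ Rg} : Set (Fin d → ℝ)).indicator
          (fun x => F2 (Function.update a f (x + z))) x)) :
    ∫⁻ a, F1 a ∂(noise c σ) ≤ ENNReal.ofReal (4 / s₀) * ∫⁻ a, F2 a ∂(noise c σ) := by
  rw [noise_update c σ f hF1, noise_update c σ f hF2,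
    ← lintegral_const_mul' _ _ ENNReal.ofReal_ne_top]
  refine lintegral_mono fun a => ?_
  obtain ⟨z, hzn, hk⟩ := key a
  have hH : Measurable fun x : Fin d → ℝ => F2 (Function.update a f x) :=
    hF2.comp (measurable_update a)
  have hsm : MeasurableSet {x : Fin d → ℝ | n2 (x - c f) ≤ Rg} :=
    measurableSet_le (measurable_n2.comp (measurable_id.sub_const (c f))) measurable_const
  have hshift := gau_shift (c f) z (σ := σ) (Rg := Rg) hσ hRg hH
  have hexp : Real.exp ((2 * Rg * n2 z + n2 z ^ 2) / (2 * σ ^ 2)) ≤ 3 := by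
    have h5 : (2 * Rg * n2 z + n2 z ^ 2) / (2 * σ ^ 2) ≤ 1 := by
      rw [div_le_one (by positivity)]
      have h6 : n2 z ≤ 1 := by
        have h7 : σ ^ 2 ≤ 1 := pow_le_one₀ hσ.le hσ1
        nlinarith [n2_nonneg z]
      nlinarith [n2_nonneg z]
    refine (Real.exp_le_exp.mpr h5).trans ?_
    have := Real.exp_one_lt_d9
    linarith
  calc ∫⁻ x, F1 (Function.update a f x) ∂(gau (c f) σ)
      ≤ ∫⁻ x, ENNReal.ofReal (1 / s₀) * (F2 (Function.update a f x) +
          ({x | n2 (x - c f) ≤ Rg} : Set (Fin d → ℝ)).indicator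
            (fun x => F2 (Function.update a f (x + z))) x) ∂(gau (c f) σ) :=
        lintegral_mono hk
    _ = ENNReal.ofReal (1 / s₀) * (∫⁻ x, F2 (Function.update a f x) ∂(gau (c f) σ) +
          ∫⁻ x in {x | n2 (x - c f) ≤ Rg}, F2 (Function.update a f (x + z))
            ∂(gau (c f) σ)) := by
        rw [lintegral_const_mul' _ _ ENNReal.ofReal_ne_top, lintegral_add_left hH,
          lintegral_indicator hsm]
    _ ≤ ENNReal.ofReal (1 / s₀) * (∫⁻ x, F2 (Function.update a f x) ∂(gau (c f) σ) +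
          ENNReal.ofReal 3 * ∫⁻ x, F2 (Function.update a f x) ∂(gau (c f) σ)) := by
        refine mul_le_mul_right (add_le_add_right (hshift.trans ?_) _) _
        exact mul_le_mul_left (ENNReal.ofReal_le_ofReal hexp) _
    _ = ENNReal.ofReal (4 / s₀) * ∫⁻ x, F2 (Function.update a f x) ∂(gau (c f) σ) := by
        have h5 : ENNReal.ofReal (4 / s₀) = ENNReal.ofReal (1 / s₀) * 4 := by
          rw [show (4 : ℝ) / s₀ = 1 / s₀ * 4 by ring, ENNReal.ofReal_mul (by positivity)]
          norm_num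
        have h6 : ENNReal.ofReal 3 = 3 := by norm_num
        rw [h5, h6, mul_assoc]
        congr 1
        ring

theorem vtx_obj_le {a : Fin n → Fin d → ℝ} {G : Finset (Fin n)} {T L μ A R ρ ρ₁ : ℝ}
    (hT : 0 < T) (hA0 : 0 ≤ A) (hR : 0 ≤ R)
    (hG : ∀ x : Fin d → ℝ, n2 x ≤ T * ∑ i ∈ G, |a i ⬝ᵥ x|) (hA : ∀ i, n2 (a i) ≤ A)
    {I B : Idx n d} (hI : Good a I) (hB : Good a B) (hIρ : n2 (vtx a I) ≤ ρ₁)
    {X : Fin d → ℝ} (hX : ‖X‖ ≤ R)
    (hL : T * (d * R + 1) ≤ L) (hμ : 0 ≤ μ)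
    (hρ : 2 * L * G.card + (d * R + L * G.card * A) * ρ₁ ≤ ρ)
    (hw : InCone a B (X + obj a G I L μ)) : n2 (vtx a B) ≤ ρ := by
  have hd0 : (0 : ℝ) ≤ d := Nat.cast_nonneg d
  have hL0 : 0 ≤ L := le_trans (by positivity) hL
  have hXn : n2 X ≤ d * R := (n2_le X).trans (mul_le_mul_of_nonneg_left hX hd0)
  have h6 : X + L • sumG a G + μ • sumI a I = X + obj a G I L μ := by
    rw [add_assoc]
    rfl
  have h5 := vtx_path (a := a) (G := G) (T := T) (L := L) (μ := μ) (A := A) hT hG hA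
    (I := I) (B := B) hI hB (X := X)
    (le_trans (mul_le_mul_of_nonneg_left (by linarith) hT.le) hL) hμ (by rw [h6]; exact hw)
  refine h5.trans (le_trans ?_ hρ)
  have h7 : (n2 X + L * G.card * A) * n2 (vtx a I) ≤ (d * R + L * G.card * A) * ρ₁ :=
    mul_le_mul (by linarith) hIρ (n2_nonneg _) (by positivity)
  linarith

theorem coneVol_eq_zero {a : Fin n → Fin d → ℝ} {B : Idx n d} {p : Fin d → ℝ} {R : ℝ}
    (h : ¬ ∃ X : Fin d → ℝ, ‖X‖ ≤ R ∧ InCone a B (X + p)) : coneVol a B p R = 0 := by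
  unfold coneVol
  have h6 : {X : Fin d → ℝ | ‖X‖ ≤ R ∧ InCone a B (X + p)} = ∅ := by
    ext X
    simp only [Set.mem_ofPred_eq, Set.mem_empty_iff_false, iff_false]
    exact fun h' => h ⟨X, h'⟩
  rw [h6, measure_empty]

theorem good_update {a : Fin n → Fin d → ℝ} {I : Idx n d} {f : Fin n} (hf : f ∉ Set.range I)
    {x y : Fin d → ℝ} (h : Good (Function.update a f x) I) (hy : vtx a I ⬝ᵥ y ≤ 1) :
    Good (Function.update a f y) I := by
  refine ⟨?_, ?_⟩
  · rw [mat_update hf]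
    have h5 := h.1
    rwa [mat_update hf] at h5
  · intro i
    rw [vtx_update hf]
    by_cases hi : i = f
    · rw [hi, Function.update_self, dotProduct_comm]
      exact hy
    · rw [Function.update_of_ne hi]
      have h5 := h.2 i
      rwa [Function.update_of_ne hi, vtx_update hf] at h5

/-- The pointwise alternative. -/
theorem fresh_point (c : Fin n → Fin d → ℝ) (G : Finset (Fin n)) (I B : Idx n d) (k₀ : Fin d)
    (hf : B k₀ ∉ Set.range I) {σ A Rg ρ₁ T L R M μ ρ s₀ : ℝ} (hd : 2 ≤ d)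
    (hRg : 0 ≤ Rg) (hA : ∀ i, n2 (c i) + Rg ≤ A) (hT : 0 < T) (hR : 0 ≤ R)
    (hL : T * (d * (R + 1) + 1) ≤ L) (hμ : 0 ≤ μ) (hμM : μ ≤ M)
    (hρ : 2 * L * G.card + (d * (R + 1) + L * G.card * A) * ρ₁ ≤ ρ) (hs : 0 < s₀)
    (h1 : 2 * s₀ * (1 + A * ρ) * (Rg + 1) ≤ σ ^ 2) (h2 : 2 * s₀ * (1 + A * ρ) * L ≤ 1)
    (h3 : 2 * s₀ * (1 + A * ρ) * ((d * (R + 1) + L * G.card * A + M * d * A) * ρ) ≤ 1)
    (a : Fin n → Fin d → ℝ) :
    ∃ z : Fin d → ℝ, n2 z * (Rg + 1) ≤ σ ^ 2 ∧ ∀ x,
      Reg c (Function.update a (B k₀) x) G I Rg ρ₁ T → Good (Function.update a (B k₀) x) B →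
      (ENNReal.ofReal (n2 (nu (Function.update a (B k₀) x) B k₀)) *
          coneVol (Function.update a (B k₀) x) B (obj (Function.update a (B k₀) x) G I L μ)
            (R + 1) ≤
        ENNReal.ofReal (1 / s₀) *
          coneVol (Function.update a (B k₀) x) B
            (obj (Function.update a (B k₀) x) G I L μ) (R + 3)) ∨
      ((Good (Function.update a (B k₀) (x + z)) I ∧
        Good (Function.update a (B k₀) (x + z)) B) ∧
        ENNReal.ofReal (n2 (nu (Function.update a (B k₀) x) B k₀)) *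
          coneVol (Function.update a (B k₀) x) B (obj (Function.update a (B k₀) x) G I L μ)
            (R + 1) ≤
        ENNReal.ofReal (1 / s₀) *
          coneVol (Function.update a (B k₀) (x + z)) B
            (obj (Function.update a (B k₀) (x + z)) G I L μ) (R + 3)) := by
  by_cases hex : ∃ x, Reg c (Function.update a (B k₀) x) G I Rg ρ₁ T
  swap
  · refine ⟨0, ?_, fun x hx => absurd ⟨x, hx⟩ hex⟩
    have : n2 (0 : Fin d → ℝ) = 0 := by simp [n2]
    rw [this, zero_mul]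
    positivity
  obtain ⟨x₀, hx₀⟩ := hex
  have hA0 : 0 ≤ A := (add_nonneg (n2_nonneg (c (B k₀))) hRg).trans (hA (B k₀))
  have hρ₁ : 0 ≤ ρ₁ := (n2_nonneg _).trans hx₀.vtx_le
  have hd0 : (0 : ℝ) ≤ d := Nat.cast_nonneg d
  have hL0 : 0 ≤ L := le_trans (by positivity) hL
  have hρ0 : 0 ≤ ρ := le_trans (by positivity) hρ
  have hAρ : 0 ≤ 1 + A * ρ := by positivity
  have hnorm : ∀ y : Fin d → ℝ, ∀ i, n2 (y - c i) ≤ Rg → n2 y ≤ A := by
    intro y i h
    have h5 := n2_add_le (y - c i) (c i)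
    rw [sub_add_cancel] at h5
    linarith [hA i]
  have ha : ∀ i, i ≠ B k₀ → n2 (a i) ≤ A := by
    intro i hi
    have h5 := hx₀.near i
    rw [Function.update_of_ne hi] at h5
    exact hnorm _ i h5
  obtain ⟨u, v, hu, hv, huv, hw⟩ := wedge a B k₀ hd hρ0 hA0 ha (vtx a I)
  refine ⟨(2 * s₀) • v, ?_, ?_⟩
  · rw [n2_smul, abs_of_pos (by positivity)]
    refine le_trans ?_ h1
    exact mul_le_mul_of_nonneg_right (mul_le_mul_of_nonneg_left hv (by positivity))
      (by positivity)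
  intro x hreg hBx
  have hIx : Good (Function.update a (B k₀) x) I := hreg.good
  have hall : ∀ i, n2 (Function.update a (B k₀) x i) ≤ A := fun i => hnorm _ i (hreg.near i)
  by_cases hne : ∃ X : Fin d → ℝ, ‖X‖ ≤ R + 1 ∧
      InCone (Function.update a (B k₀) x) B (X + obj (Function.update a (B k₀) x) G I L μ)
  swap
  · left
    rw [coneVol_eq_zero hne, mul_zero]
    exact zero_le
  obtain ⟨X, hX, hXc⟩ := hne
  have hvtxB : n2 (vtx (Function.update a (B k₀) x) B) ≤ ρ :=
    vtx_obj_le hT hA0 (by linarith) hreg.spans hall hIx hBx hreg.vtx_le hX hL hμ hρ hXc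
  have hhx : vtx a I ⬝ᵥ x ≤ 1 := by
    have h5 := hIx.2 (B k₀)
    rw [Function.update_self, vtx_update hf, dotProduct_comm] at h5
    exact h5
  obtain ⟨hux, hnu, hmove⟩ := hw x hBx hvtxB hhx
  by_cases hsx : |u ⬝ᵥ x| ≤ s₀
  · right
    obtain ⟨hB', _, hh'⟩ := hmove (2 * s₀) (by positivity) (by linarith)
    refine ⟨⟨good_update hf hIx hh', hB'⟩, ?_⟩
    refine (fresh_core (a := a) (G := G) (I := I) (B := B) (k₀ := k₀) hf (A := A)
      (L := L) (R := R + 1) (μ := μ) (ρ := ρ) (s₀ := s₀)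
      (K := d * (R + 1) + L * G.card * A + M * d * A) (u := u) (v := v) (x := x)
      hAρ hL0 hs h2 h3 hu hv huv hBx hvtxB
      (fun Y hY => n2_obj_le' hL0 hall hμ hμM hY) hux hnu hsx hB').trans ?_
    exact mul_le_mul_right (coneVol_mono _ _ _ (by linarith)) _
  · left
    rw [not_le] at hsx
    have hn2nu : n2 (nu (Function.update a (B k₀) x) B k₀) ≤ 1 / s₀ := by
      rw [hnu, n2_smul, hu, mul_one, abs_inv, one_div]
      exact inv_anti₀ hs hsx.le
    exact mul_le_mul' (ENNReal.ofReal_le_ofReal hn2nu) (coneVol_mono _ _ _ (by linarith))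

theorem measurable_coneVol_fix (G : Finset (Fin n)) (I B : Idx n d) (L μ r : ℝ) :
    Measurable fun a : Fin n → Fin d → ℝ => coneVol a B (obj a G I L μ) r := by
  have h1 : Measurable fun a : Fin n → Fin d → ℝ => (a, μ) := measurable_prodMk_right
  have h2 := (measurable_coneVol G I B L r).comp h1
  exact h2

/-- (7c) Moving a fresh constraint. `s₀` is the scale. -/
theorem fresh_bound (c : Fin n → Fin d → ℝ) (G : Finset (Fin n)) (I B : Idx n d) (k₀ : Fin d)
    (hf : B k₀ ∉ Set.range I) {σ A Rg ρ₁ T L R M μ ρ s₀ : ℝ} (hd : 2 ≤ d) (hσ : 0 < σ)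
    (hσ1 : σ ≤ 1) (hRg : 0 ≤ Rg) (hA : ∀ i, n2 (c i) + Rg ≤ A) (hT : 0 < T) (hR : 0 ≤ R)
    (hL : T * (d * (R + 1) + 1) ≤ L) (hμ : 0 ≤ μ) (hμM : μ ≤ M)
    (hρ : 2 * L * G.card + (d * (R + 1) + L * G.card * A) * ρ₁ ≤ ρ) (hs : 0 < s₀)
    (h1 : 2 * s₀ * (1 + A * ρ) * (Rg + 1) ≤ σ ^ 2) (h2 : 2 * s₀ * (1 + A * ρ) * L ≤ 1)
    (h3 : 2 * s₀ * (1 + A * ρ) * ((d * (R + 1) + L * G.card * A + M * d * A) * ρ) ≤ 1) :
    ∫⁻ a in {a | Reg c a G I Rg ρ₁ T ∧ Good a B},
        ENNReal.ofReal (n2 (nu a B k₀)) * coneVol a B (obj a G I L μ) (R + 1) ∂(noise c σ) ≤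
      ENNReal.ofReal (4 / s₀) *
        ∫⁻ a in {a | Good a I ∧ Good a B}, coneVol a B (obj a G I L μ) (R + 3)
          ∂(noise c σ) := by
  have hS : MeasurableSet {a : Fin n → Fin d → ℝ | Reg c a G I Rg ρ₁ T ∧ Good a B} :=
    (measurableSet_reg c G I Rg ρ₁ T).inter (measurableSet_good B)
  have hS' : MeasurableSet {a : Fin n → Fin d → ℝ | Good a I ∧ Good a B} :=
    (measurableSet_good I).inter (measurableSet_good B)
  have hcv := measurable_coneVol_fix (n := n) (d := d) G I B L μ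
  have hnum : Measurable fun a : Fin n → Fin d → ℝ => ENNReal.ofReal (n2 (nu a B k₀)) :=
    ENNReal.measurable_ofReal.comp (measurable_n2.comp (measurable_nu B k₀))
  rw [← lintegral_indicator hS, ← lintegral_indicator hS']
  refine move_average c (B k₀) hσ hσ1 hRg hs ((hnum.mul (hcv (R + 1))).indicator hS)
    ((hcv (R + 3)).indicator hS') fun a => ?_
  obtain ⟨z, hz, hkey⟩ := fresh_point c G I B k₀ hf hd hRg hA hT hR hL hμ hμM hρ hs h1 h2 h3 a
  refine ⟨z, hz, fun x => ?_⟩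
  by_cases hx : Reg c (Function.update a (B k₀) x) G I Rg ρ₁ T ∧
      Good (Function.update a (B k₀) x) B
  swap
  · rw [Set.indicator_of_notMem (show Function.update a (B k₀) x ∉
      {a : Fin n → Fin d → ℝ | Reg c a G I Rg ρ₁ T ∧ Good a B} from hx)]
    exact zero_le
  rw [Set.indicator_of_mem (show Function.update a (B k₀) x ∈
      {a : Fin n → Fin d → ℝ | Reg c a G I Rg ρ₁ T ∧ Good a B} from hx)]
  have hnear : n2 (x - c (B k₀)) ≤ Rg := by
    have h5 := hx.1.near (B k₀)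
    rwa [Function.update_self] at h5
  rcases hkey x hx.1 hx.2 with h | ⟨hg, h⟩
  · refine h.trans (mul_le_mul_right ?_ _)
    rw [Set.indicator_of_mem (show Function.update a (B k₀) x ∈
      {a : Fin n → Fin d → ℝ | Good a I ∧ Good a B} from ⟨hx.1.good, hx.2⟩)]
    exact le_self_add
  · refine h.trans (mul_le_mul_right ?_ _)
    rw [Set.indicator_of_mem (show x ∈ {x : Fin d → ℝ | n2 (x - c (B k₀)) ≤ Rg} from hnear),
      Set.indicator_of_mem (show Function.update a (B k₀) (x + z) ∈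
      {a : Fin n → Fin d → ℝ | Good a I ∧ Good a B} from hg)]
    exact le_add_self

end Pool.Agent.H.MP_0cad2f_co.helper11.TD
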