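import Pool.Agent.H.MP_0cad2f_co.helper11.Walk

/-!
Polytopes close to a ball: a deterministic lower bound for the diameter of the edge graph.
-/

set_option autoImplicit false

namespace Pool.Agent.H.MP_0cad2f_co.helper11

open Finset

/-- The vector as a point of Euclidean space. -/
abbrev toE {d : ℕ} (x : Fin d → ℝ) : EuclideanSpace ℝ (Fin d) := WithLp.toLp 2 x

theorem toE_inner {d : ℕ} (x y : Fin d → ℝ) : inner ℝ (toE x) (toE y) = ∑ t, x t * y t := by
  rw [PiLp.inner_apply]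
  exact sum_congr rfl fun t _ => by simp [mul_comm]

theorem abs_le_norm {d : ℕ} (x : Fin d → ℝ) (t : Fin d) : |x t| ≤ ‖toE x‖ := by
  have := PiLp.norm_apply_le (toE x) t
  simpa using this

/-- The polar `K` of `P` lies between the balls of radius `Rm` and `Rp`, and every vertex of `P`
is simple. -/
structure Sand {n d : ℕ} (a : Fin n → Fin d → ℝ) (Rm Rp ρ κ : ℝ) : Prop where
  hd : 2 ≤ d
  up : ∀ i, ‖toE (a i)‖ ≤ Rp
  low : ∀ y : Fin d → ℝ, ‖toE y‖ = 1 → ∃ i, Rm ≤ ∑ t, a i t * y t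
  half : 1 / 2 ≤ Rm
  simple : ∀ u : Vtx a, (tight a u.1).card ≤ d
  pos : 0 < ρ
  gap : Rp ^ 2 - Rm ^ 2 ≤ ρ ^ 2
  kpos : 0 < κ
  key : κ + ρ ≤ Rm ^ 2 * Rp⁻¹

variable {n d : ℕ} {a : Fin n → Fin d → ℝ} {Rm Rp ρ κ : ℝ}

theorem Sand.norm_le (h : Sand a Rm Rp ρ κ) {x : Fin d → ℝ} (hx : Feas a x) :
    Rm * ‖toE x‖ ≤ 1 := by
  have h1 := h.half
  rcases eq_or_ne (toE x) 0 with h0 | h0
  · rw [h0, norm_zero, mul_zero]; norm_num
  · have hpos : 0 < ‖toE x‖ := norm_pos_iff.mpr h0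
    obtain ⟨i, hi⟩ := h.low (fun t => ‖toE x‖⁻¹ * x t) (by
      have : toE (fun t => ‖toE x‖⁻¹ * x t) = ‖toE x‖⁻¹ • toE x := by
        ext t; simp
      rw [this, norm_smul, norm_inv, norm_norm, inv_mul_cancel₀ hpos.ne'])
    have h2 : ∑ t, a i t * (‖toE x‖⁻¹ * x t) = ‖toE x‖⁻¹ * ∑ t, a i t * x t := by
      rw [mul_sum]; exact sum_congr rfl fun t _ => by ring
    rw [h2] at hi
    have h3 : ‖toE x‖⁻¹ * ∑ t, a i t * x t ≤ ‖toE x‖⁻¹ * 1 :=
      mul_le_mul_of_nonneg_left (hx i) (by positivity)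
    have h4 : Rm ≤ ‖toE x‖⁻¹ := by linarith
    calc Rm * ‖toE x‖ ≤ ‖toE x‖⁻¹ * ‖toE x‖ := mul_le_mul_of_nonneg_right h4 hpos.le
      _ = 1 := inv_mul_cancel₀ hpos.ne'

theorem Sand.bound (h : Sand a Rm Rp ρ κ) {x : Fin d → ℝ} (hx : Feas a x) (t : Fin d) :
    |x t| ≤ 2 := by
  have h1 := h.norm_le hx
  have h2 := h.half
  have h3 := abs_le_norm x t
  have h4 := norm_nonneg (toE x)
  nlinarith

/-- At a feasible point `x` all tight normals are within `ρ` of `x / |x|²`. -/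
theorem Sand.near (h : Sand a Rm Rp ρ κ) {x : Fin d → ℝ} (hx : Feas a x) {i : Fin n}
    (hi : i ∈ tight a x) : ‖toE (a i) - (‖toE x‖ ^ 2)⁻¹ • toE x‖ ≤ ρ := by
  have h1 := h.half
  rw [mem_tight] at hi
  have hne : toE x ≠ 0 := by
    intro h0
    have : ∑ t, a i t * x t = 0 := by
      rw [← toE_inner, h0, inner_zero_right]
    rw [this] at hi
    exact zero_ne_one hi
  have hpos : 0 < ‖toE x‖ := norm_pos_iff.mpr hne
  have hr := h.norm_le hx
  apply abs_le_of_sq_le_sq' _ h.pos.le |>.2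
  rw [norm_sub_sq_real, norm_smul, inner_smul_right, toE_inner, hi]
  have h2 : ‖(‖toE x‖ ^ 2)⁻¹‖ = (‖toE x‖ ^ 2)⁻¹ := by
    rw [Real.norm_eq_abs, abs_of_pos (by positivity)]
  rw [h2]
  have h3 : ((‖toE x‖ ^ 2)⁻¹ * ‖toE x‖) ^ 2 = (‖toE x‖ ^ 2)⁻¹ := by
    field_simp
  rw [h3]
  have h4 : ‖toE (a i)‖ ^ 2 ≤ Rp ^ 2 := pow_le_pow_left₀ (norm_nonneg _) (h.up i) 2
  have h5 : Rm ^ 2 ≤ (‖toE x‖ ^ 2)⁻¹ := by
    rw [le_inv_comm₀ (by positivity) (by positivity)]
    rw [← inv_pow]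
    apply pow_le_pow_left₀ hpos.le
    rw [le_inv_comm₀ hpos (by positivity)]
    rw [← one_div, le_div_iff₀ hpos]
    exact hr
  linarith [h.gap]

theorem Sand.coord (h : Sand a Rm Rp ρ κ) {x : Fin d → ℝ} (hx : Feas a x) {i : Fin n}
    (hi : i ∈ tight a x) (o : Fin d) : |a i o - (‖toE x‖ ^ 2)⁻¹ * x o| ≤ ρ := by
  have h1 := h.near hx hi
  have h2 := abs_le_norm (fun t => a i t - (‖toE x‖ ^ 2)⁻¹ * x t) o
  have h3 : toE (fun t => a i t - (‖toE x‖ ^ 2)⁻¹ * x t) =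
      toE (a i) - (‖toE x‖ ^ 2)⁻¹ • toE x := by
    ext t; simp
  rw [h3] at h2
  exact h2.trans h1

/-- The potential. -/
noncomputable def bal (a : Fin n → Fin d → ℝ) (o : Fin d) (x : Fin d → ℝ) : ℝ :=
  ∑ i ∈ tight a x, a i o

theorem Sand.step (h : Sand a Rm Rp ρ κ) (o : Fin d) {u v : Vtx a}
    (huv : (edgeGraph a).Adj u v) : |bal a o u.1 - bal a o v.1| ≤ 4 * ρ := by
  classical
  have hd := h.hd
  have hρ := h.pos
  have hu : Feas a u.1 := u.2.1
  have hv : Feas a v.1 := v.2.1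
  have cu : (tight a u.1).card = d := le_antisymm (h.simple u) (vtx_card u)
  have cv : (tight a v.1).card = d := le_antisymm (h.simple v) (vtx_card v)
  have hc := common_card huv
  set T := tight a u.1 with hT
  set T' := tight a v.1 with hT'
  have e1 : (T \ T').card + (T ∩ T').card = T.card := card_sdiff_add_card_inter T T'
  have e2 : (T' \ T).card + (T' ∩ T).card = T'.card := card_sdiff_add_card_inter T' T
  have e3 : (T' ∩ T).card = (T ∩ T').card := by rw [inter_comm]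
  have hsum : bal a o u.1 - bal a o v.1 =
      ∑ i ∈ T \ T', a i o - ∑ i ∈ T' \ T, a i o := by
    unfold bal
    rw [← hT, ← hT', ← sum_inter_add_sum_sdiff T T' (fun i => a i o),
      ← sum_inter_add_sum_sdiff T' T (fun i => a i o), inter_comm T' T]
    ring
  rw [hsum]
  by_cases h0 : (T \ T').card = 0
  · have h0' : (T' \ T).card = 0 := by omega
    rw [card_eq_zero] at h0 h0'
    rw [h0, h0']
    simp
    exact hρ.le
  · have h1 : (T \ T').card = 1 := by omega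
    have h1' : (T' \ T).card = 1 := by omega
    obtain ⟨p, hp⟩ := card_eq_one.mp h1
    obtain ⟨p', hp'⟩ := card_eq_one.mp h1'
    rw [hp, hp', sum_singleton, sum_singleton]
    have hpT : p ∈ T \ T' := by rw [hp]; simp
    have hpT' : p' ∈ T' \ T := by rw [hp']; simp
    rw [mem_sdiff] at hpT hpT'
    obtain ⟨i, hi⟩ := card_pos.mp (show 0 < (T ∩ T').card by omega)
    rw [mem_inter] at hi
    have b1 := abs_le.mp (h.coord hu hpT.1 o)
    have b2 := abs_le.mp (h.coord hu hi.1 o)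
    have b3 := abs_le.mp (h.coord hv hpT'.1 o)
    have b4 := abs_le.mp (h.coord hv hi.2 o)
    rw [abs_le]
    constructor <;> linarith [b1.1, b1.2, b2.1, b2.2, b3.1, b3.2, b4.1, b4.2]

/-- The key inequality in the case `1 ≤ Rm`. -/
theorem key_of_one (h1 : 1 ≤ Rm) (h2 : Rp ^ 2 - Rm ^ 2 ≤ ρ ^ 2) (h3 : ρ ≤ 2 / 5) (h4 : 0 < ρ)
    (hRp : 0 < Rp) : 13 / 25 + ρ ≤ Rm ^ 2 * Rp⁻¹ := by
  have h5 : Rp ^ 2 ≤ Rm ^ 2 + 4 / 25 := by nlinarith
  have h6 : 23 / 25 * Rp ≤ Rm ^ 2 := by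
    by_contra hcon
    rw [not_le] at hcon
    have h6 : (Rm ^ 2) ^ 2 < (23 / 25 * Rp) ^ 2 :=
      pow_lt_pow_left₀ hcon (by positivity) (by norm_num)
    have h7 : (1 : ℝ) ≤ Rm ^ 2 := by nlinarith
    nlinarith
  have h7 : 23 / 25 ≤ Rm ^ 2 * Rp⁻¹ := by
    rw [← div_eq_mul_inv, le_div_iff₀ hRp]; exact h6
  linarith

theorem Sand.n_ne (h : Sand a Rm Rp ρ κ) : n ≠ 0 := by
  rintro rfl
  have hd := h.hd
  obtain ⟨i, _⟩ := h.low (Pi.single (⟨0, by omega⟩ : Fin d) 1) (by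
    have : toE (Pi.single (⟨0, by omega⟩ : Fin d) (1 : ℝ)) =
        EuclideanSpace.single (⟨0, by omega⟩ : Fin d) (1 : ℝ) := rfl
    rw [this]; simp)
  exact i.elim0

/-- Two vertices with far apart potentials. -/
theorem Sand.ends (h : Sand a Rm Rp ρ κ) (o : Fin d) :
    ∃ u v : Vtx a, 2 * κ * (d : ℝ) ≤ bal a o u.1 - bal a o v.1 := by
  classical
  have hhalf := h.half
  have hkey := h.key
  have hRp : 1 / 2 ≤ Rp := by
    obtain ⟨i, hi⟩ := h.low (Pi.single o 1) (by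
      have : toE (Pi.single o (1 : ℝ)) = EuclideanSpace.single o (1 : ℝ) := rfl
      rw [this]; simp)
    have h1 : ∑ t, a i t * (Pi.single o (1 : ℝ) : Fin d → ℝ) t = a i o := by
      simp [Pi.single_apply]
    rw [h1] at hi
    have h2 := (le_abs_self (a i o)).trans ((abs_le_norm (a i) o).trans (h.up i))
    linarith
  obtain ⟨u, hu⟩ := exists_vertex_max a 2 (fun x hx t => h.bound hx t) (Pi.single o 1)
  obtain ⟨v, hv⟩ := exists_vertex_max a 2 (fun x hx t => h.bound hx t) (Pi.single o (-1))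
  refine ⟨u, v, ?_⟩
  have hsingle : ∀ (s : ℝ) (x : Fin d → ℝ), ∑ t, (Pi.single o s : Fin d → ℝ) t * x t = s * x o := by
    intro s x
    simp [Pi.single_apply]
  have hfeas : ∀ s : ℝ, |s| ≤ Rp⁻¹ → Feas a (Pi.single o s) := by
    intro s hs i
    have h1 : ∑ t, a i t * (Pi.single o s : Fin d → ℝ) t = a i o * s := by
      simp [Pi.single_apply]
    rw [h1]
    have h2 := (abs_le_norm (a i) o).trans (h.up i)
    calc a i o * s ≤ |a i o * s| := le_abs_self _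
      _ = |a i o| * |s| := abs_mul _ _
      _ ≤ Rp * Rp⁻¹ := mul_le_mul h2 hs (abs_nonneg _) (by linarith)
      _ = 1 := mul_inv_cancel₀ (by linarith)
  have hRi : 0 < Rp⁻¹ := by positivity
  have u1 : Rp⁻¹ ≤ u.1 o := by
    have := hu _ (hfeas Rp⁻¹ (by rw [abs_of_pos hRi]))
    rw [hsingle, hsingle] at this
    simpa using this
  have v1 : v.1 o ≤ -Rp⁻¹ := by
    have := hv _ (hfeas (-Rp⁻¹) (by rw [abs_neg, abs_of_pos hRi]))
    rw [hsingle, hsingle] at this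
    simp at this
    linarith
  have hinv : ∀ w : Vtx a, w.1 o ≠ 0 → Rm ^ 2 ≤ (‖toE w.1‖ ^ 2)⁻¹ := by
    intro w hw
    have hpos : 0 < ‖toE w.1‖ := lt_of_lt_of_le (abs_pos.mpr hw) (abs_le_norm w.1 o)
    have hr := h.norm_le (show Feas a w.1 from w.2.1)
    rw [le_inv_comm₀ (by positivity) (by positivity), ← inv_pow]
    apply pow_le_pow_left₀ hpos.le
    rw [le_inv_comm₀ hpos (by positivity), ← one_div, le_div_iff₀ hpos]
    exact hr
  have cu : (tight a u.1).card = d := le_antisymm (h.simple u) (vtx_card u)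
  have cv : (tight a v.1).card = d := le_antisymm (h.simple v) (vtx_card v)
  have hfu : Feas a u.1 := u.2.1
  have hfv : Feas a v.1 := v.2.1
  have bu : (d : ℝ) * κ ≤ bal a o u.1 := by
    unfold bal
    have h1 := card_nsmul_le_sum (tight a u.1) (fun i => a i o) κ (by
      intro i hi
      have b1 := (abs_le.mp (h.coord hfu hi o)).1
      have b2 := hinv u (by linarith)
      have b3 : Rm ^ 2 * Rp⁻¹ ≤ (‖toE u.1‖ ^ 2)⁻¹ * u.1 o :=
        mul_le_mul b2 u1 hRi.le (le_trans (by positivity) b2)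
      linarith)
    rw [cu, nsmul_eq_mul] at h1
    exact h1
  have bv : bal a o v.1 ≤ (d : ℝ) * (-κ) := by
    unfold bal
    have h1 := sum_le_card_nsmul (tight a v.1) (fun i => a i o) (-κ) (by
      intro i hi
      have b1 := (abs_le.mp (h.coord hfv hi o)).2
      have b2 := hinv v (by linarith)
      have b3 : Rm ^ 2 * Rp⁻¹ ≤ (‖toE v.1‖ ^ 2)⁻¹ * (-v.1 o) :=
        mul_le_mul b2 (by linarith) hRi.le (le_trans (by positivity) b2)
      linarith)
    rw [cv, nsmul_eq_mul] at h1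
    exact h1
  linarith

theorem Sand.ediam_ge (h : Sand a Rm Rp ρ κ) :
    ENNReal.ofReal (κ * d / (2 * ρ)) ≤ ((edgeGraph a).ediam : ENNReal) := by
  have hd := h.hd
  have hρ := h.pos
  have o : Fin d := ⟨0, by omega⟩
  obtain ⟨u, v, huv⟩ := h.ends o
  set D : ℝ := κ * d / (2 * ρ) with hD
  have hd0 : (0 : ℝ) < d := by exact_mod_cast (by omega : 0 < d)
  have h1 : ((⌈D⌉₊ : ℕ) : ℕ∞) ≤ (edgeGraph a).edist u v := by
    unfold SimpleGraph.edist
    refine le_iInf fun p => ?_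
    have h2 := walk_bound (edgeGraph a) (fun w => bal a o w.1) (4 * ρ)
      (fun u v huv => h.step o huv) p
    have h3 : D ≤ p.length := by
      have h4 := le_abs_self (bal a o u.1 - bal a o v.1)
      rw [hD, div_le_iff₀ (by positivity)]
      linarith
    exact_mod_cast Nat.ceil_le.mpr h3
  have h2 : ((⌈D⌉₊ : ℕ) : ℕ∞) ≤ (edgeGraph a).ediam := h1.trans SimpleGraph.edist_le_ediam
  have h3 : ENNReal.ofReal D ≤ ((⌈D⌉₊ : ℕ) : ENNReal) := by
    rw [ENNReal.ofReal_le_iff_le_toReal (by simp)]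
    simpa using Nat.le_ceil D
  refine h3.trans ?_
  have h4 : (((⌈D⌉₊ : ℕ) : ℕ∞) : ENNReal) ≤ ((edgeGraph a).ediam : ENNReal) := by
    exact_mod_cast h2
  simpa using h4

end Pool.Agent.H.MP_0cad2f_co.helper11
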