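import Pool.Agent.H.MP_0cad2f_co.helper11.Trig

/-!
The centres: `d / 2` regular `4q`-gons in orthogonal planes and, for odd `d`, one segment.
-/

set_option autoImplicit false

namespace Pool.Agent.H.MP_0cad2f_co.helper11

open Finset

/-- Extension of a vector by zero. -/
noncomputable def ext {d : ℕ} (x : Fin d → ℝ) (t : ℕ) : ℝ := if h : t < d then x ⟨t, h⟩ else 0

theorem ext_coe {d : ℕ} (x : Fin d → ℝ) (t : Fin d) : ext x t = x t := by
  simp [ext]

theorem sum_ext {d : ℕ} (F : ℕ → ℝ) (x : Fin d → ℝ) :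
    ∑ t : Fin d, F t * x t = ∑ t ∈ range d, F t * ext x t := by
  rw [← Fin.sum_univ_eq_sum_range (fun t => F t * ext x t) d]
  exact Finset.sum_congr rfl fun t _ => by rw [ext_coe]

/-- The centres, indexed by natural numbers; `k` is the number of polygons. -/
noncomputable def cenN (q k i t : ℕ) : ℝ :=
  if i < 4 * q * k then
    (if t = 2 * (i / (4 * q)) then Real.cos ((i % (4 * q) : ℕ) * ang q) else 0) +
      (if t = 2 * (i / (4 * q)) + 1 then Real.sin ((i % (4 * q) : ℕ) * ang q) else 0)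
  else if t = 2 * k then (if i = 4 * q * k then 1 else if i = 4 * q * k + 1 then -1 else 0) else 0

theorem cenN_ip_poly {d q i : ℕ} (hi : i < 4 * q * (d / 2)) (x : ℕ → ℝ) :
    ∑ t ∈ range d, cenN q (d / 2) i t * x t =
      gg q (x (2 * (i / (4 * q)))) (x (2 * (i / (4 * q)) + 1)) (i % (4 * q)) := by
  have hj : i / (4 * q) < d / 2 := Nat.div_lt_of_lt_mul hi
  have h1 : 2 * (i / (4 * q)) ∈ range d := by rw [mem_range]; omega
  have h2 : 2 * (i / (4 * q)) + 1 ∈ range d := by rw [mem_range]; omega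
  unfold cenN gg
  simp only [hi, if_true, add_mul, ite_mul, zero_mul, sum_add_distrib]
  rw [sum_ite_eq' (range d), sum_ite_eq' (range d), if_pos h1, if_pos h2]

theorem cenN_ip_last {d q i : ℕ} (hi : ¬ i < 4 * q * (d / 2)) (x : ℕ → ℝ) :
    ∑ t ∈ range d, cenN q (d / 2) i t * x t =
      if 2 * (d / 2) < d then
        (if i = 4 * q * (d / 2) then 1 else if i = 4 * q * (d / 2) + 1 then -1 else 0) *
          x (2 * (d / 2)) else 0 := by
  unfold cenN
  simp only [hi, if_false]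
  rw [sum_congr rfl (fun t _ => ite_mul _ _ _ _)]
  simp only [zero_mul]
  rw [sum_ite_eq' (range d)]
  simp only [mem_range]

theorem cenN_sq {d q : ℕ} (i : ℕ) :
    ∑ t ∈ range d, cenN q (d / 2) i t ^ 2 ≤ 1 := by
  by_cases hi : i < 4 * q * (d / 2)
  · have hj : i / (4 * q) < d / 2 := Nat.div_lt_of_lt_mul hi
    have h1 : 2 * (i / (4 * q)) ∈ range d := by rw [mem_range]; omega
    have h2 : 2 * (i / (4 * q)) + 1 ∈ range d := by rw [mem_range]; omega
    have h3 : ∀ t ∈ range d, cenN q (d / 2) i t ^ 2 =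
        (if t = 2 * (i / (4 * q)) then Real.cos ((i % (4 * q) : ℕ) * ang q) ^ 2 else 0) +
        (if t = 2 * (i / (4 * q)) + 1 then Real.sin ((i % (4 * q) : ℕ) * ang q) ^ 2 else 0) := by
      intro t _
      unfold cenN
      rw [if_pos hi]
      by_cases e1 : t = 2 * (i / (4 * q))
      · have e2 : ¬ t = 2 * (i / (4 * q)) + 1 := by omega
        simp [e1]
      · simp [e1]
    rw [sum_congr rfl h3, sum_add_distrib, sum_ite_eq' (range d), sum_ite_eq' (range d),
      if_pos h1, if_pos h2]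
    rw [Real.cos_sq_add_sin_sq]
  · have h3 : ∀ t ∈ range d, cenN q (d / 2) i t ^ 2 ≤ if t = 2 * (d / 2) then 1 else 0 := by
      intro t _
      unfold cenN
      rw [if_neg hi]
      split_ifs <;> norm_num
    refine (sum_le_sum h3).trans ?_
    rw [sum_ite_eq' (range d)]
    split_ifs <;> norm_num

/-- The centres. -/
noncomputable def cen (n d q : ℕ) (i : Fin n) (t : Fin d) : ℝ := cenN q (d / 2) i t

theorem cen_sq {n d q : ℕ} (i : Fin n) : ∑ t, cen n d q i t ^ 2 ≤ 1 := by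
  have : ∑ t, cen n d q i t ^ 2 = ∑ t ∈ range d, cenN q (d / 2) i t ^ 2 := by
    rw [← Fin.sum_univ_eq_sum_range (fun t => cenN q (d / 2) i t ^ 2) d]
    rfl
  rw [this]; exact cenN_sq _

theorem cen_ip {n d q : ℕ} (i : Fin n) (x : Fin d → ℝ) :
    ∑ t, cen n d q i t * x t = ∑ t ∈ range d, cenN q (d / 2) i t * ext x t := by
  rw [← sum_ext]; rfl

/-- Each coordinate direction and its negative are among the centres. -/
theorem cen_axis {n d q : ℕ} (hq : 1 ≤ q) (hn : 2 * d * q ≤ n) (x : Fin d → ℝ)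
    (t : Fin d) : (∃ i : Fin n, ∑ s, cen n d q i s * x s = x t) ∧
      ∃ i : Fin n, ∑ s, cen n d q i s * x s = - x t := by
  have ht := t.isLt
  have hqq : (1 : ℝ) ≤ q := by exact_mod_cast hq
  by_cases hlast : (t : ℕ) = 2 * (d / 2)
  · have hodd : 2 * (d / 2) < d := by omega
    have hb : 4 * q * (d / 2) + 1 < n := by
      have : d = 2 * (d / 2) + 1 := by omega
      have h2 : 2 * (2 * (d / 2) + 1) * q ≤ n := by rw [← this]; exact hn
      nlinarith
    refine ⟨⟨⟨4 * q * (d / 2), by omega⟩, ?_⟩, ⟨⟨4 * q * (d / 2) + 1, hb⟩, ?_⟩⟩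
    · rw [cen_ip, cenN_ip_last (by simp)]
      rw [if_pos hodd, if_pos rfl, one_mul, ← hlast, ext_coe]
    · rw [cen_ip, cenN_ip_last (by simp)]
      rw [if_pos hodd, if_neg (by simp), if_pos rfl, ← hlast, ext_coe]
      ring
  · have hj : (t : ℕ) / 2 < d / 2 := by omega
    have hb : ∀ l, l < 4 * q → 4 * q * ((t : ℕ) / 2) + l < 4 * q * (d / 2) := by
      intro l hl
      have : (t : ℕ) / 2 + 1 ≤ d / 2 := hj
      calc 4 * q * ((t : ℕ) / 2) + l < 4 * q * ((t : ℕ) / 2) + 4 * q := by omega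
        _ = 4 * q * ((t : ℕ) / 2 + 1) := by ring
        _ ≤ 4 * q * (d / 2) := Nat.mul_le_mul_left _ this
    have hbn : 4 * q * (d / 2) ≤ n := by
      have : 2 * (d / 2) ≤ d := by omega
      calc 4 * q * (d / 2) = 2 * (2 * (d / 2)) * q := by ring
        _ ≤ 2 * d * q := Nat.mul_le_mul_right _ (Nat.mul_le_mul_left _ this)
        _ ≤ n := hn
    have key : ∀ l (hl : l < 4 * q), ∑ s, cen n d q
        ⟨4 * q * ((t : ℕ) / 2) + l, lt_of_lt_of_le (hb l hl) hbn⟩ s * x s =
        gg q (ext x (2 * ((t : ℕ) / 2))) (ext x (2 * ((t : ℕ) / 2) + 1)) l := by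
      intro l hl
      rw [cen_ip, cenN_ip_poly (hb l hl)]
      have e1 : (4 * q * ((t : ℕ) / 2) + l) / (4 * q) = (t : ℕ) / 2 := by
        rw [Nat.mul_add_div (by omega), Nat.div_eq_of_lt hl, add_zero]
      have e2 : (4 * q * ((t : ℕ) / 2) + l) % (4 * q) = l := by
        rw [Nat.mul_add_mod, Nat.mod_eq_of_lt hl]
      simp only [e1, e2]
    have hhalf : (q : ℝ) * ang q = Real.pi / 2 := by
      have := two_q_ang hq; linarith
    by_cases heven : (t : ℕ) = 2 * ((t : ℕ) / 2)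
    · refine ⟨⟨_, (key 0 (by omega)).trans ?_⟩, ⟨_, (key (0 + 2 * q) (by omega)).trans ?_⟩⟩
      · rw [← heven, ext_coe]; simp [gg]
      · rw [gg_add_half hq, ← heven, ext_coe]; simp [gg]
    · have hodd : (t : ℕ) = 2 * ((t : ℕ) / 2) + 1 := by omega
      refine ⟨⟨_, (key q (by omega)).trans ?_⟩, ⟨_, (key (q + 2 * q) (by omega)).trans ?_⟩⟩
      · rw [← hodd, ext_coe]; simp [gg, hhalf]
      · rw [gg_add_half hq, ← hodd, ext_coe]; simp [gg, hhalf]

end Pool.Agent.H.MP_0cad2f_co.helper11
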