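import Mathlib

/-!
Vertices of the polyhedron with constraints `⟨a i, x⟩ ≤ 1`: a linear functional attains its
maximum over a bounded polyhedron at a vertex.
-/

set_option autoImplicit false

namespace Pool.Agent.H.MP_0cad2f_co.helper11

open Filter Topology

/-- The vertices of the polyhedron: feasible points whose tight constraints span. -/
abbrev Vtx {n d : ℕ} (a : Fin n → Fin d → ℝ) : Type :=
  {x : Fin d → ℝ // (∀ i, ∑ j, a i j * x j ≤ 1) ∧
    Submodule.span ℝ (a '' {i | ∑ j, a i j * x j = 1}) = ⊤}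

/-- The edge graph: two vertices are joined when their common tight constraints have
rank `d - 1`. -/
abbrev edgeGraph {n d : ℕ} (a : Fin n → Fin d → ℝ) : SimpleGraph (Vtx a) :=
  SimpleGraph.fromRel (fun u v : Vtx a =>
    Module.finrank ℝ (Submodule.span ℝ
      (a '' {i | ∑ j, a i j * u.1 j = 1 ∧ ∑ j, a i j * v.1 j = 1})) = d - 1)

theorem exists_vertex_max {n d : ℕ} (a : Fin n → Fin d → ℝ) (R : ℝ)
    (hR : ∀ x : Fin d → ℝ, (∀ i, ∑ j, a i j * x j ≤ 1) → ∀ t, |x t| ≤ R) (f : Fin d → ℝ) :
    ∃ u : Vtx a, ∀ x : Fin d → ℝ, (∀ i, ∑ j, a i j * x j ≤ 1) →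
      ∑ j, f j * x j ≤ ∑ j, f j * u.1 j := by
  classical
  set P : Set (Fin d → ℝ) := {x | ∀ i, ∑ j, a i j * x j ≤ 1} with hP
  have hPc : IsClosed P := by
    rw [hP, Set.ofPred_forall]
    refine isClosed_iInter fun i => isClosed_le ?_ continuous_const
    fun_prop
  have hPK : IsCompact P := by
    refine IsCompact.of_isClosed_subset
      (isCompact_univ_pi (fun _ : Fin d => isCompact_Icc (a := -R) (b := R))) hPc ?_
    intro x hx
    rw [Set.mem_univ_pi]
    intro t
    exact abs_le.mp (hR x hx t)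
  have hP0 : (0 : Fin d → ℝ) ∈ P := by intro i; simp
  have hfc : Continuous fun x : Fin d → ℝ => ∑ j, f j * x j := by fun_prop
  obtain ⟨x0, hx0, hmax⟩ := hPK.exists_isMaxOn ⟨0, hP0⟩ hfc.continuousOn
  set F : Set (Fin d → ℝ) := P ∩ {x | ∑ j, f j * x j = ∑ j, f j * x0 j} with hF
  have hFK : IsCompact F := hPK.inter_right (isClosed_eq hfc continuous_const)
  obtain ⟨u, hu⟩ := hFK.extremePoints_nonempty ⟨x0, hx0, rfl⟩
  rw [mem_extremePoints] at hu
  obtain ⟨⟨huP, huf⟩, hue⟩ := hu
  have hspan : Submodule.span ℝ (a '' {i | ∑ j, a i j * u j = 1}) = ⊤ := by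
    by_contra hne
    obtain ⟨φ, hφ0, hφ⟩ := Submodule.exists_le_ker_of_lt_top _ (lt_top_iff_ne_top.mpr hne)
    set z : Fin d → ℝ := fun j => φ (Pi.single j 1) with hz
    have hφz : ∀ y : Fin d → ℝ, φ y = ∑ j, y j * z j := by
      intro y
      conv_lhs => rw [pi_eq_sum_univ' y]
      rw [map_sum]
      refine Finset.sum_congr rfl fun j _ => ?_
      rw [map_smul, smul_eq_mul, hz]
    have htight : ∀ i, ∑ j, a i j * u j = 1 → ∑ j, a i j * z j = 0 := by
      intro i hi
      rw [← hφz]
      exact LinearMap.mem_ker.mp (hφ (Submodule.subset_span ⟨i, hi, rfl⟩))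
    have hev : ∀ᶠ t in 𝓝 (0 : ℝ), ∀ i, ∑ j, a i j * (u j + t * z j) ≤ 1 := by
      rw [eventually_all]
      intro i
      by_cases hi : ∑ j, a i j * u j = 1
      · refine Eventually.of_forall fun t => ?_
        have : ∑ j, a i j * (u j + t * z j) = ∑ j, a i j * u j + t * ∑ j, a i j * z j := by
          rw [Finset.mul_sum, ← Finset.sum_add_distrib]
          exact Finset.sum_congr rfl fun j _ => by ring
        rw [this, hi, htight i hi]; simp
      · have hlt : ∑ j, a i j * u j < 1 := lt_of_le_of_ne (huP i) hi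
        have hc : ContinuousAt (fun t : ℝ => ∑ j, a i j * (u j + t * z j)) 0 := by fun_prop
        have hlt' : (fun t : ℝ => ∑ j, a i j * (u j + t * z j)) 0 < 1 := by simpa using hlt
        exact (hc.eventually_lt continuousAt_const hlt').mono fun t ht => ht.le
    obtain ⟨r, hr, hball⟩ := Metric.eventually_nhds_iff.mp hev
    have h1 := hball (y := r / 2) (by rw [Real.dist_eq, sub_zero, abs_of_pos (by linarith)]; linarith)
    have h2 := hball (y := -(r / 2))
      (by rw [Real.dist_eq, sub_zero, abs_neg, abs_of_pos (by linarith)]; linarith)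
    have e1 : ∑ j, f j * (u j + r / 2 * z j) = ∑ j, f j * u j + r / 2 * ∑ j, f j * z j := by
      rw [Finset.mul_sum, ← Finset.sum_add_distrib]
      exact Finset.sum_congr rfl fun j _ => by ring
    have e2 : ∑ j, f j * (u j + -(r / 2) * z j) = ∑ j, f j * u j - r / 2 * ∑ j, f j * z j := by
      rw [Finset.mul_sum, ← Finset.sum_sub_distrib]
      exact Finset.sum_congr rfl fun j _ => by ring
    have m1 := hmax h1
    have m2 := hmax h2
    simp only [Set.mem_ofPred_eq] at huf m1 m2
    rw [e1, huf] at m1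
    rw [e2, huf] at m2
    have hfz : ∑ j, f j * z j = 0 := by
      have h3 : r / 2 * ∑ j, f j * z j ≤ 0 := by linarith
      have h4 : -(r / 2 * ∑ j, f j * z j) ≤ 0 := by linarith
      have h5 : r / 2 * ∑ j, f j * z j = 0 := le_antisymm h3 (by linarith)
      rcases mul_eq_zero.mp h5 with h | h
      · linarith
      · exact h
    have k1 : (fun j => u j + r / 2 * z j) ∈ F := ⟨h1, by
      simp only [Set.mem_ofPred_eq]; rw [e1, hfz, huf]; ring⟩
    have k2 : (fun j => u j + -(r / 2) * z j) ∈ F := ⟨h2, by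
      simp only [Set.mem_ofPred_eq]; rw [e2, hfz, huf]; ring⟩
    have hmem : u ∈ openSegment ℝ (fun j => u j + r / 2 * z j)
        (fun j => u j + -(r / 2) * z j) := by
      refine ⟨1 / 2, 1 / 2, by norm_num, by norm_num, by norm_num, ?_⟩
      ext j
      simp only [Pi.add_apply, Pi.smul_apply, smul_eq_mul]
      ring
    have h6 := (hue _ k1 _ k2 hmem).1
    apply hφ0
    ext j
    have h7 := congrFun h6 j
    have h8 : z j = 0 := by
      have : r / 2 * z j = 0 := by linarith
      rcases mul_eq_zero.mp this with h | h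
      · linarith
      · exact h
    simpa [hz] using h8
  refine ⟨⟨u, huP, hspan⟩, fun x hx => ?_⟩
  have := hmax hx
  simp only [Set.mem_ofPred_eq] at this huf
  show ∑ j, f j * x j ≤ ∑ j, f j * u j
  rw [huf]; exact this

end Pool.Agent.H.MP_0cad2f_co.helper11
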