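import Pool.Agent.H.MP_0cad2f_co.helper11.Cen
import Pool.Agent.H.MP_0cad2f_co.helper11.Vert

/-!
Tight constraints at a feasible point of the perturbed product polytope.
-/

set_option autoImplicit false

namespace Pool.Agent.H.MP_0cad2f_co.helper11

open Finset

/-- Standing assumptions: the rows of `a` are within distance `β` of the centres. -/
structure Near (n d q : ℕ) (a : Fin n → Fin d → ℝ) (β : ℝ) : Prop where
  hq : 1 ≤ q
  hd : 2 ≤ d
  hn : 2 * d * q ≤ n
  b0 : 0 ≤ β
  hb : 2 * β * Real.sqrt d ≤ 1 / (16 * q ^ 2)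
  near : ∀ i, ∑ t, (a i t - cen n d q i t) ^ 2 ≤ β ^ 2

/-- Feasibility. -/
def Feas {n d : ℕ} (a : Fin n → Fin d → ℝ) (x : Fin d → ℝ) : Prop := ∀ i, ∑ t, a i t * x t ≤ 1

variable {n d q : ℕ} {a : Fin n → Fin d → ℝ} {β : ℝ}

theorem Near.small (h : Near n d q a β) : 2 * β * Real.sqrt d ≤ 1 / 16 := by
  refine h.hb.trans ?_
  have : (1 : ℝ) ≤ q := by exact_mod_cast h.hq
  apply one_div_le_one_div_of_le (by norm_num)
  nlinarith

theorem Near.eps_nonneg (h : Near n d q a β) : 0 ≤ 2 * β * Real.sqrt d := by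
  have := h.b0
  positivity

theorem Near.split (i : Fin n) (x : Fin d → ℝ) :
    ∑ t, a i t * x t = ∑ t, cen n d q i t * x t + ∑ t, (a i t - cen n d q i t) * x t := by
  rw [← sum_add_distrib]
  exact sum_congr rfl fun t _ => by ring

theorem Near.noise (h : Near n d q a β) (i : Fin n) {x : Fin d → ℝ} {ρ : ℝ} (hρ : 0 ≤ ρ)
    (hx : ∀ t, |x t| ≤ ρ) : |∑ t, (a i t - cen n d q i t) * x t| ≤ β * Real.sqrt d * ρ := by
  have hb := h.b0
  apply abs_le_of_sq_le_sq _ (by positivity)
  have h1 := sum_mul_sq_le_sq_mul_sq univ (fun t => a i t - cen n d q i t) x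
  refine h1.trans ?_
  have h2 : ∑ t, x t ^ 2 ≤ d * ρ ^ 2 := by
    calc ∑ t, x t ^ 2 ≤ ∑ _t : Fin d, ρ ^ 2 := by
          apply sum_le_sum
          intro t _
          rw [← sq_abs (x t)]
          exact pow_le_pow_left₀ (abs_nonneg _) (hx t) 2
      _ = d * ρ ^ 2 := by simp
  calc (∑ t, (a i t - cen n d q i t) ^ 2) * ∑ t, x t ^ 2 ≤ β ^ 2 * (d * ρ ^ 2) :=
        mul_le_mul (h.near i) h2 (sum_nonneg fun t _ => sq_nonneg _) (sq_nonneg _)
    _ = (β * Real.sqrt d * ρ) ^ 2 := by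
        rw [mul_pow, mul_pow, Real.sq_sqrt (Nat.cast_nonneg d)]; ring

theorem Near.bound (h : Near n d q a β) {x : Fin d → ℝ} (hx : Feas a x) (t : Fin d) :
    |x t| ≤ 2 := by
  have hsm := h.small
  have hb := h.b0
  have hs := Real.sqrt_nonneg (d : ℝ)
  set r := β * Real.sqrt d with hr
  have hr0 : 0 ≤ r := by positivity
  have hr1 : r ≤ 1 / 32 := by linarith [show 2 * β * Real.sqrt d = 2 * r by rw [hr]; ring]
  have hnn : ∀ s, |x s| ≤ ‖x‖ := fun s => by
    have := norm_le_pi_norm x s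
    rwa [Real.norm_eq_abs] at this
  have key : ‖x‖ ≤ 1 + r * ‖x‖ := by
    rw [pi_norm_le_iff_of_nonneg (by positivity)]
    intro s
    rw [Real.norm_eq_abs, abs_le]
    obtain ⟨⟨i, hi⟩, ⟨i', hi'⟩⟩ := cen_axis h.hq h.hn x s
    have h1 := hx i
    have h2 := hx i'
    rw [Near.split (q := q)] at h1 h2
    have h3 := abs_le.mp (h.noise i (norm_nonneg x) hnn)
    have h4 := abs_le.mp (h.noise i' (norm_nonneg x) hnn)
    rw [hi] at h1
    rw [hi'] at h2
    constructor
    · linarith [h4.1]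
    · linarith [h3.1]
  have hn0 := norm_nonneg x
  have : ‖x‖ ≤ 2 := by nlinarith
  exact (hnn t).trans this

theorem Near.noise2 (h : Near n d q a β) {x : Fin d → ℝ} (hx : Feas a x) (i : Fin n) :
    |∑ t, (a i t - cen n d q i t) * x t| ≤ 2 * β * Real.sqrt d := by
  have := h.noise i (by norm_num) (fun t => h.bound hx t)
  linarith

theorem Near.main_index (h : Near n d q a β) {x : Fin d → ℝ} (hx : Feas a x) {i : Fin n}
    (hi : ∑ t, a i t * x t = 1) : (i : ℕ) < 4 * q * (d / 2) ∨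
      (2 * (d / 2) < d ∧ ((i : ℕ) = 4 * q * (d / 2) ∨ (i : ℕ) = 4 * q * (d / 2) + 1)) := by
  by_contra hcon
  push Not at hcon
  obtain ⟨h1, h2⟩ := hcon
  have h3 := h.noise2 hx i
  rw [Near.split (q := q)] at hi
  rw [cen_ip, cenN_ip_last (by omega)] at hi
  have h4 : (if 2 * (d / 2) < d then
        ((if (i : ℕ) = 4 * q * (d / 2) then 1 else
          if (i : ℕ) = 4 * q * (d / 2) + 1 then -1 else 0) : ℝ) *
          ext x (2 * (d / 2)) else 0) = 0 := by
    split_ifs with g1 g2 g3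
    · exact absurd g2 (h2 g1).1
    · exact absurd g3 (h2 g1).2
    · simp
    · rfl
  rw [h4, zero_add] at hi
  rw [hi, abs_one] at h3
  linarith [h.small]

theorem Near.index_bound (h : Near n d q a β) : 4 * q * (d / 2) ≤ n := by
  have : 2 * (d / 2) ≤ d := by omega
  calc 4 * q * (d / 2) = 2 * (2 * (d / 2)) * q := by ring
    _ ≤ 2 * d * q := Nat.mul_le_mul_right _ (Nat.mul_le_mul_left _ this)
    _ ≤ n := h.hn

theorem Near.poly_le (h : Near n d q a β) {x : Fin d → ℝ} (hx : Feas a x) {j : ℕ}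
    (hj : j < d / 2) (l : ℕ) :
    gg q (ext x (2 * j)) (ext x (2 * j + 1)) l ≤ 1 + 2 * β * Real.sqrt d := by
  have hq := h.hq
  rw [← gg_mod hq]
  have hl : l % (4 * q) < 4 * q := Nat.mod_lt _ (by omega)
  have hlt : 4 * q * j + l % (4 * q) < 4 * q * (d / 2) := by
    calc 4 * q * j + l % (4 * q) < 4 * q * j + 4 * q := by omega
      _ = 4 * q * (j + 1) := by ring
      _ ≤ 4 * q * (d / 2) := Nat.mul_le_mul_left _ hj
  have hin : 4 * q * j + l % (4 * q) < n := lt_of_lt_of_le hlt h.index_bound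
  have h1 := hx ⟨_, hin⟩
  rw [Near.split (q := q)] at h1
  have h2 := abs_le.mp (h.noise2 hx ⟨_, hin⟩)
  rw [cen_ip, cenN_ip_poly hlt] at h1
  have e1 : (4 * q * j + l % (4 * q)) / (4 * q) = j := by
    rw [Nat.mul_add_div (by omega), Nat.div_eq_of_lt hl, add_zero]
  have e2 : (4 * q * j + l % (4 * q)) % (4 * q) = l % (4 * q) := by
    rw [Nat.mul_add_mod, Nat.mod_eq_of_lt hl]
  simp only [e1, e2] at h1
  linarith [h2.1]

theorem Near.poly_tight (h : Near n d q a β) {x : Fin d → ℝ} (hx : Feas a x) {i : Fin n}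
    (hi : ∑ t, a i t * x t = 1) (hlt : (i : ℕ) < 4 * q * (d / 2)) :
    |gg q (ext x (2 * ((i : ℕ) / (4 * q)))) (ext x (2 * ((i : ℕ) / (4 * q)) + 1))
      ((i : ℕ) % (4 * q)) - 1| ≤ 2 * β * Real.sqrt d := by
  have h2 := h.noise2 hx i
  rw [Near.split (q := q), cen_ip, cenN_ip_poly hlt] at hi
  have : gg q (ext x (2 * ((i : ℕ) / (4 * q)))) (ext x (2 * ((i : ℕ) / (4 * q)) + 1))
      ((i : ℕ) % (4 * q)) - 1 = -∑ t, (a i t - cen n d q i t) * x t := by linarith
  rw [this, abs_neg]; exact h2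

/-- Two tight constraints of one polygon are adjacent sides. -/
theorem Near.adjacent (h : Near n d q a β) {x : Fin d → ℝ} (hx : Feas a x) {i i' : Fin n}
    (hi : ∑ t, a i t * x t = 1) (hi' : ∑ t, a i' t * x t = 1)
    (hlt : (i : ℕ) < 4 * q * (d / 2)) (hblk : (i : ℕ) / (4 * q) = (i' : ℕ) / (4 * q))
    (hll : (i : ℕ) % (4 * q) < (i' : ℕ) % (4 * q)) :
    (i' : ℕ) % (4 * q) = (i : ℕ) % (4 * q) + 1 ∨
      (i' : ℕ) % (4 * q) + 1 = (i : ℕ) % (4 * q) + 4 * q := by
  have hq := h.hq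
  have hj : (i : ℕ) / (4 * q) < d / 2 := Nat.div_lt_of_lt_mul hlt
  have hlt' : (i' : ℕ) < 4 * q * (d / 2) := by
    rw [hblk] at hj
    rw [Nat.div_lt_iff_lt_mul (by omega)] at hj
    rwa [mul_comm]
  have t1 := (abs_le.mp (h.poly_tight hx hi hlt)).1
  have t2 := (abs_le.mp (h.poly_tight hx hi' hlt')).1
  rw [← hblk] at t2
  have hm : (i' : ℕ) % (4 * q) < 4 * q := Nat.mod_lt _ (by omega)
  by_contra hcon
  push Not at hcon
  refine no_gap hq h.eps_nonneg h.hb (fun l => h.poly_le hx hj l)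
    (l := (i : ℕ) % (4 * q)) (D := (i' : ℕ) % (4 * q) - (i : ℕ) % (4 * q))
    (by omega) (by omega) (by linarith) ?_
  have : (i : ℕ) % (4 * q) + ((i' : ℕ) % (4 * q) - (i : ℕ) % (4 * q)) = (i' : ℕ) % (4 * q) := by
    omega
  rw [this]; linarith

/-- The set of tight constraints. -/
noncomputable def tight {n d : ℕ} (a : Fin n → Fin d → ℝ) (x : Fin d → ℝ) : Finset (Fin n) := by
  classical exact univ.filter fun i => ∑ t, a i t * x t = 1

theorem mem_tight {x : Fin d → ℝ} {i : Fin n} : i ∈ tight a x ↔ ∑ t, a i t * x t = 1 := by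
  classical
  unfold tight
  simp

/-- Capacity of a block. -/
def cap (d j : ℕ) : ℕ := if j < d / 2 then 2 else d % 2

theorem sum_cap (d : ℕ) : ∑ j ∈ range (d / 2 + 1), cap d j = d := by
  rw [sum_range_succ]
  have h1 : ∑ j ∈ range (d / 2), cap d j = ∑ j ∈ range (d / 2), 2 := by
    apply sum_congr rfl
    intro j hj
    rw [mem_range] at hj
    simp [cap, hj]
  have h2 : cap d (d / 2) = d % 2 := by simp [cap]
  rw [h1, h2, sum_const, card_range, smul_eq_mul]
  omega

/-- The block of a constraint. -/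
def blk (q : ℕ) {n : ℕ} (i : Fin n) : ℕ := (i : ℕ) / (4 * q)

theorem Near.blk_mem (h : Near n d q a β) {x : Fin d → ℝ} (hx : Feas a x) {i : Fin n}
    (hi : i ∈ tight a x) : blk q i ∈ range (d / 2 + 1) := by
  have hq := h.hq
  rw [mem_tight] at hi
  rw [mem_range, blk]
  have h4 : 4 * q * (d / 2) + 1 < 4 * q * (d / 2 + 1) := by
    rw [Nat.mul_succ]; omega
  apply Nat.div_lt_of_lt_mul
  rcases h.main_index hx hi with h1 | ⟨_, h1 | h1⟩ <;> omega

theorem Near.card_block (h : Near n d q a β) {x : Fin d → ℝ} (hx : Feas a x) (j : ℕ) :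
    ((tight a x).filter fun i => blk q i = j).card ≤ cap d j := by
  have hq := h.hq
  unfold cap
  split_ifs with hj
  · by_contra hcon
    rw [not_le, two_lt_card] at hcon
    obtain ⟨i1, h1, i2, h2, i3, h3, n12, n13, n23⟩ := hcon
    rw [mem_filter, mem_tight] at h1 h2 h3
    have hb : ∀ i : Fin n, blk q i = j → (i : ℕ) < 4 * q * (d / 2) := by
      intro i hi
      rw [← hi, blk, Nat.div_lt_iff_lt_mul (by omega)] at hj
      rwa [mul_comm]
    have hne : ∀ i i' : Fin n, blk q i = j → blk q i' = j → i ≠ i' →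
        (i : ℕ) % (4 * q) ≠ (i' : ℕ) % (4 * q) := by
      intro i i' e1 e2 hii heq
      apply hii
      apply Fin.ext
      rw [← Nat.mod_add_div (i : ℕ) (4 * q), ← Nat.mod_add_div (i' : ℕ) (4 * q), heq]
      have : (i : ℕ) / (4 * q) = (i' : ℕ) / (4 * q) := by
        have e3 : blk q i = blk q i' := by rw [e1, e2]
        exact e3
      rw [this]
    have hadj : ∀ i i' : Fin n, (∑ t, a i t * x t = 1) → (∑ t, a i' t * x t = 1) →
        blk q i = j → blk q i' = j → (i : ℕ) % (4 * q) < (i' : ℕ) % (4 * q) →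
        (i' : ℕ) % (4 * q) = (i : ℕ) % (4 * q) + 1 ∨
          (i' : ℕ) % (4 * q) + 1 = (i : ℕ) % (4 * q) + 4 * q := by
      intro i i' t1 t2 e1 e2 hl
      refine h.adjacent hx t1 t2 (hb i e1) ?_ hl
      have e3 : blk q i = blk q i' := by rw [e1, e2]
      exact e3
    have m1 := Nat.mod_lt (i1 : ℕ) (show 4 * q > 0 by omega)
    have m2 := Nat.mod_lt (i2 : ℕ) (show 4 * q > 0 by omega)
    have m3 := Nat.mod_lt (i3 : ℕ) (show 4 * q > 0 by omega)
    have d12 := hne i1 i2 h1.2 h2.2 n12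
    have d13 := hne i1 i3 h1.2 h3.2 n13
    have d23 := hne i2 i3 h2.2 h3.2 n23
    have a12 := hadj i1 i2 h1.1 h2.1 h1.2 h2.2
    have a21 := hadj i2 i1 h2.1 h1.1 h2.2 h1.2
    have a13 := hadj i1 i3 h1.1 h3.1 h1.2 h3.2
    have a31 := hadj i3 i1 h3.1 h1.1 h3.2 h1.2
    have a23 := hadj i2 i3 h2.1 h3.1 h2.2 h3.2
    have a32 := hadj i3 i2 h3.1 h2.1 h3.2 h2.2
    generalize (i1 : ℕ) % (4 * q) = l1 at *
    generalize (i2 : ℕ) % (4 * q) = l2 at *
    generalize (i3 : ℕ) % (4 * q) = l3 at *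
    omega
  · have hsub : ∀ i ∈ (tight a x).filter (fun i => blk q i = j), 2 * (d / 2) < d ∧
        ((i : ℕ) = 4 * q * (d / 2) ∨ (i : ℕ) = 4 * q * (d / 2) + 1) := by
      intro i hi
      rw [mem_filter, mem_tight] at hi
      rcases h.main_index hx hi.1 with h1 | h1
      · exfalso
        apply hj
        rw [← hi.2]
        exact Nat.div_lt_of_lt_mul h1
      · exact h1
    by_cases hodd : 2 * (d / 2) < d
    · have hd2 : d % 2 = 1 := by omega
      rw [hd2, card_le_one]
      intro i hi i' hi'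
      obtain ⟨_, c1⟩ := hsub i hi
      obtain ⟨_, c2⟩ := hsub i' hi'
      rw [mem_filter, mem_tight] at hi hi'
      by_contra hne
      have hval : ∀ i : Fin n, (∑ t, a i t * x t = 1) → (i : ℕ) = 4 * q * (d / 2) →
          |ext x (2 * (d / 2)) - 1| ≤ 2 * β * Real.sqrt d := by
        intro i ht e
        have h2 := h.noise2 hx i
        rw [Near.split (q := q), cen_ip, cenN_ip_last (by omega), if_pos hodd, if_pos e,
          one_mul] at ht
        have : ext x (2 * (d / 2)) - 1 = -∑ t, (a i t - cen n d q i t) * x t := by linarith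
        rw [this, abs_neg]; exact h2
      have hval' : ∀ i : Fin n, (∑ t, a i t * x t = 1) → (i : ℕ) = 4 * q * (d / 2) + 1 →
          |-ext x (2 * (d / 2)) - 1| ≤ 2 * β * Real.sqrt d := by
        intro i ht e
        have h2 := h.noise2 hx i
        rw [Near.split (q := q), cen_ip, cenN_ip_last (by omega), if_pos hodd,
          if_neg (by omega), if_pos e] at ht
        have : -ext x (2 * (d / 2)) - 1 = -∑ t, (a i t - cen n d q i t) * x t := by linarith
        rw [this, abs_neg]; exact h2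
      have hboth : |ext x (2 * (d / 2)) - 1| ≤ 2 * β * Real.sqrt d ∧
          |-ext x (2 * (d / 2)) - 1| ≤ 2 * β * Real.sqrt d := by
        rcases c1 with c1 | c1 <;> rcases c2 with c2 | c2
        · exact absurd (Fin.ext (c1.trans c2.symm)) hne
        · exact ⟨hval i hi.1 c1, hval' i' hi'.1 c2⟩
        · exact ⟨hval i' hi'.1 c2, hval' i hi.1 c1⟩
        · exact absurd (Fin.ext (c1.trans c2.symm)) hne
      have g1 := (abs_le.mp hboth.1).1
      have g2 := (abs_le.mp hboth.2).1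
      linarith [h.small]
    · have : (tight a x).filter (fun i => blk q i = j) = ∅ := by
        rw [eq_empty_iff_forall_notMem]
        intro i hi
        exact hodd (hsub i hi).1
      rw [this]; simp

/-- At a vertex every block is saturated. -/
theorem Near.saturated (h : Near n d q a β) {x : Fin d → ℝ} (hx : Feas a x)
    (hc : d ≤ (tight a x).card) :
    (tight a x).card = d ∧ ∀ j ∈ range (d / 2 + 1),
      ((tight a x).filter fun i => blk q i = j).card = cap d j := by
  have h1 : (tight a x).card =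
      ∑ j ∈ range (d / 2 + 1), ((tight a x).filter fun i => blk q i = j).card :=
    card_eq_sum_card_fiberwise fun i hi => h.blk_mem hx hi
  have h2 : ∑ j ∈ range (d / 2 + 1), ((tight a x).filter fun i => blk q i = j).card ≤
      ∑ j ∈ range (d / 2 + 1), cap d j := sum_le_sum fun j _ => h.card_block hx j
  rw [sum_cap] at h2
  have h3 : ∑ j ∈ range (d / 2 + 1), ((tight a x).filter fun i => blk q i = j).card =
      ∑ j ∈ range (d / 2 + 1), cap d j := by rw [sum_cap]; omega
  refine ⟨by omega, ?_⟩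
  intro j hj
  exact (sum_eq_sum_iff_of_le fun j _ => h.card_block hx j).mp h3 j hj

end Pool.Agent.H.MP_0cad2f_co.helper11
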