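import Pool.Agent.H.MP_0cad2f_co.helper11.Pot
import Pool.Agent.H.MP_0cad2f_co.helper11.Tail

/-!
From the deterministic estimate to the expectation.
-/

set_option autoImplicit false

namespace Pool.Agent.H.MP_0cad2f_co.helper11

open Finset MeasureTheory ProbabilityTheory

variable {n d q : ℕ} {a : Fin n → Fin d → ℝ} {β : ℝ}

theorem Near.ediam_ge (h : Near n d q a β) :
    ENNReal.ofReal (11 / 8 * ((d / 2 : ℕ) : ℝ) * q / Real.pi) ≤
      ((edgeGraph a).ediam : ENNReal) := by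
  have hq := h.hq
  have hq0 : (0 : ℝ) < q := by exact_mod_cast hq
  obtain ⟨u, v, huv⟩ := h.ends
  set D : ℝ := 11 / 8 * ((d / 2 : ℕ) : ℝ) * q / Real.pi with hD
  have hpi := Real.pi_pos
  have h1 : ((⌈D⌉₊ : ℕ) : ℕ∞) ≤ (edgeGraph a).edist u v := by
    unfold SimpleGraph.edist
    refine le_iInf fun p => ?_
    have h2 := walk_bound (edgeGraph a) (fun w => pot q a w.1) (2 * ang q)
      (fun u v huv => h.step huv) p
    have h3 : D ≤ p.length := by
      have h4 := le_abs_self (pot q a u.1 - pot q a v.1)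
      have h5 : 11 / 8 * ((d / 2 : ℕ) : ℝ) ≤ p.length * (2 * ang q) := by
        linarith
      have h6 : 2 * ang q = Real.pi / q := by unfold ang; field_simp
      rw [h6] at h5
      rw [hD, div_le_iff₀ hpi]
      rw [← mul_div_assoc, le_div_iff₀ hq0] at h5
      linarith
    exact_mod_cast Nat.ceil_le.mpr h3
  have h2 : ((⌈D⌉₊ : ℕ) : ℕ∞) ≤ (edgeGraph a).ediam := h1.trans SimpleGraph.edist_le_ediam
  have h3 : ENNReal.ofReal D ≤ ((⌈D⌉₊ : ℕ) : ENNReal) := by
    rw [ENNReal.ofReal_le_iff_le_toReal (by simp)]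
    simpa using Nat.le_ceil D
  refine h3.trans ?_
  have h4 : (((⌈D⌉₊ : ℕ) : ℕ∞) : ENNReal) ≤ ((edgeGraph a).ediam : ENNReal) := by
    exact_mod_cast h2
  simpa using h4

theorem main {n d : ℕ} (hd : 2 ≤ d) (hn : 2 * d ≤ n) {σ : ℝ} (hσ : 0 < σ)
    (hs : σ * Real.sqrt (d * (d + Real.log n)) ≤ 1 / 64) :
    ∃ c : Fin n → Fin d → ℝ, (∀ i, ∑ j, (c i j) ^ 2 ≤ 1) ∧
      ENNReal.ofReal (1 / 220 * min (n : ℝ)
        (d / Real.sqrt (σ * Real.sqrt (d * (d + Real.log n))))) ≤
      ∫⁻ a : Fin n → Fin d → ℝ, ((edgeGraph a).ediam : ENNReal)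
        ∂(Measure.pi (fun i : Fin n =>
          Measure.pi (fun j : Fin d => gaussianReal (c i j) (Real.toNNReal (σ ^ 2))))) := by
  have hd0 : (0 : ℝ) < d := by exact_mod_cast (by omega : 0 < d)
  have hn1 : (1 : ℝ) ≤ n := by exact_mod_cast (by omega : 1 ≤ n)
  have hlog : 0 ≤ Real.log n := Real.log_nonneg hn1
  set L : ℝ := d + Real.log n with hL
  have hLpos : 0 < L := by linarith
  have hsq : Real.sqrt (d * L) = Real.sqrt L * Real.sqrt d := by
    rw [mul_comm, Real.sqrt_mul hLpos.le]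
  set s : ℝ := σ * Real.sqrt (d * L) with hsdef
  have hspos : 0 < s := by
    rw [hsdef]
    have : 0 < Real.sqrt (d * L) := Real.sqrt_pos.mpr (by positivity)
    positivity
  have hrs : 0 < Real.sqrt s := Real.sqrt_pos.mpr hspos
  have hrs8 : Real.sqrt s ≤ 1 / 8 := by
    rw [show (1 / 8 : ℝ) = Real.sqrt ((1 / 8) ^ 2) by rw [Real.sqrt_sq (by norm_num)]]
    exact Real.sqrt_le_sqrt (by norm_num; linarith)
  set R : ℝ := min ((n : ℝ) / (2 * d)) (1 / (8 * Real.sqrt s)) with hR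
  have hR1 : 1 ≤ R := by
    rw [hR, le_min_iff]
    constructor
    · rw [le_div_iff₀ (by positivity), one_mul]
      exact_mod_cast hn
    · rw [le_div_iff₀ (by positivity)]
      linarith
  set q : ℕ := ⌊R⌋₊ with hqdef
  have hq1 : 1 ≤ q := Nat.le_floor (by exact_mod_cast hR1)
  have hq1' : (1 : ℝ) ≤ q := by exact_mod_cast hq1
  have hqR : (q : ℝ) ≤ R := Nat.floor_le (by linarith)
  have hRq : R / 2 ≤ q := by
    have : R < q + 1 := Nat.lt_floor_add_one R
    linarith
  have hqn : 2 * d * q ≤ n := by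
    have h1 : (q : ℝ) ≤ n / (2 * d) := hqR.trans (min_le_left _ _)
    rw [le_div_iff₀ (by positivity)] at h1
    have h2 : ((2 * d * q : ℕ) : ℝ) ≤ n := by push_cast; linarith
    exact_mod_cast h2
  have hqs : 64 * (q : ℝ) ^ 2 * s ≤ 1 := by
    have h1 : (q : ℝ) ≤ 1 / (8 * Real.sqrt s) := hqR.trans (min_le_right _ _)
    rw [le_div_iff₀ (by positivity)] at h1
    have h2 : ((q : ℝ) * (8 * Real.sqrt s)) ^ 2 ≤ 1 := by
      have h0 : 0 ≤ (q : ℝ) * (8 * Real.sqrt s) := by positivity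
      nlinarith
    rw [mul_pow, mul_pow, Real.sq_sqrt hspos.le] at h2
    linarith
  refine ⟨cen n d q, fun i => cen_sq i, ?_⟩
  set v : NNReal := Real.toNNReal (σ ^ 2) with hv
  have hvr : (v : ℝ) = σ ^ 2 := Real.coe_toNNReal _ (sq_nonneg σ)
  have hv0 : v ≠ 0 := by
    intro h0
    have : (v : ℝ) = 0 := by rw [h0]; simp
    rw [hvr] at this
    have := pow_pos hσ 2
    linarith
  have hprob := event_prob (n := n) (d := d) (by omega) hd (cen n d q) hv0
  set E : Set (Fin n → Fin d → ℝ) :=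
    {a | ∀ i, ∑ j, (a i j - cen n d q i j) ^ 2 ≤ 4 * v * (d + Real.log n)} with hE
  set μ := Measure.pi fun i : Fin n => Measure.pi fun j : Fin d =>
    gaussianReal (cen n d q i j) v with hμ
  have hEm : MeasurableSet E := by
    rw [hE, Set.ofPred_forall]
    refine MeasurableSet.iInter fun i => measurableSet_le ?_ measurable_const
    fun_prop
  set D : ℝ := 11 / 8 * ((d / 2 : ℕ) : ℝ) * q / Real.pi with hD
  have hon : ∀ a ∈ E, ENNReal.ofReal D ≤ ((edgeGraph a).ediam : ENNReal) := by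
    intro a ha
    have hnear : Near n d q a (2 * σ * Real.sqrt L) := by
      refine ⟨hq1, hd, hqn, by positivity, ?_, ?_⟩
      · rw [le_div_iff₀ (by positivity)]
        have : 2 * (2 * σ * Real.sqrt L) * Real.sqrt d = 4 * s := by
          rw [hsdef, hsq]; ring
        rw [this]
        linarith
      · intro i
        refine (ha i).trans (le_of_eq ?_)
        rw [hvr, mul_pow, mul_pow, Real.sq_sqrt hLpos.le, hL]
        ring
    exact hnear.ediam_ge
  have hpi := Real.pi_pos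
  have hk : (d : ℝ) / 3 ≤ ((d / 2 : ℕ) : ℝ) := by
    have h1 : d ≤ 3 * (d / 2) := by omega
    have h2 : (d : ℝ) ≤ 3 * ((d / 2 : ℕ) : ℝ) := by exact_mod_cast h1
    linarith
  have hnum : 1 / 220 * min (n : ℝ) (d / Real.sqrt s) ≤ D * (1 / 2) := by
    have h1 : (d : ℝ) / 3 * (R / 2) ≤ ((d / 2 : ℕ) : ℝ) * q :=
      mul_le_mul hk hRq (by linarith) (by positivity)
    have h2 : min (n : ℝ) (d / Real.sqrt s) / 8 ≤ d * R := by
      rw [hR, mul_min_of_nonneg _ _ hd0.le]
      refine le_min ?_ ?_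
      · have h3 : (d : ℝ) * (n / (2 * d)) = n / 2 := by field_simp
        rw [h3]
        have h4 := min_le_left (n : ℝ) (d / Real.sqrt s)
        linarith
      · have h3 : (d : ℝ) * (1 / (8 * Real.sqrt s)) = d / Real.sqrt s / 8 := by field_simp
        rw [h3]
        have h4 := min_le_right (n : ℝ) (d / Real.sqrt s)
        linarith
    have h0 : 0 ≤ min (n : ℝ) (d / Real.sqrt s) := le_min (by linarith) (by positivity)
    have h3 : D * (1 / 2) = 11 / 16 * (((d / 2 : ℕ) : ℝ) * q) / Real.pi := by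
      rw [hD]; ring
    rw [h3, le_div_iff₀ hpi]
    have h4 : Real.pi ≤ 3.1416 := Real.pi_lt_d4.le
    have h5 : 1 / 220 * min (n : ℝ) (d / Real.sqrt s) * Real.pi ≤
        1 / 220 * min (n : ℝ) (d / Real.sqrt s) * 3.1416 :=
      mul_le_mul_of_nonneg_left h4 (by positivity)
    linarith
  calc ENNReal.ofReal (1 / 220 * min (n : ℝ) (d / Real.sqrt s))
      ≤ ENNReal.ofReal (D * (1 / 2)) := ENNReal.ofReal_le_ofReal hnum
    _ = ENNReal.ofReal D * (1 / 2) := by
        have h12 : ENNReal.ofReal (1 / 2) = 1 / 2 := by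
          rw [ENNReal.ofReal_div_of_pos (by norm_num)]; simp
        rw [ENNReal.ofReal_mul (by positivity), h12]
    _ ≤ ENNReal.ofReal D * μ E := by gcongr
    _ = ∫⁻ _a in E, ENNReal.ofReal D ∂μ := by rw [setLIntegral_const]
    _ ≤ ∫⁻ a in E, ((edgeGraph a).ediam : ENNReal) ∂μ := setLIntegral_mono' hEm hon
    _ ≤ ∫⁻ a, ((edgeGraph a).ediam : ENNReal) ∂μ := setLIntegral_le_lintegral _ _

end Pool.Agent.H.MP_0cad2f_co.helper11
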