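import Pool.Agent.H.MP_0cad2f_co.helper11.Law
import Pool.Agent.H.MP_0cad2f_co.helper11.Ball

/-!
A net on the sphere, and the lower event: every net direction has a far perturbed point.
-/

set_option autoImplicit false

namespace Pool.Agent.H.MP_0cad2f_co.helper11

open MeasureTheory ProbabilityTheory Finset
open scoped NNReal ENNReal

variable {d : ℕ}

/-- Normalisation of a vector. -/
noncomputable def unitOf (o : Fin d) (z : Fin d → ℝ) : Fin d → ℝ :=
  if ‖toE z‖ = 0 then Pi.single o 1 else fun t => ‖toE z‖⁻¹ * z t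

theorem norm_single (o : Fin d) : ‖toE (Pi.single o (1 : ℝ))‖ = 1 := by
  have : toE (Pi.single o (1 : ℝ)) = EuclideanSpace.single o (1 : ℝ) := rfl
  rw [this]; simp

theorem unitOf_norm (o : Fin d) (z : Fin d → ℝ) : ‖toE (unitOf o z)‖ = 1 := by
  unfold unitOf
  split_ifs with h
  · exact norm_single o
  · have : toE (fun t => ‖toE z‖⁻¹ * z t) = ‖toE z‖⁻¹ • toE z := by ext t; simp
    rw [this, norm_smul, norm_inv, norm_norm, inv_mul_cancel₀ h]

theorem unitOf_near (o : Fin d) (z y : Fin d → ℝ) (hy : ‖toE y‖ = 1) :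
    ‖toE (unitOf o z) - toE y‖ ≤ 2 * ‖toE z - toE y‖ := by
  by_cases h : ‖toE z‖ = 0
  · have h0 : toE z = 0 := norm_eq_zero.mp h
    rw [h0, zero_sub, norm_neg, hy]
    refine (norm_sub_le _ _).trans ?_
    rw [unitOf_norm, hy]; norm_num
  · have h1 : toE (unitOf o z) = ‖toE z‖⁻¹ • toE z := by
      unfold unitOf
      rw [if_neg h]
      ext t; simp
    have h2 : ‖toE (unitOf o z) - toE z‖ ≤ ‖toE z - toE y‖ := by
      have h3 : ‖toE z‖⁻¹ • toE z - toE z = (‖toE z‖⁻¹ - 1) • toE z := by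
        rw [sub_smul, one_smul]
      rw [h1, h3, norm_smul, Real.norm_eq_abs]
      have hpos : 0 < ‖toE z‖ := lt_of_le_of_ne (norm_nonneg _) (Ne.symm h)
      have h4 : |‖toE z‖⁻¹ - 1| * ‖toE z‖ = |1 - ‖toE z‖| := by
        rw [← abs_of_pos hpos, ← abs_mul, sub_mul, abs_of_pos hpos, inv_mul_cancel₀ h, one_mul]
      rw [h4, ← hy, abs_sub_comm]
      exact abs_norm_sub_norm_le _ _
    calc ‖toE (unitOf o z) - toE y‖ = ‖(toE (unitOf o z) - toE z) + (toE z - toE y)‖ := by
          congr 1; abel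
      _ ≤ ‖toE (unitOf o z) - toE z‖ + ‖toE z - toE y‖ := norm_add_le _ _
      _ ≤ 2 * ‖toE z - toE y‖ := by linarith

theorem norm_le_of_coord (z : Fin d → ℝ) {h : ℝ} (hh : 0 ≤ h) (hz : ∀ t, |z t| ≤ h) :
    ‖toE z‖ ≤ h * Real.sqrt d := by
  rw [EuclideanSpace.norm_eq]
  have h1 : ∑ t, ‖(toE z) t‖ ^ 2 ≤ h ^ 2 * d := by
    calc ∑ t, ‖(toE z) t‖ ^ 2 ≤ ∑ _t : Fin d, h ^ 2 := by
          apply sum_le_sum
          intro t _
          exact pow_le_pow_left₀ (norm_nonneg _) (hz t) 2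
      _ = h ^ 2 * d := by simp [mul_comm]
  calc Real.sqrt (∑ t, ‖(toE z) t‖ ^ 2) ≤ Real.sqrt (h ^ 2 * d) := Real.sqrt_le_sqrt h1
    _ = h * Real.sqrt d := by rw [Real.sqrt_mul (sq_nonneg h), Real.sqrt_sq hh]

/-- A net on the unit sphere with `G ^ d` points. -/
theorem exists_net (o : Fin d) {h : ℝ} (hh : 0 < h) {G : ℕ} (hG : 2 < h * G) :
    ∃ Y : Fin (G ^ d) → Fin d → ℝ, (∀ k, ‖toE (Y k)‖ = 1) ∧
      ∀ y : Fin d → ℝ, ‖toE y‖ = 1 → ∃ k, ‖toE (Y k) - toE y‖ ≤ 2 * (h * Real.sqrt d) := by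
  refine ⟨fun k => unitOf o fun j => -1 + h * ((finFunctionFinEquiv.symm k j : Fin G) : ℕ),
    fun k => unitOf_norm _ _, ?_⟩
  intro y hy
  have hy1 : ∀ t, |y t| ≤ 1 := fun t => (abs_le_norm y t).trans hy.le
  have hK : ∀ j, ⌊(y j + 1) / h⌋₊ < G := by
    intro j
    rw [Nat.floor_lt (div_nonneg (by linarith [(abs_le.mp (hy1 j)).1]) hh.le), div_lt_iff₀ hh]
    linarith [(abs_le.mp (hy1 j)).2]
  refine ⟨finFunctionFinEquiv fun j => ⟨⌊(y j + 1) / h⌋₊, hK j⟩, ?_⟩
  refine (unitOf_near o _ y hy).trans ?_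
  apply mul_le_mul_of_nonneg_left _ (by norm_num)
  simp only [Equiv.symm_apply_apply]
  have h1 := norm_le_of_coord
    (fun j => (-1 + h * ((⌊(y j + 1) / h⌋₊ : ℕ) : ℝ)) - y j) hh.le (by
      intro j
      have h2 : 0 ≤ (y j + 1) / h :=
        div_nonneg (by linarith [(abs_le.mp (hy1 j)).1]) hh.le
      have h3 := Nat.floor_le h2
      have h4 := Nat.lt_floor_add_one ((y j + 1) / h)
      rw [le_div_iff₀ hh] at h3
      rw [div_lt_iff₀ hh] at h4
      rw [abs_le]
      constructor <;> nlinarith)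
  exact h1

/-- The number of indices in a residue class. -/
theorem card_class {n m : ℕ} (hm : 0 < m) (k : Fin m) :
    n / m ≤ (univ.filter fun i : Fin n => (i : ℕ) % m = k).card := by
  have hlt : ∀ r : Fin (n / m), (r : ℕ) * m + k < n := by
    intro r
    have h1 : (r : ℕ) + 1 ≤ n / m := r.isLt
    calc (r : ℕ) * m + k < (r : ℕ) * m + m := by omega
      _ = ((r : ℕ) + 1) * m := by ring
      _ ≤ n / m * m := Nat.mul_le_mul_right _ h1
      _ ≤ n := Nat.div_mul_le_self n m
  calc n / m = (univ : Finset (Fin (n / m))).card := by simp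
    _ = (univ.image fun r : Fin (n / m) => (⟨(r : ℕ) * m + k, hlt r⟩ : Fin n)).card := by
        rw [card_image_of_injective]
        intro r r' hrr
        have h1 := congrArg Fin.val hrr
        simp only at h1
        have h2 : (r : ℕ) * m = (r' : ℕ) * m := by omega
        exact Fin.ext (Nat.eq_of_mul_eq_mul_right hm h2)
    _ ≤ _ := by
        apply card_le_card
        intro i hi
        rw [mem_image] at hi
        obtain ⟨r, _, rfl⟩ := hi
        rw [mem_filter]
        refine ⟨mem_univ _, ?_⟩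
        simp only
        rw [add_comm, Nat.add_mul_mod_self_right]
        exact Nat.mod_eq_of_lt k.isLt

/-- The centres: the net points in turn. -/
def clus {n m : ℕ} (hm : 0 < m) (Y : Fin m → Fin d → ℝ) (i : Fin n) : Fin d → ℝ :=
  Y ⟨(i : ℕ) % m, Nat.mod_lt _ hm⟩

theorem lower_event {n m : ℕ} (hm : 0 < m) (Y : Fin m → Fin d → ℝ) (hY : ∀ k, ‖toE (Y k)‖ = 1)
    {σ t : ℝ} (hσ : 0 < σ) (ht : 1 ≤ t)
    (hp : Real.exp (-(Real.exp (-(t ^ 2 / 2)) / (12 * t)) * (n / m : ℕ)) ≤ 1 / (4 * m)) :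
    (Measure.pi fun i : Fin n => Measure.pi fun j : Fin d =>
      gaussianReal (clus hm Y i j) (Real.toNNReal (σ ^ 2)))
      {a | ∃ k : Fin m, ∀ i : Fin n, (i : ℕ) % m = k → ∑ j, a i j * Y k j < 1 + σ * t} ≤
      ENNReal.ofReal (1 / 4) := by
  set p : ℝ := Real.exp (-(t ^ 2 / 2)) / (12 * t) with hpdef
  have hp0 : 0 < p := by rw [hpdef]; positivity
  set μ := Measure.pi fun i : Fin n => Measure.pi fun j : Fin d =>
    gaussianReal (clus hm Y i j) (Real.toNNReal (σ ^ 2)) with hμ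
  have hm' : (0 : ℝ) < m := by exact_mod_cast hm
  have hbad : ∀ k : Fin m, μ {a | ∀ i : Fin n, (i : ℕ) % m = k →
      ∑ j, a i j * Y k j < 1 + σ * t} ≤ ENNReal.ofReal (1 / (4 * m)) := by
    intro k
    have hset : {a : Fin n → Fin d → ℝ | ∀ i : Fin n, (i : ℕ) % m = k →
        ∑ j, a i j * Y k j < 1 + σ * t} =
        Set.pi Set.univ (fun i : Fin n => if (i : ℕ) % m = k then
          {b : Fin d → ℝ | ∑ j, b j * Y k j < 1 + σ * t} else Set.univ) := by
      ext a
      simp only [Set.mem_ofPred_eq, Set.mem_pi, Set.mem_univ, true_implies]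
      refine forall_congr' fun i => ?_
      by_cases hi : (i : ℕ) % m = k
      · simp [hi]
      · simp [hi]
    rw [hset, hμ, Measure.pi_pi]
    have hq : ∀ i : Fin n, (i : ℕ) % m = k →
        (Measure.pi fun j : Fin d => gaussianReal (clus hm Y i j) (Real.toNNReal (σ ^ 2)))
          {b : Fin d → ℝ | ∑ j, b j * Y k j < 1 + σ * t} ≤ ENNReal.ofReal (Real.exp (-p)) := by
      intro i hi
      have hci : ∀ j, clus hm Y i j = Y k j := by
        intro j
        unfold clus
        congr 2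
      simp only [hci]
      have hmeas : Measurable (fun b : Fin d → ℝ => ∑ j, b j * Y k j) := by fun_prop
      have hn2 : ∑ j, Y k j * Y k j = 1 := by
        rw [← toE_inner, real_inner_self_eq_norm_sq, hY k]; norm_num
      have hnsq : nsq (Y k) = 1 := by
        rw [← NNReal.coe_inj, nsq_coe, NNReal.coe_one, ← hn2]
        exact sum_congr rfl fun j _ => by ring
      have h1 : (Measure.pi fun j : Fin d => gaussianReal (Y k j) (Real.toNNReal (σ ^ 2)))
          {b : Fin d → ℝ | ∑ j, b j * Y k j < 1 + σ * t} =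
          gaussianReal 1 (Real.toNNReal (σ ^ 2)) (Set.Iio (1 + σ * t)) := by
        have h2 := law (Y k) (Y k) (Real.toNNReal (σ ^ 2))
        rw [hn2, hnsq, mul_one] at h2
        rw [← h2, Measure.map_apply hmeas measurableSet_Iio]
        rfl
      rw [h1]
      have h3 := tail_lower 1 hσ ht
      rw [← hpdef] at h3
      have h4 : gaussianReal 1 (Real.toNNReal (σ ^ 2)) (Set.Iio (1 + σ * t)) =
          1 - gaussianReal 1 (Real.toNNReal (σ ^ 2)) {x | 1 + σ * t ≤ x} := by
        have h5 : Set.Iio (1 + σ * t) = {x | 1 + σ * t ≤ x}ᶜ := by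
          ext x; simp
        have h6 : MeasurableSet {x : ℝ | 1 + σ * t ≤ x} := measurableSet_Ici
        rw [h5, prob_compl_eq_one_sub h6]
      rw [h4]
      calc 1 - gaussianReal 1 (Real.toNNReal (σ ^ 2)) {x | 1 + σ * t ≤ x}
          ≤ 1 - ENNReal.ofReal p := tsub_le_tsub_left h3 1
        _ = ENNReal.ofReal (1 - p) := by
            rw [ENNReal.ofReal_sub _ hp0.le, ENNReal.ofReal_one]
        _ ≤ ENNReal.ofReal (Real.exp (-p)) :=
            ENNReal.ofReal_le_ofReal (by linarith [Real.add_one_le_exp (-p)])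
    have hprod : ∏ i : Fin n, (Measure.pi fun j : Fin d =>
        gaussianReal (clus hm Y i j) (Real.toNNReal (σ ^ 2)))
          (if (i : ℕ) % m = k then {b : Fin d → ℝ | ∑ j, b j * Y k j < 1 + σ * t}
            else Set.univ) ≤
        ∏ i : Fin n, if (i : ℕ) % m = k then ENNReal.ofReal (Real.exp (-p)) else 1 := by
      apply Finset.prod_le_prod'
      intro i _
      by_cases hi : (i : ℕ) % m = k
      · rw [if_pos hi, if_pos hi]
        exact hq i hi
      · rw [if_neg hi, if_neg hi]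
        exact prob_le_one
    refine hprod.trans ?_
    rw [Finset.prod_ite, Finset.prod_const, Finset.prod_const_one, mul_one,
      ← ENNReal.ofReal_pow (Real.exp_pos _).le]
    apply ENNReal.ofReal_le_ofReal
    refine le_trans ?_ hp
    rw [← Real.exp_nat_mul]
    apply Real.exp_le_exp.mpr
    have h1 := card_class (n := n) hm k
    have h2 : ((n / m : ℕ) : ℝ) ≤
        ((univ.filter fun i : Fin n => (i : ℕ) % m = k).card : ℝ) := by exact_mod_cast h1
    nlinarith
  have h1 : {a : Fin n → Fin d → ℝ | ∃ k : Fin m, ∀ i : Fin n, (i : ℕ) % m = k →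
      ∑ j, a i j * Y k j < 1 + σ * t} ⊆
      ⋃ k : Fin m, {a | ∀ i : Fin n, (i : ℕ) % m = k → ∑ j, a i j * Y k j < 1 + σ * t} := by
    rintro a ⟨k, hk⟩
    exact Set.mem_iUnion.mpr ⟨k, hk⟩
  refine (measure_mono h1).trans ((measure_iUnion_fintype_le μ _).trans ?_)
  refine (Finset.sum_le_sum fun k _ => hbad k).trans ?_
  rw [Finset.sum_const, Finset.card_univ, Fintype.card_fin, nsmul_eq_mul,
    ← ENNReal.ofReal_natCast, ← ENNReal.ofReal_mul (by positivity)]
  apply le_of_eq
  congr 1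
  field_simp

end Pool.Agent.H.MP_0cad2f_co.helper11
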