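import Mathlib

/-!
Upper tail of the norm of a Gaussian vector whose mean has norm at most `1`.
-/

set_option autoImplicit false

namespace Pool.Agent.H.MP_0cad2f_co.helper11

open MeasureTheory ProbabilityTheory
open scoped NNReal ENNReal

theorem sq_mul_pdf (m x : ℝ) {v u : ℝ≥0} (hv : v ≠ 0) (hu : u ≠ 0) :
    gaussianPDFReal m v x * Real.exp ((1 - u) / (2 * v) * x ^ 2) =
      ((Real.sqrt u)⁻¹ * Real.exp ((1 - u) / (2 * v) * m ^ 2 / u)) *
        gaussianPDFReal (m / u) (v / u) x := by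
  have hv' : (0 : ℝ) < v := by positivity
  have hu' : (0 : ℝ) < u := by positivity
  rw [gaussianPDFReal, gaussianPDFReal]
  have h1 : Real.sqrt (2 * Real.pi * ((v / u : ℝ≥0) : ℝ)) =
      Real.sqrt (2 * Real.pi * v) / Real.sqrt u := by
    rw [← Real.sqrt_div (by positivity)]
    congr 1
    push_cast
    ring
  rw [h1, inv_div]
  have h2 : Real.exp (-(x - m) ^ 2 / (2 * (v : ℝ))) * Real.exp ((1 - u) / (2 * v) * x ^ 2) =
      Real.exp ((1 - u) / (2 * v) * m ^ 2 / u) *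
        Real.exp (-(x - m / u) ^ 2 / (2 * ((v / u : ℝ≥0) : ℝ))) := by
    rw [← Real.exp_add, ← Real.exp_add]
    congr 1
    push_cast
    field_simp
    ring
  have hsu : 0 < Real.sqrt (u : ℝ) := Real.sqrt_pos.mpr hu'
  calc (Real.sqrt (2 * Real.pi * v))⁻¹ * Real.exp (-(x - m) ^ 2 / (2 * (v : ℝ))) *
        Real.exp ((1 - u) / (2 * v) * x ^ 2)
      = (Real.sqrt (2 * Real.pi * v))⁻¹ * (Real.exp (-(x - m) ^ 2 / (2 * (v : ℝ))) *
        Real.exp ((1 - u) / (2 * v) * x ^ 2)) := by ring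
    _ = _ := by
      rw [h2]
      field_simp

theorem integrable_sq (m : ℝ) {v u : ℝ≥0} (hv : v ≠ 0) (hu : u ≠ 0) :
    Integrable (fun x => Real.exp ((1 - u) / (2 * v) * x ^ 2)) (gaussianReal m v) := by
  rw [gaussianReal_of_var_ne_zero _ hv]
  rw [integrable_withDensity_iff_integrable_smul' (measurable_gaussianPDF m v)
    (ae_of_all _ fun _ => gaussianPDF_lt_top)]
  have : (fun x => (gaussianPDF m v x).toReal • Real.exp ((1 - u) / (2 * v) * x ^ 2)) =
      fun x => ((Real.sqrt u)⁻¹ * Real.exp ((1 - u) / (2 * v) * m ^ 2 / u)) *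
        gaussianPDFReal (m / u) (v / u) x := by
    ext x
    rw [toReal_gaussianPDF, smul_eq_mul, sq_mul_pdf m x hv hu]
  rw [this]
  exact (integrable_gaussianPDFReal (m / u) (v / u)).const_mul _

theorem integral_sq (m : ℝ) {v u : ℝ≥0} (hv : v ≠ 0) (hu : u ≠ 0) :
    ∫ x, Real.exp ((1 - u) / (2 * v) * x ^ 2) ∂(gaussianReal m v) =
      (Real.sqrt u)⁻¹ * Real.exp ((1 - u) / (2 * v) * m ^ 2 / u) := by
  rw [integral_gaussianReal_eq_integral_smul hv]
  have : (fun x => gaussianPDFReal m v x • Real.exp ((1 - u) / (2 * v) * x ^ 2)) =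
      fun x => ((Real.sqrt u)⁻¹ * Real.exp ((1 - u) / (2 * v) * m ^ 2 / u)) *
        gaussianPDFReal (m / u) (v / u) x := by
    ext x
    rw [smul_eq_mul, sq_mul_pdf m x hv hu]
  rw [this, integral_const_mul, integral_gaussianPDFReal_eq_one _ (by positivity), mul_one]

theorem sq_tail {d : ℕ} (m : Fin d → ℝ) {v u : ℝ≥0} (hv : v ≠ 0) (hu : u ≠ 0)
    (hu1 : u ≤ 1) (F : ℝ) :
    (Measure.pi fun j => gaussianReal (m j) v).real {x | F ≤ ∑ j, (x j) ^ 2} ≤
      (Real.sqrt u)⁻¹ ^ d * Real.exp ((1 - u) / (2 * v) * ((∑ j, m j ^ 2) / u - F)) := by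
  have hv' : (0 : ℝ) < v := by positivity
  have hu' : (0 : ℝ) < u := by positivity
  have hu1' : (u : ℝ) ≤ 1 := by exact_mod_cast hu1
  have hlam : 0 ≤ (1 - (u : ℝ)) / (2 * v) := div_nonneg (by linarith) (by positivity)
  set ν := Measure.pi fun j => gaussianReal (m j) v with hν
  have hint : Integrable (fun x : Fin d → ℝ =>
      ∏ j, Real.exp ((1 - u) / (2 * v) * (x j) ^ 2)) ν :=
    Integrable.fintype_prod (f := fun _ x => Real.exp ((1 - u) / (2 * v) * x ^ 2))
      fun j => integrable_sq (m j) hv hu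
  have hval : ∫ x : Fin d → ℝ, ∏ j, Real.exp ((1 - u) / (2 * v) * (x j) ^ 2) ∂ν =
      (Real.sqrt u)⁻¹ ^ d * Real.exp ((1 - u) / (2 * v) * ((∑ j, m j ^ 2) / u)) := by
    rw [hν, integral_fintype_prod_eq_prod
      (f := fun _ x => Real.exp ((1 - u) / (2 * v) * x ^ 2))]
    simp only [integral_sq _ hv hu]
    rw [Finset.prod_mul_distrib, Finset.prod_const, Finset.card_univ, Fintype.card_fin,
      ← Real.exp_sum]
    congr 2
    rw [Finset.sum_div, Finset.mul_sum]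
    exact Finset.sum_congr rfl fun j _ => by ring
  have hmark := mul_meas_ge_le_integral_of_nonneg
    (μ := ν) (f := fun x : Fin d → ℝ => ∏ j, Real.exp ((1 - u) / (2 * v) * (x j) ^ 2))
    (ae_of_all _ fun x => Finset.prod_nonneg fun j _ => (Real.exp_pos _).le) hint
    (Real.exp ((1 - u) / (2 * v) * F))
  rw [hval] at hmark
  have hset : ν.real {x : Fin d → ℝ | F ≤ ∑ j, (x j) ^ 2} ≤
      ν.real {x | Real.exp ((1 - u) / (2 * v) * F) ≤
        ∏ j, Real.exp ((1 - u) / (2 * v) * (x j) ^ 2)} := by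
    refine measureReal_mono ?_
    intro x hx
    simp only [Set.mem_ofPred_eq] at hx ⊢
    rw [← Real.exp_sum, Real.exp_le_exp, ← Finset.mul_sum]
    exact mul_le_mul_of_nonneg_left hx hlam
  refine hset.trans ?_
  have hE := Real.exp_pos ((1 - (u : ℝ)) / (2 * v) * F)
  rw [mul_sub, Real.exp_sub, ← mul_div_assoc, le_div_iff₀ hE, mul_comm]
  exact hmark

/-- Upper tail: mean of norm at most one. -/
theorem upper_tail {d : ℕ} (m : Fin d → ℝ) (hm : ∑ j, m j ^ 2 ≤ 1) {σ T : ℝ} (hσ : 0 < σ)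
    (hT : 0 ≤ T) :
    (Measure.pi fun j => gaussianReal (m j) (Real.toNNReal (σ ^ 2))).real
      {x | (1 + σ * T) ^ 2 ≤ ∑ j, (x j) ^ 2} ≤ Real.exp (-(T * (T - d * σ) / 2)) := by
  have hv : (Real.toNNReal (σ ^ 2) : ℝ) = σ ^ 2 := Real.coe_toNNReal _ (sq_nonneg σ)
  have hv0 : Real.toNNReal (σ ^ 2) ≠ 0 := by
    intro h0
    rw [h0] at hv
    have := pow_pos hσ 2
    simp at hv
    rw [← hv] at this
    simp at this
  have hST : 0 ≤ σ * T := mul_nonneg hσ.le hT
  set u : ℝ≥0 := Real.toNNReal (1 / (1 + σ * T)) with hu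
  have huc : (u : ℝ) = 1 / (1 + σ * T) := Real.coe_toNNReal _ (by positivity)
  have hu0 : u ≠ 0 := by
    intro h0
    rw [h0] at huc
    have : 0 < 1 / (1 + σ * T) := by positivity
    rw [← huc] at this
    simp at this
  have hu1 : u ≤ 1 := by
    rw [← NNReal.coe_le_coe, huc, NNReal.coe_one, div_le_one (by linarith)]
    linarith
  refine (sq_tail m hv0 hu0 hu1 ((1 + σ * T) ^ 2)).trans ?_
  rw [huc, hv]
  have h1 : (Real.sqrt (1 / (1 + σ * T)))⁻¹ ^ d ≤ Real.exp (d * (σ * T) / 2) := by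
    have h2 : (Real.sqrt (1 / (1 + σ * T)))⁻¹ = Real.sqrt (1 + σ * T) := by
      rw [one_div, Real.sqrt_inv, inv_inv]
    rw [h2]
    have h3 : Real.sqrt (1 + σ * T) ≤ Real.exp (σ * T / 2) := by
      rw [Real.sqrt_le_left (Real.exp_pos _).le, ← Real.exp_nat_mul]
      have := Real.add_one_le_exp (σ * T)
      have h4 : ((2 : ℕ) : ℝ) * (σ * T / 2) = σ * T := by push_cast; ring
      rw [h4]
      linarith
    calc Real.sqrt (1 + σ * T) ^ d ≤ Real.exp (σ * T / 2) ^ d :=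
          pow_le_pow_left₀ (Real.sqrt_nonneg _) h3 d
      _ = Real.exp (d * (σ * T) / 2) := by rw [← Real.exp_nat_mul]; ring_nf
  have h2 : (1 - 1 / (1 + σ * T)) / (2 * σ ^ 2) *
      ((∑ j, m j ^ 2) / (1 / (1 + σ * T)) - (1 + σ * T) ^ 2) ≤ -(T ^ 2 / 2) := by
    have h3 : (1 - 1 / (1 + σ * T)) / (2 * σ ^ 2) = T / (2 * σ * (1 + σ * T)) := by
      field_simp
      ring
    rw [h3]
    have h4 : (∑ j, m j ^ 2) / (1 / (1 + σ * T)) - (1 + σ * T) ^ 2 ≤
        -(σ * T) * (1 + σ * T) := by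
      rw [div_div_eq_mul_div, div_one]
      have : (∑ j, m j ^ 2) * (1 + σ * T) ≤ 1 * (1 + σ * T) :=
        mul_le_mul_of_nonneg_right hm (by linarith)
      nlinarith
    have h5 : 0 ≤ T / (2 * σ * (1 + σ * T)) := by positivity
    calc T / (2 * σ * (1 + σ * T)) * ((∑ j, m j ^ 2) / (1 / (1 + σ * T)) - (1 + σ * T) ^ 2)
        ≤ T / (2 * σ * (1 + σ * T)) * (-(σ * T) * (1 + σ * T)) :=
          mul_le_mul_of_nonneg_left h4 h5
      _ = -(T ^ 2 / 2) := by field_simp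
  calc (Real.sqrt (1 / (1 + σ * T)))⁻¹ ^ d * Real.exp ((1 - 1 / (1 + σ * T)) / (2 * σ ^ 2) *
        ((∑ j, m j ^ 2) / (1 / (1 + σ * T)) - (1 + σ * T) ^ 2))
      ≤ Real.exp (d * (σ * T) / 2) * Real.exp (-(T ^ 2 / 2)) :=
        mul_le_mul h1 (Real.exp_le_exp.mpr h2) (Real.exp_pos _).le (Real.exp_pos _).le
    _ = Real.exp (-(T * (T - d * σ) / 2)) := by
        rw [← Real.exp_add]; ring_nf

/-- All perturbed points lie in a ball with probability at least `3 / 4`. -/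
theorem upper_event {n d : ℕ} (hn : 1 ≤ n) (c : Fin n → Fin d → ℝ)
    (hc : ∀ i, ∑ j, c i j ^ 2 ≤ 1) {σ T : ℝ} (hσ : 0 < σ)
    (hT : T = Real.sqrt (2 * Real.log (4 * n)) + d * σ) :
    (Measure.pi fun i : Fin n => Measure.pi fun j : Fin d =>
      gaussianReal (c i j) (Real.toNNReal (σ ^ 2)))
      {a | ∃ i, (1 + σ * T) ^ 2 ≤ ∑ j, (a i j) ^ 2} ≤ ENNReal.ofReal (1 / 4) := by
  set μ := Measure.pi fun i : Fin n => Measure.pi fun j : Fin d =>
    gaussianReal (c i j) (Real.toNNReal (σ ^ 2)) with hμ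
  have hn' : (1 : ℝ) ≤ n := by exact_mod_cast hn
  have hlog : 0 ≤ Real.log (4 * n) := Real.log_nonneg (by linarith)
  have hT0 : 0 ≤ T := by rw [hT]; positivity
  have hexp : Real.exp (-(T * (T - d * σ) / 2)) ≤ 1 / (4 * n) := by
    have h1 : Real.log (4 * n) ≤ T * (T - d * σ) / 2 := by
      have h2 : T - d * σ = Real.sqrt (2 * Real.log (4 * n)) := by rw [hT]; ring
      rw [h2]
      have h3 : Real.sqrt (2 * Real.log (4 * n)) * Real.sqrt (2 * Real.log (4 * n)) =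
          2 * Real.log (4 * n) := Real.mul_self_sqrt (by positivity)
      have h4 : Real.sqrt (2 * Real.log (4 * n)) ≤ T := by
        rw [hT]
        have : 0 ≤ (d : ℝ) * σ := by positivity
        linarith
      have h5 := mul_le_mul_of_nonneg_right h4 (Real.sqrt_nonneg (2 * Real.log (4 * n)))
      linarith
    calc Real.exp (-(T * (T - d * σ) / 2)) ≤ Real.exp (-Real.log (4 * n)) :=
          Real.exp_le_exp.mpr (by linarith)
      _ = 1 / (4 * n) := by rw [Real.exp_neg, Real.exp_log (by positivity), one_div]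
  have hbad : ∀ i : Fin n, μ {a | (1 + σ * T) ^ 2 ≤ ∑ j, (a i j) ^ 2} ≤
      ENNReal.ofReal (1 / (4 * n)) := by
    intro i
    have hmp := measurePreserving_eval
      (fun i : Fin n => Measure.pi fun j : Fin d =>
        gaussianReal (c i j) (Real.toNNReal (σ ^ 2))) i
    have hms : MeasurableSet {x : Fin d → ℝ | (1 + σ * T) ^ 2 ≤ ∑ j, (x j) ^ 2} := by
      refine measurableSet_le measurable_const ?_
      fun_prop
    have h1 : μ {a | (1 + σ * T) ^ 2 ≤ ∑ j, (a i j) ^ 2} =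
        (Measure.pi fun j : Fin d => gaussianReal (c i j) (Real.toNNReal (σ ^ 2)))
          {x | (1 + σ * T) ^ 2 ≤ ∑ j, (x j) ^ 2} := by
      rw [← hmp.measure_preimage hms.nullMeasurableSet]
      rfl
    rw [h1]
    have h3 := upper_tail (c i) (hc i) hσ hT0
    rw [measureReal_def] at h3
    rw [← ENNReal.ofReal_toReal (measure_ne_top _ _)]
    exact ENNReal.ofReal_le_ofReal (h3.trans hexp)
  have h1 : {a : Fin n → Fin d → ℝ | ∃ i, (1 + σ * T) ^ 2 ≤ ∑ j, (a i j) ^ 2} ⊆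
      ⋃ i : Fin n, {a | (1 + σ * T) ^ 2 ≤ ∑ j, (a i j) ^ 2} := by
    rintro a ⟨i, hi⟩
    exact Set.mem_iUnion.mpr ⟨i, hi⟩
  refine (measure_mono h1).trans ((measure_iUnion_fintype_le μ _).trans ?_)
  refine (Finset.sum_le_sum fun i _ => hbad i).trans ?_
  rw [Finset.sum_const, Finset.card_univ, Fintype.card_fin, nsmul_eq_mul,
    ← ENNReal.ofReal_natCast, ← ENNReal.ofReal_mul (by positivity)]
  apply le_of_eq
  congr 1
  field_simp

end Pool.Agent.H.MP_0cad2f_co.helper11
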