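import Pool.Agent.H.MP_0cad2f_co.helper11.Num
import Pool.Agent.H.MP_0cad2f_co.helper11.Lower
import Pool.Agent.H.MP_0cad2f_co.helper11.Upper
import Pool.Agent.H.MP_0cad2f_co.helper11.Simple

/-!
The expected diameter for clusters of points around a net of the unit sphere.
-/

set_option autoImplicit false

namespace Pool.Agent.H.MP_0cad2f_co.helper11

open MeasureTheory ProbabilityTheory Finset
open scoped NNReal ENNReal

variable {n d m : ℕ} {σ b : ℝ}

/-- On the good event the polytope is close to a ball. -/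
theorem sand_of_good (h : Par d σ (Real.log n) b) (Y : Fin m → Fin d → ℝ)
    (hYnet : ∀ y : Fin d → ℝ, ‖toE y‖ = 1 → ∃ k, ‖toE (Y k) - toE y‖ ≤
      σ / Real.sqrt (Real.log n))
    {a : Fin n → Fin d → ℝ}
    (hup : ¬ ∃ i, (1 + σ * TT d σ (Real.log n)) ^ 2 ≤ ∑ j, (a i j) ^ 2)
    (hlow : ¬ ∃ k : Fin m, ∀ i : Fin n, (i : ℕ) % m = k →
      ∑ j, a i j * Y k j < 1 + σ * tt d (Real.log n) b)
    (hsimple : ∀ u : Vtx a, (tight a u.1).card ≤ d) :
    Sand a (RR d σ (Real.log n) b) (1 + σ * TT d σ (Real.log n))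
      (Real.sqrt (11 * (σ * (d * b) / Real.sqrt (Real.log n)))) (13 / 25) := by
  have hσ := h.pos
  have hr := h.r8
  have hr0 : 0 < Real.sqrt (Real.log n) := by linarith
  have hdb := h.db
  have hTT : 0 ≤ TT d σ (Real.log n) := by unfold TT; positivity
  have hX0 : 0 < 11 * (σ * (d * b) / Real.sqrt (Real.log n)) := by positivity
  have hnorm : ∀ i, ‖toE (a i)‖ ≤ 1 + σ * TT d σ (Real.log n) := by
    intro i
    push Not at hup
    have h1 := (hup i).le
    refine le_of_sq_le_sq ?_ (by positivity)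
    rw [EuclideanSpace.real_norm_sq_eq]
    exact h1
  have hgap : (1 + σ * TT d σ (Real.log n)) ^ 2 - RR d σ (Real.log n) b ^ 2 ≤
      Real.sqrt (11 * (σ * (d * b) / Real.sqrt (Real.log n))) ^ 2 := by
    rw [Real.sq_sqrt hX0.le]
    exact h.gap
  have hone := h.one_le
  refine ⟨h.hd, hnorm, ?_, by linarith, hsimple, Real.sqrt_pos.mpr hX0, hgap, by norm_num,
    key_of_one hone hgap ?_ (Real.sqrt_pos.mpr hX0) (by positivity)⟩
  · intro y hy
    obtain ⟨k, hk⟩ := hYnet y hy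
    push Not at hlow
    obtain ⟨i, -, hi2⟩ := hlow k
    refine ⟨i, ?_⟩
    have h1 : ∑ t, a i t * y t = ∑ t, a i t * Y k t - inner ℝ (toE (a i)) (toE (Y k) - toE y) := by
      rw [inner_sub_right, toE_inner, toE_inner]; ring
    have h2 : inner ℝ (toE (a i)) (toE (Y k) - toE y) ≤ 2 * (σ / Real.sqrt (Real.log n)) := by
      refine (real_inner_le_norm _ _).trans ?_
      refine mul_le_mul ?_ hk (norm_nonneg _) (by norm_num)
      have := hnorm i
      linarith [h.Rp_le]
    rw [h1]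
    unfold RR
    have h3 : σ * (tt d (Real.log n) b - 2 / Real.sqrt (Real.log n)) =
        σ * tt d (Real.log n) b - 2 * (σ / Real.sqrt (Real.log n)) := by ring
    rw [h3]
    linarith
  · rw [Real.sqrt_le_left (by norm_num)]
    exact h.X_le

theorem main2 {n d : ℕ} (hd : 2 ≤ d) {σ : ℝ} (hσ : 0 < σ)
    (hadm : σ ≤ 1 / (6 * Real.sqrt (d * Real.log n)))
    (hbig : 10 * d * Real.log (1 / σ) ≤ Real.log n) :
    ∃ c : Fin n → Fin d → ℝ, (∀ i, ∑ j, (c i j) ^ 2 ≤ 1) ∧
      ENNReal.ofReal (1 / 27 * Real.sqrt (d * Real.sqrt (Real.log n) / (σ * Real.log (1 / σ)))) ≤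
      ∫⁻ a : Fin n → Fin d → ℝ, ((edgeGraph a).ediam : ENNReal)
        ∂(Measure.pi (fun i : Fin n =>
          Measure.pi (fun j : Fin d => gaussianReal (c i j) (Real.toNNReal (σ ^ 2))))) := by
  have hd2 : (2 : ℝ) ≤ d := by exact_mod_cast hd
  have hn : 2 ≤ n := by
    by_contra hcon
    have h0 : Real.log n = 0 := by
      have : n = 0 ∨ n = 1 := by omega
      rcases this with rfl | rfl <;> simp
    rw [h0, mul_zero, Real.sqrt_zero, mul_zero, div_zero] at hadm
    linarith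
  have hn0 : (0 : ℝ) < n := by exact_mod_cast (by omega : 0 < n)
  have hl2 : Real.log 2 ≤ Real.log n := Real.log_le_log (by norm_num) (by exact_mod_cast hn)
  have hl69 : 69 / 100 ≤ Real.log n := by
    have := Real.log_two_gt_d9
    linarith
  set b := Real.log (1 / σ) with hb
  have hP : Par d σ (Real.log n) b := by
    refine ⟨hd, hσ, ?_, hb, by linarith, hl69⟩
    have hs : 0 < Real.sqrt (d * Real.log n) := Real.sqrt_pos.mpr (by positivity)
    rw [le_div_iff₀ (by positivity)] at hadm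
    have h1 : (σ * (6 * Real.sqrt (d * Real.log n))) ^ 2 ≤ 1 := by
      have h0 : 0 ≤ σ * (6 * Real.sqrt (d * Real.log n)) := by positivity
      nlinarith
    have h2 : (σ * (6 * Real.sqrt (d * Real.log n))) ^ 2 =
        36 * (d * Real.log n * σ ^ 2) := by
      rw [mul_pow, mul_pow, Real.sq_sqrt (by positivity)]; ring
    linarith
  have hr := hP.r8
  have hr0 : 0 < Real.sqrt (Real.log n) := by linarith
  have hsd : 0 < Real.sqrt d := Real.sqrt_pos.mpr (by linarith)
  -- the net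
  set hh := σ / (2 * (Real.sqrt (Real.log n) * Real.sqrt d)) with hhdef
  have hh0 : 0 < hh := by rw [hhdef]; positivity
  set G : ℕ := ⌊2 / hh⌋₊ + 1 with hGdef
  have hGlt : 2 < hh * G := by
    have h1 : 2 / hh < G := by
      rw [hGdef]; push_cast; exact Nat.lt_floor_add_one _
    rw [div_lt_iff₀ hh0] at h1
    linarith
  have hGle : (G : ℝ) ≤ Real.exp (2 * b) := by
    have h1 : (G : ℝ) ≤ 2 / hh + 1 := by
      rw [hGdef]; push_cast
      have := Nat.floor_le (show 0 ≤ 2 / hh by positivity)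
      linarith
    exact h1.trans hP.grid
  have hG1 : 1 ≤ G := by rw [hGdef]; omega
  have hnet0 := exists_net (⟨0, by omega⟩ : Fin d) hh0 hGlt
  obtain ⟨m, hmdef⟩ : ∃ m : ℕ, m = G ^ d := ⟨_, rfl⟩
  rw [← hmdef] at hnet0
  obtain ⟨Y, hY, hYnet⟩ := hnet0
  have hnet : ∀ y : Fin d → ℝ, ‖toE y‖ = 1 → ∃ k, ‖toE (Y k) - toE y‖ ≤
      σ / Real.sqrt (Real.log n) := by
    intro y hy
    obtain ⟨k, hk⟩ := hYnet y hy
    refine ⟨k, hk.trans (le_of_eq ?_)⟩
    rw [hhdef]
    field_simp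
  have hm : 0 < m := by rw [hmdef]; exact Nat.pow_pos hG1
  have hm1 : (1 : ℝ) ≤ m := by exact_mod_cast hm
  have hmle : (m : ℝ) ≤ Real.exp (2 * (d * b)) := by
    rw [hmdef]; push_cast
    calc (G : ℝ) ^ d ≤ Real.exp (2 * b) ^ d := pow_le_pow_left₀ (Nat.cast_nonneg _) hGle d
      _ = Real.exp (2 * (d * b)) := by rw [← Real.exp_nat_mul]; ring_nf
  have hexpn : Real.exp (Real.log n) = n := Real.exp_log hn0
  have hmn : m ≤ n := by
    have h1 : (m : ℝ) ≤ n := by
      rw [← hexpn]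
      refine hmle.trans (Real.exp_le_exp.mpr ?_)
      have h2 := hP.big
      have h3 := hP.db
      linarith
    exact_mod_cast h1
  have hq : Real.exp (Real.log n) ≤ 2 * m * (n / m : ℕ) := by
    rw [hexpn]
    have h1 : 1 ≤ n / m := Nat.div_pos hmn hm
    have h2 : n < m * (n / m + 1) := Nat.lt_mul_div_succ n hm
    have h3 : m * (n / m + 1) ≤ m * (2 * (n / m)) := Nat.mul_le_mul_left _ (by omega)
    have h4 : n ≤ m * (2 * (n / m)) := by omega
    have h5 : (n : ℝ) ≤ m * (2 * ((n / m : ℕ) : ℝ)) := by exact_mod_cast h4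
    linarith
  have hcount := hP.count hm1 hmle hq
  refine ⟨clus hm Y, ?_, ?_⟩
  · intro i
    have h1 := hY ⟨(i : ℕ) % m, Nat.mod_lt _ hm⟩
    have h2 : ∑ j, (clus hm Y i j) ^ 2 = ‖toE (Y ⟨(i : ℕ) % m, Nat.mod_lt _ hm⟩)‖ ^ 2 := by
      rw [EuclideanSpace.real_norm_sq_eq]; rfl
    rw [h2, h1]; norm_num
  set μ := Measure.pi fun i : Fin n => Measure.pi fun j : Fin d =>
    gaussianReal (clus hm Y i j) (Real.toNNReal (σ ^ 2)) with hμ
  have hprob : IsProbabilityMeasure μ := by rw [hμ]; infer_instance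
  have hvr : (Real.toNNReal (σ ^ 2) : ℝ) = σ ^ 2 := Real.coe_toNNReal _ (sq_nonneg σ)
  have hv0 : Real.toNNReal (σ ^ 2) ≠ 0 := by
    intro h0
    have : (Real.toNNReal (σ ^ 2) : ℝ) = 0 := by rw [h0]; simp
    rw [hvr] at this
    have := pow_pos hσ 2
    linarith
  set U : Set (Fin n → Fin d → ℝ) :=
    {a | ∃ i, (1 + σ * TT d σ (Real.log n)) ^ 2 ≤ ∑ j, (a i j) ^ 2} with hU
  set W : Set (Fin n → Fin d → ℝ) := {a | ∃ k : Fin m, ∀ i : Fin n, (i : ℕ) % m = k →
    ∑ j, a i j * Y k j < 1 + σ * tt d (Real.log n) b} with hW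
  have hUm : MeasurableSet U := by
    rw [hU, Set.ofPred_exists]
    refine MeasurableSet.iUnion fun i => measurableSet_le measurable_const ?_
    fun_prop
  have hWm : MeasurableSet W := by
    rw [hW, Set.ofPred_exists]
    refine MeasurableSet.iUnion fun k => ?_
    rw [Set.ofPred_forall]
    refine MeasurableSet.iInter fun i => ?_
    by_cases hi : (i : ℕ) % m = k
    · simp only [hi, true_implies]
      refine measurableSet_lt ?_ measurable_const
      fun_prop
    · simp only [hi, false_implies]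
      exact MeasurableSet.univ
  have hUle : μ U ≤ ENNReal.ofReal (1 / 4) := by
    refine upper_event (by omega) (clus hm Y) ?_ hσ ?_
    · intro i
      have h1 := hY ⟨(i : ℕ) % m, Nat.mod_lt _ hm⟩
      have h2 : ∑ j, (clus hm Y i j) ^ 2 = ‖toE (Y ⟨(i : ℕ) % m, Nat.mod_lt _ hm⟩)‖ ^ 2 := by
        rw [EuclideanSpace.real_norm_sq_eq]; rfl
      rw [h2, h1]; norm_num
    · unfold TT
      rw [Real.log_mul (by norm_num) hn0.ne']
  have hWle : μ W ≤ ENNReal.ofReal (1 / 4) := lower_event hm Y hY hσ hP.tt_one hcount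
  set E : Set (Fin n → Fin d → ℝ) := (U ∪ W)ᶜ with hE
  have hEm : MeasurableSet E := (hUm.union hWm).compl
  have hEprob : (1 / 2 : ℝ≥0∞) ≤ μ E := by
    have h1 : μ (U ∪ W) ≤ 1 / 2 := by
      refine (measure_union_le U W).trans ((add_le_add hUle hWle).trans (le_of_eq ?_))
      rw [← ENNReal.ofReal_add (by norm_num) (by norm_num)]
      rw [show (1 / 4 + 1 / 4 : ℝ) = 1 / 2 by norm_num, ENNReal.ofReal_div_of_pos (by norm_num)]
      simp
    have h2 : μ (U ∪ W) + μ E = 1 := prob_add_prob_compl (hUm.union hWm)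
    by_contra hlt
    rw [not_le] at hlt
    have h3 : μ (U ∪ W) + μ E < 1 / 2 + 1 / 2 := by
      rw [add_comm (μ (U ∪ W))]
      exact ENNReal.add_lt_add_of_lt_of_le (measure_ne_top _ _) hlt h1
    rw [h2, ENNReal.add_halves] at h3
    exact lt_irrefl _ h3
  set D : ℝ := d / (4 * Real.sqrt (11 * (σ * (d * b) / Real.sqrt (Real.log n)))) with hD
  have hae : ∀ᵐ a ∂μ, a ∈ E → ENNReal.ofReal D ≤ ((edgeGraph a).ediam : ENNReal) := by
    filter_upwards [ae_simple (by omega) (clus hm Y) hv0] with a ha haE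
    have h1 : a ∉ U := fun h => haE (Or.inl h)
    have h2 : a ∉ W := fun h => haE (Or.inr h)
    refine le_trans (ENNReal.ofReal_le_ofReal ?_) (sand_of_good hP Y hnet h1 h2 ha).ediam_ge
    have hdb := hP.db
    set ρ := Real.sqrt (11 * (σ * (d * b) / Real.sqrt (Real.log n))) with hρ
    have hρ0 : 0 < ρ := Real.sqrt_pos.mpr (by positivity)
    rw [hD, div_le_div_iff₀ (by positivity) (by positivity)]
    have h3 : 0 ≤ (d : ℝ) * ρ := by positivity
    linarith
  have hD0 : 0 ≤ D := by rw [hD]; positivity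
  calc ENNReal.ofReal (1 / 27 * Real.sqrt (d * Real.sqrt (Real.log n) / (σ * b)))
      ≤ ENNReal.ofReal (D * (1 / 2)) := ENNReal.ofReal_le_ofReal hP.final
    _ = ENNReal.ofReal D * (1 / 2) := by
        have h12 : ENNReal.ofReal (1 / 2) = 1 / 2 := by
          rw [ENNReal.ofReal_div_of_pos (by norm_num)]; simp
        rw [ENNReal.ofReal_mul hD0, h12]
    _ ≤ ENNReal.ofReal D * μ E := by gcongr
    _ = ∫⁻ _a in E, ENNReal.ofReal D ∂μ := by rw [setLIntegral_const]
    _ ≤ ∫⁻ a in E, ((edgeGraph a).ediam : ENNReal) ∂μ := setLIntegral_mono_ae' hEm hae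
    _ ≤ ∫⁻ a, ((edgeGraph a).ediam : ENNReal) ∂μ := setLIntegral_le_lintegral _ _

end Pool.Agent.H.MP_0cad2f_co.helper11
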