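import Pool.Agent.H.MP_0cad2f_co.helper11.Pack
import Pool.Agent.H.MP_0cad2f_co.helper11.Tail
import Pool.Agent.H.MP_0cad2f_co.helper11.Simple
import Pool.Agent.H.MP_0cad2f_co.helper11.Fin2

/-!
Fewer points: one perturbed point for each point of a net of the sphere.
-/

set_option autoImplicit false

namespace Pool.Agent.H.MP_0cad2f_co.helper11

open MeasureTheory ProbabilityTheory Finset
open scoped NNReal ENNReal

/-- The deterministic part. -/
theorem sand_of_near {n d : ℕ} (hd : 2 ≤ d) {s β : ℝ} (hs : 0 < s) (hs2 : s ≤ 1 / 2)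
    (hβ : 0 ≤ β) (hβ2 : β ≤ 1 / 64) (Y : Fin n → Fin d → ℝ) (hY : ∀ k, ‖toE (Y k)‖ = 1)
    (hYnet : ∀ y : Fin d → ℝ, ‖toE y‖ = 1 → ∃ k, ‖toE (Y k) - toE y‖ ≤ s)
    {a : Fin n → Fin d → ℝ} (hnear : ∀ i, ∑ j, (a i j - Y i j) ^ 2 ≤ β ^ 2)
    (hsimple : ∀ u : Vtx a, (tight a u.1).card ≤ d) :
    Sand a (1 - s ^ 2 / 2 - β) (1 + β) (Real.sqrt (4 * β + s ^ 2)) (1 / 6) := by
  have hdist : ∀ i, ‖toE (a i) - toE (Y i)‖ ≤ β := by
    intro i
    refine le_of_sq_le_sq ?_ hβ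
    rw [EuclideanSpace.real_norm_sq_eq]
    exact hnear i
  have hX : 0 < 4 * β + s ^ 2 := by positivity
  have hs4 : s ^ 2 ≤ 1 / 4 := by nlinarith
  refine ⟨hd, ?_, ?_, by linarith, hsimple, Real.sqrt_pos.mpr hX, ?_, by norm_num, ?_⟩
  · intro i
    calc ‖toE (a i)‖ = ‖(toE (a i) - toE (Y i)) + toE (Y i)‖ := by congr 1; abel
      _ ≤ ‖toE (a i) - toE (Y i)‖ + ‖toE (Y i)‖ := norm_add_le _ _
      _ ≤ 1 + β := by rw [hY i]; linarith [hdist i]
  · intro y hy
    obtain ⟨k, hk⟩ := hYnet y hy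
    refine ⟨k, ?_⟩
    have h1 : ∑ t, a k t * y t = inner ℝ (toE (Y k)) (toE y) +
        inner ℝ (toE (a k) - toE (Y k)) (toE y) := by
      rw [inner_sub_left, toE_inner, toE_inner]; ring
    have h2 : 1 - s ^ 2 / 2 ≤ inner ℝ (toE (Y k)) (toE y) := by
      have h3 := norm_sub_sq_real (toE (Y k)) (toE y)
      rw [hY k, hy] at h3
      have h4 : ‖toE (Y k) - toE y‖ ^ 2 ≤ s ^ 2 := pow_le_pow_left₀ (norm_nonneg _) hk 2
      linarith
    have h3 : -β ≤ inner ℝ (toE (a k) - toE (Y k)) (toE y) := by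
      have h4 := abs_real_inner_le_norm (toE (a k) - toE (Y k)) (toE y)
      rw [hy, mul_one] at h4
      linarith [(abs_le.mp h4).1, hdist k]
    rw [h1]; linarith
  · rw [Real.sq_sqrt hX.le]
    nlinarith [mul_nonneg hβ (sq_nonneg s), sq_nonneg (s ^ 2)]
  · have h1 : Real.sqrt (4 * β + s ^ 2) ≤ 0.5591 := by
      rw [Real.sqrt_le_left (by norm_num)]
      norm_num
      linarith
    have h2 : 0.859 ≤ 1 - s ^ 2 / 2 - β := by norm_num; linarith
    have h3 : (0.859 : ℝ) ^ 2 ≤ (1 - s ^ 2 / 2 - β) ^ 2 := pow_le_pow_left₀ (by norm_num) h2 2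
    have h4 : (65 / 64 : ℝ)⁻¹ ≤ (1 + β)⁻¹ := by
      apply inv_anti₀ (by linarith)
      linarith
    have h5 : (0.859 : ℝ) ^ 2 * (65 / 64 : ℝ)⁻¹ ≤ (1 - s ^ 2 / 2 - β) ^ 2 * (1 + β)⁻¹ :=
      mul_le_mul h3 h4 (by norm_num) (sq_nonneg _)
    have h6 : 1 / 6 + 0.5591 ≤ (0.859 : ℝ) ^ 2 * (65 / 64 : ℝ)⁻¹ := by norm_num
    linarith

theorem main3 {n d : ℕ} (hd : 2 ≤ d) (hn : 5 ^ d ≤ n) {σ : ℝ} (hσ : 0 < σ)
    (hs : σ * Real.sqrt (d + Real.log n) ≤ 1 / 128) :
    ∃ c : Fin n → Fin d → ℝ, (∀ i, ∑ j, (c i j) ^ 2 ≤ 1) ∧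
      ENNReal.ofReal (1 / 91 * (d * min ((n : ℝ) ^ (1 / (d : ℝ)))
        (1 / Real.sqrt (σ * Real.sqrt (d + Real.log n))))) ≤
      ∫⁻ a : Fin n → Fin d → ℝ, ((edgeGraph a).ediam : ENNReal)
        ∂(Measure.pi (fun i : Fin n =>
          Measure.pi (fun j : Fin d => gaussianReal (c i j) (Real.toNNReal (σ ^ 2))))) := by
  have hd2 : (2 : ℝ) ≤ d := by exact_mod_cast hd
  have hd0 : (0 : ℝ) < d := by linarith
  have hn1 : 1 ≤ n := le_trans (Nat.one_le_pow _ _ (by norm_num)) hn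
  have hn1' : (1 : ℝ) ≤ n := by exact_mod_cast hn1
  have hlog : 0 ≤ Real.log n := Real.log_nonneg hn1'
  set L : ℝ := d + Real.log n with hL
  have hLpos : 0 < L := by linarith
  set x : ℝ := (n : ℝ) ^ (1 / (d : ℝ)) with hx
  have hxd : x ^ d = n := by
    rw [hx, ← Real.rpow_natCast, ← Real.rpow_mul (by linarith), one_div,
      inv_mul_cancel₀ hd0.ne', Real.rpow_one]
  have hx5 : 5 ≤ x := by
    have h1 : (5 : ℝ) ^ d ≤ x ^ d := by rw [hxd]; exact_mod_cast hn
    exact le_of_pow_le_pow_left₀ (by omega) (by rw [hx]; positivity) h1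
  have hx0 : 0 < x := by linarith
  set s : ℝ := 5 / (2 * x) with hsdef
  have hs0 : 0 < s := by rw [hsdef]; positivity
  have hs2 : s ≤ 1 / 2 := by
    rw [hsdef, div_le_div_iff₀ (by positivity) (by norm_num)]
    linarith
  have hM : (1 + 2 / s) ^ d ≤ n := by
    have h1 : 1 + 2 / s = 1 + 4 * x / 5 := by
      rw [hsdef]; field_simp; ring
    rw [h1, ← hxd]
    exact pow_le_pow_left₀ (by positivity) (by linarith) d
  obtain ⟨Y, hY, hYnet⟩ := exists_net_vol (⟨0, by omega⟩ : Fin d) hs0 hM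
  set β : ℝ := 2 * σ * Real.sqrt L with hβ
  have hβ0 : 0 ≤ β := by positivity
  have hβ2 : β ≤ 1 / 64 := by rw [hβ]; linarith
  refine ⟨Y, ?_, ?_⟩
  · intro i
    have h2 : ∑ j, (Y i j) ^ 2 = ‖toE (Y i)‖ ^ 2 := by
      rw [EuclideanSpace.real_norm_sq_eq]
    rw [h2, hY i]; norm_num
  set μ := Measure.pi fun i : Fin n => Measure.pi fun j : Fin d =>
    gaussianReal (Y i j) (Real.toNNReal (σ ^ 2)) with hμ
  have hvr : (Real.toNNReal (σ ^ 2) : ℝ) = σ ^ 2 := Real.coe_toNNReal _ (sq_nonneg σ)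
  have hv0 : Real.toNNReal (σ ^ 2) ≠ 0 := by
    intro h0
    have : (Real.toNNReal (σ ^ 2) : ℝ) = 0 := by rw [h0]; simp
    rw [hvr] at this
    have := pow_pos hσ 2
    linarith
  have hprob := event_prob (n := n) (d := d) hn1 hd Y hv0
  set E : Set (Fin n → Fin d → ℝ) :=
    {a | ∀ i, ∑ j, (a i j - Y i j) ^ 2 ≤
      4 * (Real.toNNReal (σ ^ 2)) * (d + Real.log n)} with hE
  have hEm : MeasurableSet E := by
    rw [hE, Set.ofPred_forall]
    refine MeasurableSet.iInter fun i => measurableSet_le ?_ measurable_const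
    fun_prop
  set ρ : ℝ := Real.sqrt (4 * β + s ^ 2) with hρ
  have hX : 0 < 4 * β + s ^ 2 := by positivity
  have hρ0 : 0 < ρ := Real.sqrt_pos.mpr hX
  have hae : ∀ᵐ a ∂μ, a ∈ E → ENNReal.ofReal (1 / 6 * d / (2 * ρ)) ≤
      ((edgeGraph a).ediam : ENNReal) := by
    filter_upwards [ae_simple (by omega) Y hv0] with a ha haE
    refine (sand_of_near hd hs0 hs2 hβ0 hβ2 Y hY hYnet ?_ ha).ediam_ge
    intro i
    refine (haE i).trans (le_of_eq ?_)
    rw [hvr, hβ, mul_pow, mul_pow, Real.sq_sqrt hLpos.le, hL]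
    ring
  set w : ℝ := min x (1 / Real.sqrt (σ * Real.sqrt L)) with hw
  have hsL : 0 < σ * Real.sqrt L := by
    have : 0 < Real.sqrt L := Real.sqrt_pos.mpr hLpos
    positivity
  have hssL : 0 < Real.sqrt (σ * Real.sqrt L) := Real.sqrt_pos.mpr hsL
  have hw0 : 0 < w := lt_min hx0 (by positivity)
  have hwρ : w * ρ ≤ 3.775 := by
    refine le_of_sq_le_sq ?_ (by norm_num)
    rw [mul_pow, hρ, Real.sq_sqrt hX.le]
    have h1 : w ^ 2 * s ^ 2 ≤ 25 / 4 := by
      have h2 : w * s ≤ 5 / 2 := by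
        calc w * s ≤ x * s := mul_le_mul_of_nonneg_right (min_le_left _ _) hs0.le
          _ = 5 / 2 := by rw [hsdef]; field_simp
      have h3 : 0 ≤ w * s := by positivity
      rw [← mul_pow]
      nlinarith
    have h2 : w ^ 2 * (4 * β) ≤ 8 := by
      have h3 : w ^ 2 ≤ (1 / Real.sqrt (σ * Real.sqrt L)) ^ 2 :=
        pow_le_pow_left₀ hw0.le (min_le_right _ _) 2
      rw [div_pow, one_pow, Real.sq_sqrt hsL.le, le_div_iff₀ hsL] at h3
      rw [hβ]
      linarith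
    have h3 : w ^ 2 * (4 * β + s ^ 2) = w ^ 2 * (4 * β) + w ^ 2 * s ^ 2 := by ring
    rw [h3]
    norm_num
    linarith
  have hnum : 1 / 91 * (d * w) ≤ 1 / 6 * d / (2 * ρ) * (1 / 2) := by
    have h0 : 1 / 6 * d / (2 * ρ) * (1 / 2) = d / (24 * ρ) := by
      field_simp
      norm_num
    rw [h0, le_div_iff₀ (by positivity)]
    have h1 : d * (w * ρ) ≤ d * 3.775 := mul_le_mul_of_nonneg_left hwρ hd0.le
    nlinarith
  calc ENNReal.ofReal (1 / 91 * (d * w))
      ≤ ENNReal.ofReal (1 / 6 * d / (2 * ρ) * (1 / 2)) := ENNReal.ofReal_le_ofReal hnum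
    _ = ENNReal.ofReal (1 / 6 * d / (2 * ρ)) * (1 / 2) := by
        have h12 : ENNReal.ofReal (1 / 2) = 1 / 2 := by
          rw [ENNReal.ofReal_div_of_pos (by norm_num)]; simp
        rw [ENNReal.ofReal_mul (by positivity), h12]
    _ ≤ ENNReal.ofReal (1 / 6 * d / (2 * ρ)) * μ E := by gcongr
    _ = ∫⁻ _a in E, ENNReal.ofReal (1 / 6 * d / (2 * ρ)) ∂μ := by rw [setLIntegral_const]
    _ ≤ ∫⁻ a in E, ((edgeGraph a).ediam : ENNReal) ∂μ := setLIntegral_mono_ae' hEm hae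
    _ ≤ ∫⁻ a, ((edgeGraph a).ediam : ENNReal) ∂μ := setLIntegral_le_lintegral _ _

theorem main4 {n d : ℕ} (hd : 2 ≤ d) (hn : 5 ^ d ≤ n) {σ : ℝ} (hσ : 0 < σ)
    (hadm : σ ≤ 1 / (6 * Real.sqrt (d * Real.log n)))
    (hs : Real.log n < 10 * d * Real.log (1 / σ) → σ * Real.sqrt (d + Real.log n) ≤ 1 / 128) :
    ∃ c : Fin n → Fin d → ℝ, (∀ i, ∑ j, (c i j) ^ 2 ≤ 1) ∧
      ENNReal.ofReal (1 / 330 * (d * min ((n : ℝ) ^ (1 / (d : ℝ)))
        (Real.sqrt (Real.sqrt (Real.log n) /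
          (σ * min (Real.log n) (d * Real.log (1 / σ))))))) ≤
      ∫⁻ a : Fin n → Fin d → ℝ, ((edgeGraph a).ediam : ENNReal)
        ∂(Measure.pi (fun i : Fin n =>
          Measure.pi (fun j : Fin d => gaussianReal (c i j) (Real.toNNReal (σ ^ 2))))) := by
  have hd2 : (2 : ℝ) ≤ d := by exact_mod_cast hd
  have hd0 : (0 : ℝ) < d := by linarith
  have hlog5 : (d : ℝ) * (8 / 5) ≤ Real.log n := by
    have h1 : Real.log ((5 : ℝ) ^ d) ≤ Real.log n :=
      Real.log_le_log (by positivity) (by exact_mod_cast hn)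
    rw [Real.log_pow] at h1
    have h2 : 8 / 5 ≤ Real.log 5 := by
      rw [Real.le_log_iff_exp_le (by norm_num)]
      exact exp_le_of_nat (k := 5) (j := 8) (by norm_num) (by norm_num) (by norm_num)
        (by norm_num)
    nlinarith
  have hl0 : 0 < Real.log n := by linarith
  have hr0 : 0 < Real.sqrt (Real.log n) := Real.sqrt_pos.mpr hl0
  have hb0 : 0 < Real.log (1 / σ) := by
    apply Real.log_pos
    rw [lt_div_iff₀ hσ, one_mul]
    refine lt_of_le_of_lt hadm ?_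
    rw [div_lt_one (by positivity)]
    have h1 : 1 ≤ Real.sqrt (d * Real.log n) := by
      rw [Real.one_le_sqrt]
      nlinarith
    linarith
  by_cases hcase : 10 * d * Real.log (1 / σ) ≤ Real.log n
  · obtain ⟨c, hc, hE⟩ := main2 hd hσ hadm hcase
    refine ⟨c, hc, le_trans (ENNReal.ofReal_le_ofReal ?_) hE⟩
    have hmin : min (Real.log n) (d * Real.log (1 / σ)) = d * Real.log (1 / σ) := by
      apply min_eq_right
      have : 0 ≤ d * Real.log (1 / σ) := by positivity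
      linarith
    rw [hmin]
    have h1 : d * min ((n : ℝ) ^ (1 / (d : ℝ))) (Real.sqrt (Real.sqrt (Real.log n) /
        (σ * (d * Real.log (1 / σ))))) ≤
        Real.sqrt (d * Real.sqrt (Real.log n) / (σ * Real.log (1 / σ))) := by
      have h2 : Real.sqrt (d * Real.sqrt (Real.log n) / (σ * Real.log (1 / σ))) =
          d * Real.sqrt (Real.sqrt (Real.log n) / (σ * (d * Real.log (1 / σ)))) := by
        have h3 : d * Real.sqrt (Real.log n) / (σ * Real.log (1 / σ)) =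
            d ^ 2 * (Real.sqrt (Real.log n) / (σ * (d * Real.log (1 / σ)))) := by
          field_simp
        rw [h3, Real.sqrt_mul (sq_nonneg _), Real.sqrt_sq hd0.le]
      rw [h2]
      exact mul_le_mul_of_nonneg_left (min_le_right _ _) hd0.le
    have h2 : 0 ≤ Real.sqrt (d * Real.sqrt (Real.log n) / (σ * Real.log (1 / σ))) :=
      Real.sqrt_nonneg _
    linarith
  · rw [not_le] at hcase
    obtain ⟨c, hc, hE⟩ := main3 hd hn hσ (hs hcase)
    refine ⟨c, hc, le_trans (ENNReal.ofReal_le_ofReal ?_) hE⟩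
    set x : ℝ := (n : ℝ) ^ (1 / (d : ℝ)) with hx
    have hx0 : 0 ≤ x := by rw [hx]; positivity
    set Λ := min (Real.log n) (d * Real.log (1 / σ)) with hΛ
    have hΛ1 : Real.log n / 10 ≤ Λ := by
      rw [hΛ, le_min_iff]
      constructor <;> linarith
    have hΛ0 : 0 < Λ := by linarith
    have hLpos : 0 < d + Real.log n := by linarith
    have hsL : 0 < Real.sqrt (d + Real.log n) := Real.sqrt_pos.mpr hLpos
    have hLle : Real.sqrt (d + Real.log n) ≤ 1.275 * Real.sqrt (Real.log n) := by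
      rw [Real.sqrt_le_left (by positivity), mul_pow, Real.sq_sqrt hl0.le]
      norm_num
      linarith
    have h1 : Real.sqrt (Real.sqrt (Real.log n) / (σ * Λ)) ≤
        3.6 * (1 / Real.sqrt (σ * Real.sqrt (d + Real.log n))) := by
      have h2 : 3.6 * (1 / Real.sqrt (σ * Real.sqrt (d + Real.log n))) =
          Real.sqrt (12.96 / (σ * Real.sqrt (d + Real.log n))) := by
        rw [Real.sqrt_div (by norm_num), show (12.96 : ℝ) = 3.6 ^ 2 by norm_num,
          Real.sqrt_sq (by norm_num)]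
        ring
      rw [h2]
      apply Real.sqrt_le_sqrt
      rw [div_le_div_iff₀ (by positivity) (by positivity)]
      have h3 : Real.sqrt (Real.log n) * Real.sqrt (Real.log n) = Real.log n :=
        Real.mul_self_sqrt hl0.le
      have h4 : Real.sqrt (Real.log n) * Real.sqrt (d + Real.log n) ≤
          1.275 * Real.log n := by
        have := mul_le_mul_of_nonneg_left hLle hr0.le
        nlinarith
      have h5 : Real.sqrt (Real.log n) * Real.sqrt (d + Real.log n) ≤ 12.96 * Λ := by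
        linarith
      calc Real.sqrt (Real.log n) * (σ * Real.sqrt (d + Real.log n))
          = σ * (Real.sqrt (Real.log n) * Real.sqrt (d + Real.log n)) := by ring
        _ ≤ σ * (12.96 * Λ) := mul_le_mul_of_nonneg_left h5 hσ.le
        _ = 12.96 * (σ * Λ) := by ring
    set S := 1 / Real.sqrt (σ * Real.sqrt (d + Real.log n)) with hS
    have hS0 : 0 ≤ S := by rw [hS]; positivity
    have h2 : min x (Real.sqrt (Real.sqrt (Real.log n) / (σ * Λ))) ≤ 3.6 * min x S := by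
      rw [mul_min_of_nonneg x S (show (0 : ℝ) ≤ 3.6 by norm_num)]
      refine le_min ?_ ?_
      · refine (min_le_left _ _).trans ?_
        linarith
      · exact (min_le_right _ _).trans h1
    have h3 : d * min x (Real.sqrt (Real.sqrt (Real.log n) / (σ * Λ))) ≤
        d * (3.6 * min x S) := mul_le_mul_of_nonneg_left h2 hd0.le
    have h4 : 0 ≤ d * min x S := mul_nonneg hd0.le (le_min hx0 hS0)
    linarith

end Pool.Agent.H.MP_0cad2f_co.helper11
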