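import Mathlib

/-!
Numerical facts for the near-ball construction.
-/

set_option autoImplicit false

namespace Pool.Agent.H.MP_0cad2f_co.helper11

/-- The parameters: `l = log n`, `b = log (1 / σ)`. -/
structure Par (d : ℕ) (σ l b : ℝ) : Prop where
  hd : 2 ≤ d
  pos : 0 < σ
  adm : 36 * (d * l * σ ^ 2) ≤ 1
  hb : b = Real.log (1 / σ)
  big : 10 * (d * b) ≤ l
  two : 69 / 100 ≤ l

variable {d : ℕ} {σ l b : ℝ}

theorem Par.d2 (h : Par d σ l b) : (2 : ℝ) ≤ d := by exact_mod_cast h.hd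

theorem Par.boot (h : Par d σ l b) {A B C : ℝ} (hA : A ≤ l) (hA0 : 0 ≤ A) (hB : B ^ 2 ≤ 72 * A)
    (hB0 : 0 < B) (hC : Real.exp C ≤ B) : C ≤ b := by
  have hd := h.d2
  have hσ := h.pos
  have hadm := h.adm
  have h1 : A * σ ^ 2 ≤ l * σ ^ 2 := mul_le_mul_of_nonneg_right hA (sq_nonneg σ)
  have h2 : 2 * (l * σ ^ 2) ≤ d * (l * σ ^ 2) :=
    mul_le_mul_of_nonneg_right hd (le_trans (mul_nonneg hA0 (sq_nonneg σ)) h1)
  have h3 : (B * σ) ^ 2 ≤ 1 := by
    rw [mul_pow]
    have h4 : B ^ 2 * σ ^ 2 ≤ 72 * A * σ ^ 2 := mul_le_mul_of_nonneg_right hB (sq_nonneg σ)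
    nlinarith
  have h5 : B * σ ≤ 1 := by
    have h6 : 0 ≤ B * σ := by positivity
    nlinarith
  have h7 : B ≤ 1 / σ := by rw [le_div_iff₀ hσ]; exact h5
  rw [h.hb, Real.le_log_iff_exp_le (by positivity)]
  exact hC.trans h7

theorem exp_le_of_nat {k : ℕ} {c B : ℝ} (hB : 0 ≤ B) (hk : k ≠ 0) {j : ℕ} (hc : c * k = j)
    (h : (2.7182818286 : ℝ) ^ j ≤ B ^ k) : Real.exp c ≤ B := by
  refine le_of_pow_le_pow_left₀ hk hB ?_
  rw [← Real.exp_nat_mul]
  have h1 : (k : ℝ) * c = (j : ℝ) * 1 := by rw [mul_comm, hc, mul_one]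
  rw [h1, Real.exp_nat_mul]
  exact (pow_le_pow_left₀ (Real.exp_pos 1).le Real.exp_one_lt_d9.le j).trans h

theorem Par.four (h : Par d σ l b) : 4 ≤ b ∧ 80 ≤ l := by
  have hd := h.d2
  have hbig := h.big
  have b1 : 3 / 2 ≤ b := by
    refine h.boot (A := 69 / 100) (B := 7) h.two (by norm_num) (by norm_num) (by norm_num) ?_
    exact exp_le_of_nat (k := 2) (j := 3) (by norm_num) (by norm_num) (by norm_num) (by norm_num)
  have l1 : 30 ≤ l := by nlinarith
  have b2 : 7 / 2 ≤ b := by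
    refine h.boot (A := 30) (B := 46) l1 (by norm_num) (by norm_num) (by norm_num) ?_
    exact exp_le_of_nat (k := 2) (j := 7) (by norm_num) (by norm_num) (by norm_num) (by norm_num)
  have l2 : 70 ≤ l := by nlinarith
  have b3 : 4 ≤ b := by
    refine h.boot (A := 70) (B := 70) l2 (by norm_num) (by norm_num) (by norm_num) ?_
    exact exp_le_of_nat (k := 1) (j := 4) (by norm_num) (by norm_num) (by norm_num) (by norm_num)
  exact ⟨b3, by nlinarith⟩

theorem Par.db (h : Par d σ l b) : 8 ≤ d * b := by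
  have := h.four.1
  have hd := h.d2
  nlinarith

theorem Par.exp_b (h : Par d σ l b) : Real.exp b = 1 / σ := by
  rw [h.hb, Real.exp_log (one_div_pos.mpr h.pos)]

/-- `σ * √l ≤ 1 / 8`. -/
theorem Par.sr (h : Par d σ l b) : (σ * Real.sqrt l) ^ 2 ≤ 1 / 72 := by
  have hd := h.d2
  have hl := h.four.2
  have hadm := h.adm
  have hσ := h.pos
  rw [mul_pow, Real.sq_sqrt (by linarith)]
  have h1 : 0 ≤ l * σ ^ 2 := by positivity
  nlinarith

/-- The radius `t`. -/
noncomputable def tt (d : ℕ) (l b : ℝ) : ℝ := Real.sqrt (2 * (l - 5 * (d * b)))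

theorem Par.tt_sq (h : Par d σ l b) : tt d l b ^ 2 = 2 * (l - 5 * (d * b)) := by
  have hbig := h.big
  have hl := h.four.2
  exact Real.sq_sqrt (by linarith)

theorem Par.sqrt_le_tt (h : Par d σ l b) : Real.sqrt l ≤ tt d l b := by
  have hbig := h.big
  exact Real.sqrt_le_sqrt (by linarith)

theorem Par.r8 (h : Par d σ l b) : 8 ≤ Real.sqrt l := by
  rw [show (8 : ℝ) = Real.sqrt (8 ^ 2) by rw [Real.sqrt_sq (by norm_num)]]
  exact Real.sqrt_le_sqrt (by linarith [h.four.2])

theorem Par.tt_one (h : Par d σ l b) : 1 ≤ tt d l b := by linarith [h.sqrt_le_tt, h.r8]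

theorem Par.tt_le (h : Par d σ l b) : 24 * tt d l b ≤ 4 * Real.exp b := by
  have hd := h.d2
  have hl := h.four.2
  have hadm := h.adm
  have hσ := h.pos
  have hdb := h.db
  rw [h.exp_b]
  have h1 : (6 * σ * tt d l b) ^ 2 ≤ 1 := by
    have h2 : (6 * σ * tt d l b) ^ 2 = 36 * σ ^ 2 * (2 * (l - 5 * (d * b))) := by
      rw [mul_pow, h.tt_sq]; ring
    rw [h2]
    have h3 : 0 ≤ l * σ ^ 2 := by positivity
    have h4 : 0 ≤ σ ^ 2 * (d * b) := by positivity
    nlinarith
  have h2 : 6 * σ * tt d l b ≤ 1 := by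
    have h3 : 0 ≤ 6 * σ * tt d l b := by
      have := h.tt_one
      positivity
    nlinarith
  have h3 : 24 * tt d l b ≤ 4 * (1 / σ) := by
    rw [mul_one_div, le_div_iff₀ hσ]
    nlinarith
  exact h3

theorem log_four : Real.log 4 ≤ 7 / 5 := by
  rw [show (4 : ℝ) = 2 ^ 2 by norm_num, Real.log_pow]
  have := Real.log_two_lt_d9
  push_cast
  linarith

/-- The outer radius minus `1`, divided by `σ`. -/
noncomputable def TT (d : ℕ) (σ l : ℝ) : ℝ := Real.sqrt (2 * (Real.log 4 + l)) + d * σ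

theorem Par.sqrtp (h : Par d σ l b) :
    (σ * Real.sqrt (2 * (Real.log 4 + l))) ^ 2 ≤ 29 / 1000 := by
  have h1 := log_four
  have hd := h.d2
  have hl := h.four.2
  have hadm := h.adm
  have hσ := h.pos
  have h0 : 0 ≤ Real.log 4 := Real.log_nonneg (by norm_num)
  rw [mul_pow, Real.sq_sqrt (by positivity)]
  have h2 : Real.log 4 + l ≤ 1.0175 * l := by linarith
  have h3 : 0 ≤ l * σ ^ 2 := by positivity
  have h4 : 72 * (l * σ ^ 2) ≤ 1 := by nlinarith
  have h5 : σ ^ 2 * (2 * (Real.log 4 + l)) ≤ σ ^ 2 * (2 * (1.0175 * l)) :=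
    mul_le_mul_of_nonneg_left (by linarith) (sq_nonneg σ)
  refine h5.trans ?_
  nlinarith

theorem Par.dss (h : Par d σ l b) : d * σ ^ 2 ≤ 1 / 2000 := by
  have hl := h.four.2
  have hadm := h.adm
  have h3 : 0 ≤ d * σ ^ 2 := by positivity
  nlinarith

/-- The outer radius is at most `1.18`. -/
theorem Par.Rp_le (h : Par d σ l b) : 1 + σ * TT d σ l ≤ 1.172 := by
  have h1 := h.sqrtp
  have h2 := h.dss
  have hσ := h.pos
  have h3 : σ * Real.sqrt (2 * (Real.log 4 + l)) ≤ 0.171 := by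
    have h4 : 0 ≤ σ * Real.sqrt (2 * (Real.log 4 + l)) := by positivity
    nlinarith
  unfold TT
  nlinarith

theorem Par.gap1 (h : Par d σ l b) :
    (Real.sqrt (2 * (Real.log 4 + l)) - tt d l b) * Real.sqrt l ≤ 4.3125 * (d * b) := by
  have h1 := log_four
  have h0 : 0 ≤ Real.log 4 := Real.log_nonneg (by norm_num)
  have hl := h.four.2
  have hdb := h.db
  have hr := h.r8
  have ht := h.sqrt_le_tt
  have hS : 1.4 * Real.sqrt l ≤ Real.sqrt (2 * (Real.log 4 + l)) := by
    rw [show (1.4 : ℝ) = Real.sqrt (1.4 ^ 2) by rw [Real.sqrt_sq (by norm_num)],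
      ← Real.sqrt_mul (by norm_num)]
    apply Real.sqrt_le_sqrt
    norm_num
    linarith
  have hsq : Real.sqrt (2 * (Real.log 4 + l)) ^ 2 = 2 * (Real.log 4 + l) :=
    Real.sq_sqrt (by positivity)
  have htsq := h.tt_sq
  have hle : tt d l b ≤ Real.sqrt (2 * (Real.log 4 + l)) :=
    Real.sqrt_le_sqrt (by linarith)
  have key : (Real.sqrt (2 * (Real.log 4 + l)) - tt d l b) * (2.4 * Real.sqrt l) ≤
      (Real.sqrt (2 * (Real.log 4 + l)) - tt d l b) *
        (Real.sqrt (2 * (Real.log 4 + l)) + tt d l b) :=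
    mul_le_mul_of_nonneg_left (by linarith) (by linarith)
  have h2 : (Real.sqrt (2 * (Real.log 4 + l)) - tt d l b) *
      (Real.sqrt (2 * (Real.log 4 + l)) + tt d l b) = 2 * Real.log 4 + 10 * (d * b) := by
    have : (Real.sqrt (2 * (Real.log 4 + l)) - tt d l b) *
      (Real.sqrt (2 * (Real.log 4 + l)) + tt d l b) =
      Real.sqrt (2 * (Real.log 4 + l)) ^ 2 - tt d l b ^ 2 := by ring
    rw [this, hsq, htsq]; ring
  rw [h2] at key
  linarith

theorem Par.gap2 (h : Par d σ l b) : d * σ * Real.sqrt l ≤ (d * b) / 24 := by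
  have hd := h.d2
  have hσ := h.pos
  have hl := h.four.2
  have hb := h.four.1
  have hadm := h.adm
  have hr := h.r8
  have h1 : (d * σ * Real.sqrt l * 6) ^ 2 ≤ d ^ 2 := by
    have : (d * σ * Real.sqrt l * 6) ^ 2 = d * (36 * (d * l * σ ^ 2)) := by
      rw [mul_pow, mul_pow, Real.sq_sqrt (by linarith)]; ring
    rw [this]
    nlinarith
  have h2 : d * σ * Real.sqrt l * 6 ≤ d := by
    have h3 : 0 ≤ d * σ * Real.sqrt l * 6 := by positivity
    exact le_of_sq_le_sq h1 (by positivity)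
  nlinarith

/-- The inner radius. -/
noncomputable def RR (d : ℕ) (σ l b : ℝ) : ℝ := 1 + σ * (tt d l b - 2 / Real.sqrt l)

theorem Par.one_le (h : Par d σ l b) : 1 ≤ RR d σ l b := by
  have hr := h.r8
  have ht := h.sqrt_le_tt
  have hσ := h.pos
  unfold RR
  have h1 : 2 / Real.sqrt l ≤ 1 := by rw [div_le_one (by linarith)]; linarith
  have h2 : 0 ≤ σ * (tt d l b - 2 / Real.sqrt l) := mul_nonneg hσ.le (by linarith)
  linarith

theorem Par.gap (h : Par d σ l b) :
    (1 + σ * TT d σ l) ^ 2 - RR d σ l b ^ 2 ≤ 11 * (σ * (d * b) / Real.sqrt l) := by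
  have hr := h.r8
  have hr0 : 0 < Real.sqrt l := by linarith
  have hσ := h.pos
  have hdb := h.db
  have g1 := h.gap1
  have g2 := h.gap2
  have hone := h.one_le
  have hRp := h.Rp_le
  have ht := h.sqrt_le_tt
  set r := Real.sqrt l with hrdef
  have hdiff : (TT d σ l - (tt d l b - 2 / r)) * r ≤ 4.61 * (d * b) := by
    unfold TT
    have : (Real.sqrt (2 * (Real.log 4 + l)) + d * σ - (tt d l b - 2 / r)) * r =
        (Real.sqrt (2 * (Real.log 4 + l)) - tt d l b) * r + d * σ * r + 2 := by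
      field_simp
      ring
    rw [this]
    linarith
  have hD : TT d σ l - (tt d l b - 2 / r) ≤ 4.61 * (d * b) / r := by
    rw [le_div_iff₀ hr0]; exact hdiff
  have hX : σ * (TT d σ l - (tt d l b - 2 / r)) ≤ 4.61 * (σ * (d * b) / r) := by
    calc σ * (TT d σ l - (tt d l b - 2 / r)) ≤ σ * (4.61 * (d * b) / r) :=
          mul_le_mul_of_nonneg_left hD hσ.le
      _ = 4.61 * (σ * (d * b) / r) := by ring
  have hX0 : 0 ≤ σ * (d * b) / r := by positivity
  have hsum : 0 ≤ (1 + σ * TT d σ l) + RR d σ l b := by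
    have : 0 ≤ σ * TT d σ l := by unfold TT; positivity
    linarith
  rcases le_or_gt (RR d σ l b) (1 + σ * TT d σ l) with hc | hc
  · have h1 : (1 + σ * TT d σ l) ^ 2 - RR d σ l b ^ 2 =
        ((1 + σ * TT d σ l) + RR d σ l b) * (σ * (TT d σ l - (tt d l b - 2 / r))) := by
      unfold RR; ring
    rw [h1]
    calc ((1 + σ * TT d σ l) + RR d σ l b) * (σ * (TT d σ l - (tt d l b - 2 / r)))
        ≤ ((1 + σ * TT d σ l) + RR d σ l b) * (4.61 * (σ * (d * b) / r)) :=
          mul_le_mul_of_nonneg_left hX hsum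
      _ ≤ 2.344 * (4.61 * (σ * (d * b) / r)) :=
          mul_le_mul_of_nonneg_right (by linarith) (by positivity)
      _ ≤ 11 * (σ * (d * b) / r) := by linarith
  · have h2 : (1 + σ * TT d σ l) ^ 2 ≤ RR d σ l b ^ 2 := by
      apply pow_le_pow_left₀ _ hc.le
      have : 0 ≤ σ * TT d σ l := by unfold TT; positivity
      linarith
    have : 0 ≤ 11 * (σ * (d * b) / r) := by positivity
    linarith

theorem Par.X_le (h : Par d σ l b) : 11 * (σ * (d * b) / Real.sqrt l) ≤ (2 / 5) ^ 2 := by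
  have hr := h.r8
  have hr0 : 0 < Real.sqrt l := by linarith
  have hσ := h.pos
  have hbig := h.big
  have hl := h.four.2
  have hsr := h.sr
  have h1 : σ * (d * b) / Real.sqrt l ≤ σ * Real.sqrt l / 10 := by
    rw [div_le_iff₀ hr0]
    have h2 : σ * Real.sqrt l / 10 * Real.sqrt l = σ * (l / 10) := by
      have : Real.sqrt l * Real.sqrt l = l := Real.mul_self_sqrt (by linarith)
      calc σ * Real.sqrt l / 10 * Real.sqrt l = σ * (Real.sqrt l * Real.sqrt l) / 10 := by ring
        _ = σ * (l / 10) := by rw [this]; ring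
    rw [h2]
    exact mul_le_mul_of_nonneg_left (by linarith) hσ.le
  have h3 : σ * Real.sqrt l ≤ 0.118 := by
    have h4 : 0 ≤ σ * Real.sqrt l := by positivity
    nlinarith
  norm_num
  linarith

theorem Par.count (h : Par d σ l b) {m q : ℝ} (hm : 1 ≤ m) (hm2 : m ≤ Real.exp (2 * (d * b)))
    (hq : Real.exp l ≤ 2 * m * q) :
    Real.exp (-(Real.exp (-(tt d l b ^ 2 / 2)) / (12 * tt d l b)) * q) ≤ 1 / (4 * m) := by
  have hd := h.d2
  have hdb := h.db
  have hb := h.four.1
  have ht1 := h.tt_one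
  have hm0 : 0 < m := by linarith
  have hA : Real.exp (2 * (d * b)) / 4 ≤
      Real.exp (-(tt d l b ^ 2 / 2)) / (12 * tt d l b) * q := by
    have h1 : Real.exp (-(tt d l b ^ 2 / 2)) = Real.exp (5 * (d * b)) * Real.exp (-l) := by
      rw [← Real.exp_add, h.tt_sq]; ring_nf
    have h2 : Real.exp (5 * (d * b)) / (2 * m) ≤ Real.exp (-(tt d l b ^ 2 / 2)) * q := by
      rw [h1, div_le_iff₀ (by positivity)]
      have h3 : Real.exp (-l) * Real.exp l = 1 := by rw [← Real.exp_add]; simp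
      have h4 : Real.exp (5 * (d * b)) * (Real.exp (-l) * Real.exp l) ≤
          Real.exp (5 * (d * b)) * (Real.exp (-l) * (2 * m * q)) :=
        mul_le_mul_of_nonneg_left
          (mul_le_mul_of_nonneg_left hq (Real.exp_pos _).le) (Real.exp_pos _).le
      rw [h3] at h4
      linarith
    have h3 : Real.exp (3 * (d * b)) / 2 ≤ Real.exp (5 * (d * b)) / (2 * m) := by
      rw [div_le_div_iff₀ (by norm_num) (by positivity)]
      have h4 : Real.exp (5 * (d * b)) = Real.exp (3 * (d * b)) * Real.exp (2 * (d * b)) := by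
        rw [← Real.exp_add]; ring_nf
      rw [h4]
      have h5 := mul_le_mul_of_nonneg_left hm2 (Real.exp_pos (3 * (d * b))).le
      linarith
    have h4 : Real.exp (-(tt d l b ^ 2 / 2)) / (12 * tt d l b) * q =
        Real.exp (-(tt d l b ^ 2 / 2)) * q / (12 * tt d l b) := by ring
    rw [h4, le_div_iff₀ (by positivity)]
    have h5 : 12 * tt d l b ≤ 2 * Real.exp b := by linarith [h.tt_le]
    have h6 : Real.exp (2 * (d * b)) * Real.exp b ≤ Real.exp (3 * (d * b)) := by
      rw [← Real.exp_add]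
      apply Real.exp_le_exp.mpr
      nlinarith
    have h7 : Real.exp (2 * (d * b)) / 4 * (12 * tt d l b) ≤
        Real.exp (2 * (d * b)) / 4 * (2 * Real.exp b) :=
      mul_le_mul_of_nonneg_left h5 (by positivity)
    linarith
  have hB : Real.log (4 * m) ≤ 7 / 5 + 2 * (d * b) := by
    rw [Real.log_mul (by norm_num) hm0.ne']
    have h1 : Real.log m ≤ 2 * (d * b) := by
      rw [Real.log_le_iff_le_exp hm0]; exact hm2
    linarith [log_four]
  have hC : 2 + 2 * (d * b) ≤ Real.exp (2 * (d * b)) / 4 := by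
    have h1 := Real.quadratic_le_exp_of_nonneg (x := 2 * (d * b)) (by linarith)
    nlinarith
  calc Real.exp (-(Real.exp (-(tt d l b ^ 2 / 2)) / (12 * tt d l b)) * q)
      ≤ Real.exp (-Real.log (4 * m)) := Real.exp_le_exp.mpr (by linarith)
    _ = 1 / (4 * m) := by rw [Real.exp_neg, Real.exp_log (by positivity), one_div]

/-- The number of grid values. -/
theorem Par.grid (h : Par d σ l b) :
    2 / (σ / (2 * (Real.sqrt l * Real.sqrt d))) + 1 ≤ Real.exp (2 * b) := by
  have hd := h.d2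
  have hσ := h.pos
  have hl := h.four.2
  have hadm := h.adm
  have hdss := h.dss
  have hr := h.r8
  have hsd : 0 < Real.sqrt d := Real.sqrt_pos.mpr (by linarith)
  have h1 : Real.exp (2 * b) = 1 / σ ^ 2 := by
    rw [two_mul, Real.exp_add, h.exp_b]; field_simp
  rw [h1]
  have h2 : (Real.sqrt l * Real.sqrt d * σ) ^ 2 ≤ 1 / 36 := by
    rw [mul_pow, mul_pow, Real.sq_sqrt (by linarith), Real.sq_sqrt (by linarith)]
    linarith
  have h3 : Real.sqrt l * Real.sqrt d * σ ≤ 1 / 6 := by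
    have h4 : 0 ≤ Real.sqrt l * Real.sqrt d * σ := by positivity
    exact le_of_sq_le_sq (h2.trans (by norm_num)) (by norm_num)
  have h4 : 2 / (σ / (2 * (Real.sqrt l * Real.sqrt d))) = 4 * (Real.sqrt l * Real.sqrt d) / σ := by
    field_simp
    ring
  rw [h4]
  have h5 : σ ^ 2 ≤ 1 / 4000 := by nlinarith
  rw [div_add_one hσ.ne', div_le_div_iff₀ hσ (by positivity)]
  nlinarith

/-- The final comparison. -/
theorem Par.final (h : Par d σ l b) :
    1 / 27 * Real.sqrt (d * Real.sqrt l / (σ * b)) ≤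
      d / (4 * Real.sqrt (11 * (σ * (d * b) / Real.sqrt l))) * (1 / 2) := by
  have hd := h.d2
  have hσ := h.pos
  have hb := h.four.1
  have hr := h.r8
  have hr0 : 0 < Real.sqrt l := by linarith
  have hd0 : (0 : ℝ) < d := by linarith
  have hb0 : 0 < b := by linarith
  set X := 11 * (σ * (d * b) / Real.sqrt l) with hX
  have hX0 : 0 < X := by rw [hX]; positivity
  have hsX : 0 < Real.sqrt X := Real.sqrt_pos.mpr hX0
  refine le_of_sq_le_sq ?_ (by positivity)
  have h1 : (1 / 27 * Real.sqrt (d * Real.sqrt l / (σ * b))) ^ 2 =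
      d * Real.sqrt l / (σ * b) / 729 := by
    rw [mul_pow, Real.sq_sqrt (by positivity)]; ring
  have h2 : (d / (4 * Real.sqrt X) * (1 / 2)) ^ 2 = d * Real.sqrt l / (σ * b) / 704 := by
    have h3 : Real.sqrt X ^ 2 = X := Real.sq_sqrt hX0.le
    have h4 : (d / (4 * Real.sqrt X) * (1 / 2)) ^ 2 = d ^ 2 / (64 * Real.sqrt X ^ 2) := by
      field_simp
      ring
    rw [h4, h3, hX]
    field_simp
    ring
  rw [h1, h2]
  have h3 : 0 ≤ d * Real.sqrt l / (σ * b) := by positivity
  exact div_le_div_of_nonneg_left h3 (by norm_num) (by norm_num)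

end Pool.Agent.H.MP_0cad2f_co.helper11
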