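import Pool.Agent.H.MP_0cad2f_co.helper11.Lower

/-!
A net of the unit sphere with at most `(1 + 2 / s) ^ d` points.
-/

set_option autoImplicit false

namespace Pool.Agent.H.MP_0cad2f_co.helper11

open MeasureTheory Finset Metric
open scoped NNReal ENNReal

variable {d : ℕ}

theorem packing {s : ℝ} (hs : 0 < s) (S : Finset (EuclideanSpace ℝ (Fin d)))
    (h1 : ∀ x ∈ S, ‖x‖ = 1) (h2 : ∀ x ∈ S, ∀ y ∈ S, x ≠ y → s ≤ dist x y) :
    (S.card : ℝ) ≤ (1 + 2 / s) ^ d := by
  classical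
  have hdisj : Set.PairwiseDisjoint (S : Set (EuclideanSpace ℝ (Fin d)))
      (fun x => ball x (s / 2)) := by
    intro x hx y hy hxy
    exact ball_disjoint_ball (by linarith [h2 x hx y hy hxy])
  have hsub : (⋃ x ∈ S, ball x (s / 2)) ⊆ ball (0 : EuclideanSpace ℝ (Fin d)) (1 + s / 2) := by
    intro z hz
    simp only [Set.mem_iUnion, mem_ball] at hz
    obtain ⟨x, hx, hz⟩ := hz
    rw [mem_ball, dist_zero_right]
    have h3 := h1 x hx
    calc ‖z‖ = ‖(z - x) + x‖ := by congr 1; abel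
      _ ≤ ‖z - x‖ + ‖x‖ := norm_add_le _ _
      _ < 1 + s / 2 := by rw [h3, ← dist_eq_norm]; linarith
  have hm := measure_mono (μ := (volume : Measure (EuclideanSpace ℝ (Fin d)))) hsub
  rw [measure_biUnion_finset hdisj (fun x _ => measurableSet_ball)] at hm
  have hball : ∀ x : EuclideanSpace ℝ (Fin d), ∀ r : ℝ, 0 < r →
      (volume : Measure (EuclideanSpace ℝ (Fin d))) (ball x r) =
        ENNReal.ofReal (r ^ d) * volume (ball (0 : EuclideanSpace ℝ (Fin d)) 1) := by
    intro x r hr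
    rw [Measure.addHaar_ball_of_pos _ _ hr]
    simp
  have hs2 : 0 < s / 2 := by linarith
  rw [hball 0 (1 + s / 2) (by linarith)] at hm
  have h3 : ∑ x ∈ S, (volume : Measure (EuclideanSpace ℝ (Fin d))) (ball x (s / 2)) =
      ENNReal.ofReal (S.card * (s / 2) ^ d) *
        volume (ball (0 : EuclideanSpace ℝ (Fin d)) 1) := by
    rw [sum_congr rfl fun x _ => hball x (s / 2) hs2, sum_const, nsmul_eq_mul, ← mul_assoc,
      ENNReal.ofReal_mul (by positivity), ENNReal.ofReal_natCast]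
  rw [h3] at hm
  have hv0 : (volume : Measure (EuclideanSpace ℝ (Fin d))) (ball 0 1) ≠ 0 :=
    (measure_ball_pos _ _ (by norm_num)).ne'
  have hvt : (volume : Measure (EuclideanSpace ℝ (Fin d))) (ball 0 1) ≠ ⊤ :=
    measure_ball_lt_top.ne
  have h4 := (ENNReal.mul_le_mul_iff_left hv0 hvt).mp hm
  rw [ENNReal.ofReal_le_ofReal_iff (by positivity)] at h4
  have h5 : (1 + 2 / s) ^ d * (s / 2) ^ d = (1 + s / 2) ^ d := by
    rw [← mul_pow]
    congr 1
    field_simp
    ring
  rw [← h5] at h4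
  exact le_of_mul_le_mul_right h4 (by positivity)

theorem exists_net_vol (o : Fin d) {s : ℝ} (hs : 0 < s) {M : ℕ} (hM : (1 + 2 / s) ^ d ≤ M) :
    ∃ Y : Fin M → Fin d → ℝ, (∀ k, ‖toE (Y k)‖ = 1) ∧
      ∀ y : Fin d → ℝ, ‖toE y‖ = 1 → ∃ k, ‖toE (Y k) - toE y‖ ≤ s := by
  classical
  set Q : ℕ → Prop := fun j => ∃ S : Finset (EuclideanSpace ℝ (Fin d)), S.card = j ∧
    (∀ x ∈ S, ‖x‖ = 1) ∧ ∀ x ∈ S, ∀ y ∈ S, x ≠ y → s ≤ dist x y with hQ
  have hle : ∀ j, Q j → j ≤ M := by
    rintro j ⟨S, rfl, h1, h2⟩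
    have := (packing hs S h1 h2).trans hM
    exact_mod_cast this
  have hQ1 : Q 1 := by
    refine ⟨{toE (Pi.single o 1)}, by simp, ?_, ?_⟩
    · intro x hx
      rw [mem_singleton] at hx
      rw [hx]; exact norm_single o
    · intro x hx y hy hxy
      rw [mem_singleton] at hx hy
      exact absurd (hx.trans hy.symm) hxy
  have hgr := Nat.findGreatest_spec (P := Q) (hle 1 hQ1) hQ1
  set N := Nat.findGreatest Q M with hN
  obtain ⟨S, hcard, h1, h2⟩ := hgr
  have hNM : N ≤ M := Nat.findGreatest_le M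
  have hcov : ∀ y : EuclideanSpace ℝ (Fin d), ‖y‖ = 1 → ∃ x ∈ S, dist x y ≤ s := by
    intro y hy
    by_contra hcon
    push Not at hcon
    have hyS : y ∉ S := by
      intro hyS
      have := hcon y hyS
      rw [dist_self] at this
      linarith
    have hQ' : Q (N + 1) := by
      refine ⟨insert y S, by rw [card_insert_of_notMem hyS, hcard], ?_, ?_⟩
      · intro x hx
        rw [mem_insert] at hx
        rcases hx with rfl | hx
        · exact hy
        · exact h1 x hx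
      · intro x hx z hz hxz
        rw [mem_insert] at hx hz
        rcases hx with rfl | hx
        · rcases hz with rfl | hz
          · exact absurd rfl hxz
          · rw [dist_comm]; exact (hcon z hz).le
        · rcases hz with rfl | hz
          · exact (hcon x hx).le
          · exact h2 x hx z hz hxz
    have := Nat.le_findGreatest (hle _ hQ') hQ'
    omega
  have hS0 : 0 < S.card := by
    obtain ⟨x, hx, _⟩ := hcov (toE (Pi.single o 1)) (norm_single o)
    exact card_pos.mpr ⟨x, hx⟩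
  have e := S.equivFin
  refine ⟨fun k => if h : (k : ℕ) < S.card then
    WithLp.ofLp (e.symm ⟨k, h⟩).1 else WithLp.ofLp (e.symm ⟨0, hS0⟩).1, ?_, ?_⟩
  · intro k
    by_cases h : (k : ℕ) < S.card
    · simp only [h, dif_pos]
      exact h1 _ (e.symm ⟨k, h⟩).2
    · simp only [h, dif_neg, not_false_eq_true]
      exact h1 _ (e.symm ⟨0, hS0⟩).2
  · intro y hy
    obtain ⟨x, hx, hd⟩ := hcov (toE y) hy
    have hlt : (e ⟨x, hx⟩ : ℕ) < M := by
      have := (e ⟨x, hx⟩).isLt
      omega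
    refine ⟨⟨e ⟨x, hx⟩, hlt⟩, ?_⟩
    have h3 : ((⟨e ⟨x, hx⟩, hlt⟩ : Fin M) : ℕ) < S.card := (e ⟨x, hx⟩).isLt
    simp only [Fin.is_lt, dif_pos, Fin.eta, Equiv.symm_apply_apply]
    rw [← dist_eq_norm]
    exact hd

end Pool.Agent.H.MP_0cad2f_co.helper11
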