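import Pool.Agent.H.MP_0cad2f_co.helper11.Walk

/-!
The potential at a vertex is close to a linear functional; two far apart vertices.
-/

set_option autoImplicit false

namespace Pool.Agent.H.MP_0cad2f_co.helper11

open Finset

variable {n d q : ℕ} {a : Fin n → Fin d → ℝ} {β : ℝ}

theorem Near.two_aux (h : Near n d q a β) {x : Fin d → ℝ} (hx : Feas a x) {i i' : Fin n}
    (hi : i ∈ tight a x) (hi' : i' ∈ tight a x) (hb : blk q i = blk q i')
    (hj : blk q i < d / 2) (hll : (i : ℕ) % (4 * q) < (i' : ℕ) % (4 * q)) :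
    |wt d q i + wt d q i' - 2 * Real.cos (ang q / 2) ^ 2 * ext x (2 * blk q i)| ≤
      2 * Real.cos (ang q / 2) ^ 2 * (1 / 4) := by
  have hq := h.hq
  have hlt : (i : ℕ) < 4 * q * (d / 2) := by
    rw [blk, Nat.div_lt_iff_lt_mul (by omega)] at hj
    rwa [mul_comm]
  have hlt' : (i' : ℕ) < 4 * q * (d / 2) := by
    rw [hb, blk, Nat.div_lt_iff_lt_mul (by omega)] at hj
    rwa [mul_comm]
  rw [mem_tight] at hi hi'
  have t1 := h.poly_tight hx hi hlt
  have t2 := h.poly_tight hx hi' hlt'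
  have hb' : (i' : ℕ) / (4 * q) = (i : ℕ) / (4 * q) := hb.symm
  rw [hb'] at t2
  have hadj := h.adjacent hx hi hi' hlt hb hll
  unfold wt
  rw [if_pos hlt, if_pos hlt']
  change |gg q (ext x (2 * blk q i)) (ext x (2 * blk q i + 1)) _ - 1| ≤ _ at t1
  change |gg q (ext x (2 * blk q i)) (ext x (2 * blk q i + 1)) _ - 1| ≤ _ at t2
  unfold gg at t1 t2
  generalize ext x (2 * blk q i) = X at *
  generalize ext x (2 * blk q i + 1) = Y at *
  rcases hadj with h1 | h1
  · have e1 : ((((i' : ℕ) % (4 * q) : ℕ)) : ℝ) * ang q =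
        ((((i : ℕ) % (4 * q) : ℕ)) : ℝ) * ang q + ang q := by
      rw [h1]; push_cast; ring
    rw [e1] at t2 ⊢
    exact block_est hq h.eps_nonneg h.hb t1 t2
  · have e1 : ((((i' : ℕ) % (4 * q) : ℕ)) : ℝ) * ang q + ang q =
        ((((i : ℕ) % (4 * q) : ℕ)) : ℝ) * ang q + 2 * Real.pi := by
      have h3 : ((((i' : ℕ) % (4 * q) + 1 : ℕ)) : ℝ) * ang q =
          ((((i : ℕ) % (4 * q) + 4 * q : ℕ)) : ℝ) * ang q := by rw [h1]
      rw [Nat.cast_add, Nat.cast_add, add_mul, add_mul, four_q_ang hq, Nat.cast_one, one_mul] at h3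
      linarith
    have c1 : Real.cos (((((i' : ℕ) % (4 * q) : ℕ)) : ℝ) * ang q + ang q) =
        Real.cos (((((i : ℕ) % (4 * q) : ℕ)) : ℝ) * ang q) := by
      rw [e1, Real.cos_add_two_pi]
    have s1 : Real.sin (((((i' : ℕ) % (4 * q) : ℕ)) : ℝ) * ang q + ang q) =
        Real.sin (((((i : ℕ) % (4 * q) : ℕ)) : ℝ) * ang q) := by
      rw [e1, Real.sin_add_two_pi]
    have := block_est hq h.eps_nonneg h.hb t2 (by rw [c1, s1]; exact t1)
    rw [c1] at this
    rw [add_comm (Real.cos (((((i : ℕ) % (4 * q) : ℕ)) : ℝ) * ang q))]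
    exact this

theorem Near.block_sum (h : Near n d q a β) (u : Vtx a) {j : ℕ} (hj : j < d / 2) :
    |∑ i ∈ (tight a u.1).filter (fun i => blk q i = j), wt d q i -
      2 * Real.cos (ang q / 2) ^ 2 * ext u.1 (2 * j)| ≤
      2 * Real.cos (ang q / 2) ^ 2 * (1 / 4) := by
  classical
  have hu : Feas a u.1 := u.2.1
  have hs := (h.saturated hu (vtx_card u)).2 j (by rw [mem_range]; omega)
  rw [cap, if_pos hj, card_eq_two] at hs
  obtain ⟨i, i', hne, hT⟩ := hs
  have hi : i ∈ (tight a u.1).filter (fun i => blk q i = j) := by rw [hT]; simp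
  have hi' : i' ∈ (tight a u.1).filter (fun i => blk q i = j) := by rw [hT]; simp
  rw [hT, sum_pair hne]
  rw [mem_filter] at hi hi'
  have hb : blk q i = blk q i' := by rw [hi.2, hi'.2]
  rcases lt_trichotomy ((i : ℕ) % (4 * q)) ((i' : ℕ) % (4 * q)) with h1 | h1 | h1
  · have := h.two_aux hu hi.1 hi'.1 hb (by rw [hi.2]; exact hj) h1
    rw [hi.2] at this
    exact this
  · exfalso
    apply hne
    apply Fin.ext
    rw [← Nat.mod_add_div (i : ℕ) (4 * q), ← Nat.mod_add_div (i' : ℕ) (4 * q), h1]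
    have : (i : ℕ) / (4 * q) = (i' : ℕ) / (4 * q) := hb
    rw [this]
  · have := h.two_aux hu hi'.1 hi.1 hb.symm (by rw [hi'.2]; exact hj) h1
    rw [hi'.2, add_comm (wt d q i')] at this
    exact this

theorem Near.pot_est (h : Near n d q a β) (u : Vtx a) :
    |pot q a u.1 - 2 * Real.cos (ang q / 2) ^ 2 * ∑ j ∈ range (d / 2), ext u.1 (2 * j)| ≤
      (d / 2 : ℕ) * (2 * Real.cos (ang q / 2) ^ 2 * (1 / 4)) := by
  classical
  have hu : Feas a u.1 := u.2.1
  have h1 : pot q a u.1 = ∑ j ∈ range (d / 2),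
      ∑ i ∈ (tight a u.1).filter (fun i => blk q i = j), wt d q i := by
    unfold pot
    rw [← sum_fiberwise_of_maps_to (fun i hi => h.blk_mem hu hi) (wt d q), sum_range_succ]
    have : ∑ i ∈ (tight a u.1).filter (fun i => blk q i = d / 2), wt d q i = 0 := by
      apply sum_eq_zero
      intro i hi
      rw [mem_filter] at hi
      unfold wt
      rw [if_neg]
      intro hlt
      have h2 : blk q i < d / 2 := Nat.div_lt_of_lt_mul hlt
      omega
    rw [this, add_zero]
  rw [h1, mul_sum, ← sum_sub_distrib]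
  refine (abs_sum_le_sum_abs _ _).trans ?_
  refine (sum_le_sum fun j hj => h.block_sum u (mem_range.mp hj)).trans ?_
  rw [sum_const, card_range, nsmul_eq_mul]

/-- The functional. -/
noncomputable def fnc (d t : ℕ) : ℝ := if t % 2 = 0 ∧ t < 2 * (d / 2) then 1 else 0

theorem fnc_sum (x : Fin d → ℝ) :
    ∑ t : Fin d, fnc d t * x t = ∑ j ∈ range (d / 2), ext x (2 * j) := by
  rw [sum_ext]
  have h1 : ∀ k, 2 * k ≤ d → ∑ t ∈ range (2 * k),
      (if t % 2 = 0 then (1 : ℝ) else 0) * ext x t = ∑ j ∈ range k, ext x (2 * j) := by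
    intro k
    induction k with
    | zero => simp
    | succ k ih =>
      intro hk
      rw [Nat.mul_succ, sum_range_succ, sum_range_succ, sum_range_succ, ih (by omega)]
      simp
  have h2 : range (2 * (d / 2)) ⊆ range d := range_subset_range.mpr (by omega)
  rw [← h1 (d / 2) (by omega), ← sum_subset h2]
  · apply sum_congr rfl
    intro t ht
    rw [mem_range] at ht
    unfold fnc
    simp [ht]
  · intro t _ ht
    rw [mem_range] at ht
    unfold fnc
    simp [ht]

theorem fnc_abs (t : ℕ) : |fnc d t| ≤ 1 := by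
  unfold fnc
  split_ifs <;> simp

theorem fnc_cen (i : Fin n) (s : ℝ) (hs : s = 1 ∨ s = -1) :
    ∑ t, cen n d q i t * (s * fnc d t) ≤ 1 := by
  rw [cen_ip]
  by_cases hi : (i : ℕ) < 4 * q * (d / 2)
  · rw [cenN_ip_poly hi]
    have hj : (i : ℕ) / (4 * q) < d / 2 := Nat.div_lt_of_lt_mul hi
    have e1 : ext (fun t : Fin d => s * fnc d t) (2 * ((i : ℕ) / (4 * q))) = s := by
      unfold ext
      rw [dif_pos (by omega)]
      simp only [fnc]
      rw [if_pos (by omega), mul_one]
    have e2 : ext (fun t : Fin d => s * fnc d t) (2 * ((i : ℕ) / (4 * q)) + 1) = 0 := by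
      unfold ext
      rw [dif_pos (by omega)]
      simp only [fnc]
      rw [if_neg (by omega), mul_zero]
    rw [e1, e2, gg, mul_zero, add_zero]
    have := Real.abs_cos_le_one ((((i : ℕ) % (4 * q) : ℕ)) * ang q)
    rw [abs_le] at this
    rcases hs with rfl | rfl <;> linarith [this.1, this.2]
  · rw [cenN_ip_last hi]
    split_ifs with g1 g2 g3
    · have e1 : ext (fun t : Fin d => s * fnc d t) (2 * (d / 2)) = 0 := by
        unfold ext
        rw [dif_pos (by omega)]
        simp only [fnc]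
        rw [if_neg (by omega), mul_zero]
      rw [e1]; norm_num
    · have e1 : ext (fun t : Fin d => s * fnc d t) (2 * (d / 2)) = 0 := by
        unfold ext
        rw [dif_pos (by omega)]
        simp only [fnc]
        rw [if_neg (by omega), mul_zero]
      rw [e1]; norm_num
    · norm_num
    · norm_num

theorem Near.test (h : Near n d q a β) (s : ℝ) (hs : s = 1 ∨ s = -1) :
    Feas a (fun t : Fin d => 15 / 16 * (s * fnc d t)) := by
  intro i
  have h1 := fnc_cen (d := d) (q := q) i s hs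
  have h2 := h.noise i (x := fun t : Fin d => s * fnc d t) (ρ := 1) (by norm_num) (by
    intro t
    rw [abs_mul]
    have := fnc_abs (d := d) (t : ℕ)
    rcases hs with rfl | rfl <;> simpa using this)
  have h3 : ∑ t, a i t * (15 / 16 * (s * fnc d t)) =
      15 / 16 * (∑ t, cen n d q i t * (s * fnc d t) +
        ∑ t, (a i t - cen n d q i t) * (s * fnc d t)) := by
    rw [← Near.split (q := q), mul_sum]
    exact sum_congr rfl fun t _ => by ring
  rw [h3]
  have h4 := (abs_le.mp h2).2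
  have h5 := h.small
  have h6 := h.b0
  linarith

/-- Two vertices with far apart potentials. -/
theorem Near.ends (h : Near n d q a β) :
    ∃ u v : Vtx a, 11 / 8 * ((d / 2 : ℕ) : ℝ) ≤ pot q a u.1 - pot q a v.1 := by
  have hq := h.hq
  obtain ⟨u, hu⟩ := exists_vertex_max a 2 (fun x hx t => h.bound hx t) (fun t => fnc d t)
  obtain ⟨v, hv⟩ := exists_vertex_max a 2 (fun x hx t => h.bound hx t) (fun t => -fnc d t)
  refine ⟨u, v, ?_⟩
  have hk : (0 : ℝ) ≤ ((d / 2 : ℕ) : ℝ) := Nat.cast_nonneg _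
  set k : ℝ := ((d / 2 : ℕ) : ℝ) with hkdef
  have hF : ∀ s : ℝ, ∑ t : Fin d, fnc d t * (15 / 16 * (s * fnc d t)) = 15 / 16 * s * k := by
    intro s
    have h1 := fnc_sum (fun t : Fin d => 15 / 16 * (s * fnc d t))
    rw [h1]
    have h2 : ∀ j ∈ range (d / 2), ext (fun t : Fin d => 15 / 16 * (s * fnc d t)) (2 * j) =
        15 / 16 * s := by
      intro j hj
      rw [mem_range] at hj
      unfold ext
      rw [dif_pos (by omega)]
      simp only [fnc]
      rw [if_pos (by omega), mul_one]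
    rw [sum_congr rfl h2, sum_const, card_range, nsmul_eq_mul, hkdef]
    ring
  have u1 := hu _ (h.test 1 (Or.inl rfl))
  have v1 := hv _ (h.test (-1) (Or.inr rfl))
  rw [hF 1, fnc_sum] at u1
  have v2 : ∑ t : Fin d, -fnc d t * (15 / 16 * (-1 * fnc d t)) = 15 / 16 * k := by
    have := hF 1
    rw [← mul_one (15 / 16 * k)] 
    rw [show 15 / 16 * k * 1 = 15 / 16 * 1 * k by ring, ← this]
    exact sum_congr rfl fun t _ => by ring
  have v3 : ∑ t : Fin d, -fnc d t * v.1 t = -∑ j ∈ range (d / 2), ext v.1 (2 * j) := by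
    rw [← fnc_sum, ← sum_neg_distrib]
    exact sum_congr rfl fun t _ => by ring
  rw [v2, v3] at v1
  have pu := (abs_le.mp (h.pot_est u)).1
  have pv := (abs_le.mp (h.pot_est v)).2
  have hc : 1 ≤ 2 * Real.cos (ang q / 2) ^ 2 := by
    have h1 := half_cos hq
    have h2 : (Real.sqrt 2 / 2) ^ 2 ≤ Real.cos (ang q / 2) ^ 2 :=
      pow_le_pow_left₀ (by positivity) h1 2
    rw [div_pow, Real.sq_sqrt (by norm_num)] at h2
    linarith
  set C := 2 * Real.cos (ang q / 2) ^ 2 with hC
  set Su := ∑ j ∈ range (d / 2), ext u.1 (2 * j)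
  set Sv := ∑ j ∈ range (d / 2), ext v.1 (2 * j)
  have m1 : C * (15 / 16 * k) ≤ C * Su := mul_le_mul_of_nonneg_left (by linarith) (by linarith)
  have m2 : C * (15 / 16 * k) ≤ C * (-Sv) := mul_le_mul_of_nonneg_left (by linarith) (by linarith)
  have m3 : k ≤ C * k := le_mul_of_one_le_left hk hc
  nlinarith [m1, m2, m3, pu, pv]

end Pool.Agent.H.MP_0cad2f_co.helper11
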