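import Mathlib

/-!
Elementary facts on the regular `4q`-gon with approximately unit right hand sides.
-/

set_option autoImplicit false

namespace Pool.Agent.H.MP_0cad2f_co.helper11

open Real

/-- The exterior angle of a regular `4q`-gon. -/
noncomputable def ang (q : ℕ) : ℝ := π / (2 * q)

/-- The value of the `l`-th side functional at the point `(X, Y)`. -/
noncomputable def gg (q : ℕ) (X Y : ℝ) (l : ℕ) : ℝ := cos (l * ang q) * X + sin (l * ang q) * Y

theorem ang_pos {q : ℕ} (hq : 1 ≤ q) : 0 < ang q := by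
  have : (0 : ℝ) < q := by exact_mod_cast hq
  unfold ang; positivity

theorem two_q_ang {q : ℕ} (hq : 1 ≤ q) : (2 * q : ℝ) * ang q = π := by
  have : (0 : ℝ) < q := by exact_mod_cast hq
  unfold ang; field_simp

theorem ang_le {q : ℕ} (hq : 1 ≤ q) : ang q ≤ π / 2 := by
  have h : (1 : ℝ) ≤ q := by exact_mod_cast hq
  unfold ang
  apply div_le_div_of_nonneg_left pi_pos.le (by norm_num) (by linarith)

theorem gg_add_half {q : ℕ} (hq : 1 ≤ q) (X Y : ℝ) (l : ℕ) :
    gg q X Y (l + 2 * q) = - gg q X Y l := by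
  unfold gg
  have : ((l + 2 * q : ℕ) : ℝ) * ang q = l * ang q + π := by
    push_cast; rw [add_mul, two_q_ang hq]
  rw [this, cos_add_pi, sin_add_pi]; ring

theorem gg_add_period {q : ℕ} (hq : 1 ≤ q) (X Y : ℝ) (l : ℕ) :
    gg q X Y (l + 4 * q) = gg q X Y l := by
  have : l + 4 * q = l + 2 * q + 2 * q := by ring
  rw [this, gg_add_half hq, gg_add_half hq, neg_neg]

theorem gg_mod {q : ℕ} (hq : 1 ≤ q) (X Y : ℝ) (l : ℕ) :
    gg q X Y (l % (4 * q)) = gg q X Y l := by
  conv_rhs => rw [← Nat.mod_add_div l (4 * q)]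
  induction l / (4 * q) with
  | zero => simp
  | succ m ih =>
    rw [Nat.mul_succ, ← add_assoc, gg_add_period hq]
    exact ih

theorem one_add_mul_cos_lt {q : ℕ} (hq : 1 ≤ q) {ε : ℝ} (h0 : 0 ≤ ε)
    (hε : ε ≤ 1 / (16 * q ^ 2)) : (1 + ε) * cos (ang q) < 1 - ε := by
  have hq' : (0 : ℝ) < q := by exact_mod_cast hq
  have hq1 : (1 : ℝ) ≤ q := by exact_mod_cast hq
  have h1 : cos (ang q) ≤ 1 - 1 / (2 * q ^ 2) := by
    have h := cos_le_one_sub_mul_cos_sq (x := ang q)
      (by rw [abs_of_pos (ang_pos hq)]; linarith [ang_le hq, pi_pos])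
    have h2 : 2 / π ^ 2 * ang q ^ 2 = 1 / (2 * q ^ 2) := by
      unfold ang; field_simp
    rw [h2] at h; exact h
  have h3 : 1 / (16 * (q : ℝ) ^ 2) = 1 / (2 * q ^ 2) / 8 := by field_simp; norm_num
  set w : ℝ := 1 / (2 * q ^ 2) with hw
  have hw0 : 0 < w := by rw [hw]; positivity
  have hw1 : w ≤ 1 / 2 := by
    rw [hw]
    apply one_div_le_one_div_of_le (by norm_num)
    nlinarith
  rw [h3] at hε
  nlinarith [mul_le_mul_of_nonneg_left h1 (by linarith : (0 : ℝ) ≤ 1 + ε)]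

/-- Two nearly tight sides at distance between `2` and `2q - 1` force a violated side between
them. -/
theorem no_gap_aux {q : ℕ} (hq : 1 ≤ q) {ε X Y : ℝ} (h0 : 0 ≤ ε) (hε : ε ≤ 1 / (16 * q ^ 2))
    (hle : ∀ l : ℕ, gg q X Y l ≤ 1 + ε) {l D : ℕ} (hD2 : 2 ≤ D) (hD : D < 2 * q)
    (h1 : 1 - ε ≤ gg q X Y l) (h2 : 1 - ε ≤ gg q X Y (l + D)) : False := by
  have hq' : (0 : ℝ) < q := by exact_mod_cast hq
  have ht := ang_pos hq
  have hpi := two_q_ang hq
  set θ := ang q with hθ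
  have hDr : (2 : ℝ) ≤ D := by exact_mod_cast hD2
  have hDr' : (D : ℝ) < 2 * q := by exact_mod_cast hD
  have hu1 : θ ≤ D * θ / 2 := by nlinarith
  have hu2 : D * θ / 2 < π / 2 := by nlinarith
  set u := D * θ / 2 with hu
  have hsu : 0 < sin u := sin_pos_of_pos_of_lt_pi (by linarith) (by linarith [pi_pos])
  have hcu : 0 < cos u := cos_pos_of_mem_Ioo ⟨by linarith [pi_pos], hu2⟩
  have hcu' : 0 < cos (u - θ) := cos_pos_of_mem_Ioo ⟨by linarith [pi_pos], by linarith⟩
  have hsu' : 0 ≤ sin (u - θ) := sin_nonneg_of_nonneg_of_le_pi (by linarith) (by linarith [pi_pos])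
  have hsθ : 0 ≤ sin θ := sin_nonneg_of_nonneg_of_le_pi ht.le (by linarith [ang_le hq, pi_pos])
  have hcos : cos u ≤ cos (u - θ) * cos θ := by
    have : cos u = cos (u - θ) * cos θ - sin (u - θ) * sin θ := by
      rw [← cos_add]; congr 1; ring
    rw [this]; nlinarith [mul_nonneg hsu' hsθ]
  have hkey := one_add_mul_cos_lt hq h0 hε
  rw [← hθ] at hkey
  have hlt : cos u * (1 + ε) < cos (u - θ) * (1 - ε) := by
    calc cos u * (1 + ε) ≤ cos (u - θ) * cos θ * (1 + ε) :=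
          mul_le_mul_of_nonneg_right hcos (by linarith)
      _ = cos (u - θ) * ((1 + ε) * cos θ) := by ring
      _ < cos (u - θ) * (1 - ε) := mul_lt_mul_of_pos_left hkey hcu'
  -- the three term identity
  have hid : sin (D * θ) * gg q X Y (l + 1) =
      sin (D * θ - θ) * gg q X Y l + sin θ * gg q X Y (l + D) := by
    unfold gg
    rw [← hθ]
    push_cast
    have e1 : ((l : ℝ) + 1) * θ = l * θ + θ := by ring
    have e2 : ((l : ℝ) + D) * θ = l * θ + D * θ := by ring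
    rw [e1, e2, cos_add, sin_add, cos_add, sin_add, sin_sub]
    have h4 := sin_sq_add_cos_sq θ
    have h5 := sin_sq_add_cos_sq (D * θ)
    have h6 := sin_sq_add_cos_sq (l * θ)
    ring
  have hsD : sin (D * θ) = 2 * sin u * cos u := by
    rw [← sin_two_mul]; congr 1; rw [hu]; ring
  have hsum : sin (D * θ - θ) + sin θ = 2 * sin u * cos (u - θ) := by
    have e1 : D * θ - θ = u + (u - θ) := by rw [hu]; ring
    have e2 : sin θ = sin (u - (u - θ)) := by congr 1; ring
    rw [e1, e2, sin_add u (u - θ), sin_sub u (u - θ)]; ring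
  have hsD' : 0 ≤ sin (D * θ - θ) := by
    apply sin_nonneg_of_nonneg_of_le_pi
    · nlinarith
    · nlinarith
  have hA : sin (D * θ) * gg q X Y (l + 1) ≤ sin (D * θ) * (1 + ε) := by
    apply mul_le_mul_of_nonneg_left (hle _)
    rw [hsD]; positivity
  have hB : (sin (D * θ - θ) + sin θ) * (1 - ε) ≤
      sin (D * θ - θ) * gg q X Y l + sin θ * gg q X Y (l + D) := by
    nlinarith [mul_le_mul_of_nonneg_left h1 hsD', mul_le_mul_of_nonneg_left h2 hsθ]
  rw [hid, hsD] at hA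
  rw [hsum] at hB
  nlinarith [mul_lt_mul_of_pos_left hlt (by positivity : (0 : ℝ) < 2 * sin u)]

/-- Two nearly tight sides of the `4q`-gon are adjacent. -/
theorem no_gap {q : ℕ} (hq : 1 ≤ q) {ε X Y : ℝ} (h0 : 0 ≤ ε) (hε : ε ≤ 1 / (16 * q ^ 2))
    (hle : ∀ l : ℕ, gg q X Y l ≤ 1 + ε) {l D : ℕ} (hD2 : 2 ≤ D) (hD : D + 2 ≤ 4 * q)
    (h1 : 1 - ε ≤ gg q X Y l) (h2 : 1 - ε ≤ gg q X Y (l + D)) : False := by
  have hq1 : (1 : ℝ) ≤ q := by exact_mod_cast hq
  rcases lt_trichotomy D (2 * q) with h | h | h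
  · exact no_gap_aux hq h0 hε hle hD2 h h1 h2
  · subst h
    rw [gg_add_half hq] at h2
    have : ε ≤ 1 / 16 := by
      refine hε.trans ?_
      apply one_div_le_one_div_of_le (by norm_num)
      nlinarith
    linarith
  · refine no_gap_aux hq h0 hε hle (l := l + D) (D := 4 * q - D) (by omega) (by omega) h2 ?_
    have : l + D + (4 * q - D) = l + 4 * q := by omega
    rw [this, gg_add_period hq]; exact h1

/-- The half angle estimates. -/
theorem half_cos {q : ℕ} (hq : 1 ≤ q) : Real.sqrt 2 / 2 ≤ cos (ang q / 2) := by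
  rw [← cos_pi_div_four]
  apply cos_le_cos_of_nonneg_of_le_pi
  · linarith [ang_pos hq]
  · linarith [pi_pos]
  · linarith [ang_le hq]

theorem half_sin {q : ℕ} (hq : 1 ≤ q) : 1 / (2 * q : ℝ) ≤ sin (ang q / 2) := by
  have hq' : (0 : ℝ) < q := by exact_mod_cast hq
  have h := mul_le_sin (x := ang q / 2) (by linarith [ang_pos hq])
    (by linarith [ang_le hq, pi_pos])
  refine le_trans (le_of_eq ?_) h
  unfold ang; field_simp

theorem block_est_aux {q : ℕ} (hq : 1 ≤ q) {ε X Y φ c s : ℝ} (h0 : 0 ≤ ε)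
    (hε : ε ≤ 1 / (16 * q ^ 2)) (hcp : 7 / 10 ≤ c) (hsp : 1 / (2 * q : ℝ) ≤ s)
    (h1 : |(cos φ * c + sin φ * s) * X + (sin φ * c - cos φ * s) * Y - 1| ≤ ε)
    (h2 : |(cos φ * c - sin φ * s) * X + (sin φ * c + cos φ * s) * Y - 1| ≤ ε) :
    |2 * c * cos φ - 2 * c ^ 2 * X| ≤ 2 * c ^ 2 * (1 / 4) := by
  have hq' : (0 : ℝ) < q := by exact_mod_cast hq
  have hq1 : (1 : ℝ) ≤ q := by exact_mod_cast hq
  have hs0 : 0 < s := lt_of_lt_of_le (by positivity) hsp
  have hc0 : 0 < c := by linarith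
  obtain ⟨U, hU⟩ : ∃ U, U = cos φ * X + sin φ * Y := ⟨_, rfl⟩
  obtain ⟨V, hV⟩ : ∃ V, V = -(sin φ * X) + cos φ * Y := ⟨_, rfl⟩
  have hX : X = cos φ * U - sin φ * V := by
    rw [hU, hV]
    have := sin_sq_add_cos_sq φ
    linear_combination (-X) * this
  have hUb : |2 * c * U - 2| ≤ 2 * ε := by
    have : 2 * c * U - 2 = ((cos φ * c + sin φ * s) * X + (sin φ * c - cos φ * s) * Y - 1) +
        ((cos φ * c - sin φ * s) * X + (sin φ * c + cos φ * s) * Y - 1) := by rw [hU]; ring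
    rw [this]
    exact (abs_add_le _ _).trans (by linarith)
  have hVb : |2 * s * V| ≤ 2 * ε := by
    have : 2 * s * V = ((cos φ * c - sin φ * s) * X + (sin φ * c + cos φ * s) * Y - 1) -
        ((cos φ * c + sin φ * s) * X + (sin φ * c - cos φ * s) * Y - 1) := by rw [hV]; ring
    rw [this]
    exact (abs_sub _ _).trans (by linarith)
  have e4 : 2 * c * cos φ - 2 * c ^ 2 * X =
      2 * c ^ 2 * (cos φ * ((2 - 2 * c * U) / (2 * c)) + sin φ * ((2 * s * V) / (2 * s))) := by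
    rw [hX]
    field_simp
    ring
  rw [e4, abs_mul, abs_of_nonneg (by positivity : (0 : ℝ) ≤ 2 * c ^ 2)]
  refine mul_le_mul_of_nonneg_left ?_ (by positivity)
  have b1 : |cos φ * ((2 - 2 * c * U) / (2 * c))| ≤ ε / c := by
    rw [abs_mul, abs_div, abs_of_pos (by positivity : (0 : ℝ) < 2 * c), abs_sub_comm]
    calc |cos φ| * (|2 * c * U - 2| / (2 * c)) ≤ 1 * (2 * ε / (2 * c)) := by
          apply mul_le_mul (abs_cos_le_one _) _ (by positivity) (by norm_num)
          exact div_le_div_of_nonneg_right hUb (by positivity)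
      _ = ε / c := by field_simp
  have b2 : |sin φ * ((2 * s * V) / (2 * s))| ≤ ε / s := by
    rw [abs_mul, abs_div, abs_of_pos (by positivity : (0 : ℝ) < 2 * s)]
    calc |sin φ| * (|2 * s * V| / (2 * s)) ≤ 1 * (2 * ε / (2 * s)) := by
          apply mul_le_mul (abs_sin_le_one _) _ (by positivity) (by norm_num)
          exact div_le_div_of_nonneg_right hVb (by positivity)
      _ = ε / s := by field_simp
  have hε16 : ε ≤ 1 / 16 := by
    refine hε.trans ?_
    apply one_div_le_one_div_of_le (by norm_num)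
    nlinarith
  have b3 : ε / c ≤ 1 / 11 := by
    rw [div_le_iff₀ (by linarith)]
    linarith
  have b4 : ε / s ≤ 1 / 8 := by
    rw [div_le_iff₀ hs0]
    calc ε ≤ 1 / (16 * q ^ 2) := hε
      _ ≤ 1 / 8 * (1 / (2 * q)) := by
          rw [one_div_mul_one_div]
          apply one_div_le_one_div_of_le (by positivity)
          nlinarith
      _ ≤ 1 / 8 * s := by linarith
  calc _ ≤ |cos φ * ((2 - 2 * c * U) / (2 * c))| + |sin φ * ((2 * s * V) / (2 * s))| :=
        abs_add_le _ _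
    _ ≤ 1 / 11 + 1 / 8 := by linarith
    _ ≤ 1 / 4 := by norm_num

/-- The coordinate of a vertex compared with the normals of its two sides. -/
theorem block_est {q : ℕ} (hq : 1 ≤ q) {ε X Y α : ℝ} (h0 : 0 ≤ ε) (hε : ε ≤ 1 / (16 * q ^ 2))
    (h1 : |cos α * X + sin α * Y - 1| ≤ ε)
    (h2 : |cos (α + ang q) * X + sin (α + ang q) * Y - 1| ≤ ε) :
    |cos α + cos (α + ang q) - 2 * cos (ang q / 2) ^ 2 * X| ≤
      2 * cos (ang q / 2) ^ 2 * (1 / 4) := by
  obtain ⟨φ, hφ⟩ : ∃ φ, φ = α + ang q / 2 := ⟨_, rfl⟩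
  have e1 : α = φ - ang q / 2 := by rw [hφ]; ring
  have e2 : α + ang q = φ + ang q / 2 := by rw [hφ]; ring
  rw [e2, cos_add, sin_add] at h2
  rw [e1, cos_sub, sin_sub] at h1
  have hcp : 7 / 10 ≤ cos (ang q / 2) := by
    refine le_trans ?_ (half_cos hq)
    have : (7 / 5 : ℝ) ≤ Real.sqrt 2 := by
      rw [show (7 / 5 : ℝ) = Real.sqrt ((7 / 5) ^ 2) by rw [Real.sqrt_sq (by norm_num)]]
      exact Real.sqrt_le_sqrt (by norm_num)
    linarith
  have h := block_est_aux hq h0 hε hcp (half_sin hq) h1 h2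
  have e3 : cos α + cos (α + ang q) = 2 * cos (ang q / 2) * cos φ := by
    rw [e2, cos_add]
    have : cos α = cos φ * cos (ang q / 2) + sin φ * sin (ang q / 2) := by
      rw [← cos_sub]; congr 1
    rw [this]; ring
  rw [e3]; exact h

end Pool.Agent.H.MP_0cad2f_co.helper11
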